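import Mathlib

/-!
The firefighter process, the surviving rate and planar graphs (rotation systems with Euler's
formula).
-/

namespace Pool.Agent.H41.Fire

open Classical

universe u

variable {V : Type u}

/-- `burn G v p t` is the set of vertices burning after `t` time steps, when the fire breaks out
at `v` and `p s` is the vertex protected in time step `s + 1` (`none` = no vertex is protected in
that step). In time step `t + 1` first `p t` is protected, then the fire spreads from every
burning vertex to all its neighbours that have not been protected. -/
def burn (G : SimpleGraph V) (v : V) (p : ℕ → Option V) : ℕ → Set V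
  | 0 => {v}
  | t + 1 => burn G v p t ∪ {w | (∃ u ∈ burn G v p t, G.Adj u w) ∧ ∀ s ≤ t, p s ≠ some w}

/-- A legal strategy: a vertex protected in time step `t + 1` is neither burning nor already
protected at that time. -/
def Legal (G : SimpleGraph V) (v : V) (p : ℕ → Option V) : Prop :=
  ∀ t w, p t = some w → w ∉ burn G v p t ∧ ∀ s < t, p s ≠ some w

/-- The largest number of vertices that can be saved when the fire breaks out at `v`. -/
noncomputable def sn (G : SimpleGraph V) (v : V) : ℕ :=
  sSup {k : ℕ | ∃ p : ℕ → Option V, Legal G v p ∧
    k = Nat.card {w : V // ∀ t, w ∉ burn G v p t}}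

/-- The surviving rate. -/
noncomputable def rho [Fintype V] (G : SimpleGraph V) : ℝ :=
  (∑ v : V, (sn G v : ℝ)) / (Fintype.card V : ℝ) ^ 2

/-- A rotation system of `G`: a permutation of the darts (oriented edges) whose cycles are exactly
the sets of darts with a common starting vertex. -/
structure Rotation (G : SimpleGraph V) where
  /-- the next dart at the same vertex -/
  nxt : Equiv.Perm G.Dart
  fst_nxt : ∀ d, (nxt d).fst = d.fst
  sameCycle : ∀ d e : G.Dart, d.fst = e.fst → nxt.SameCycle d e

/-- Reversing darts, as a permutation. -/
def rev (G : SimpleGraph V) : Equiv.Perm G.Dart :=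
  ⟨SimpleGraph.Dart.symm, SimpleGraph.Dart.symm, fun d => d.symm_symm, fun d => d.symm_symm⟩

/-- The face permutation: reverse a dart, then take the next dart. -/
def Rotation.face {G : SimpleGraph V} (R : Rotation G) : Equiv.Perm G.Dart := R.nxt * rev G

/-- Number of cycles (fixed points included) of a permutation. -/
noncomputable def cycles {α : Type*} (f : Equiv.Perm α) : ℕ :=
  Nat.card (Quotient (Equiv.Perm.SameCycle.setoid f))

/-- `G` is planar: for some rotation system Euler's formula `V - E + F = 2 C` holds, where the
faces are the cycles of the face permutation together with one face for each isolated vertex, and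
`C` is the number of connected components. -/
def IsPlanar (G : SimpleGraph V) : Prop :=
  ∃ R : Rotation G,
    Nat.card V + (cycles R.face + Nat.card {v : V // ∀ w, ¬ G.Adj v w}) =
      Nat.card G.edgeSet + 2 * Nat.card G.ConnectedComponent

end Pool.Agent.H41.Fire
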