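import Pool.Agent.H41.Fire.Defs

/-! Number of cycles of a permutation after multiplication by a transposition. -/

namespace Pool.Agent.H41.Fire

open Equiv.Perm

variable {α : Type*} [Finite α] [DecidableEq α]

theorem sameCycle_swap_of_not {f : Equiv.Perm α} {a b x y : α}
    (ha : ¬ (f * Equiv.swap a b).SameCycle x a) (hb : ¬ (f * Equiv.swap a b).SameCycle x b) :
    (f * Equiv.swap a b).SameCycle x y ↔ f.SameCycle x y := by
  set g := f * Equiv.swap a b with hg
  have hpow : ∀ k : ℕ, (g ^ k) x = (f ^ k) x := by
    intro k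
    induction k with
    | zero => simp
    | succ k ih =>
      have h1 : (g ^ k) x ≠ a := fun h => ha ⟨k, by simpa using h⟩
      have h2 : (g ^ k) x ≠ b := fun h => hb ⟨k, by simpa using h⟩
      have h3 : g ((g ^ k) x) = f ((g ^ k) x) := by
        rw [hg, Equiv.Perm.mul_apply, ← hg, Equiv.swap_apply_of_ne_of_ne h1 h2]
      rw [pow_succ', pow_succ']
      show g ((g ^ k) x) = f ((f ^ k) x)
      rw [h3, ih]
  constructor
  · intro h
    obtain ⟨k, hk⟩ := h.exists_nat_pow_eq
    exact ⟨k, by rw [zpow_natCast, ← hpow, hk]⟩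
  · intro h
    obtain ⟨k, hk⟩ := h.exists_nat_pow_eq
    exact ⟨k, by rw [zpow_natCast, hpow, hk]⟩

theorem cycles_mul_swap_le (f : Equiv.Perm α) (a b : α) :
    cycles (f * Equiv.swap a b) ≤ cycles f + 1 := by
  classical
  set g := f * Equiv.swap a b with hg
  let F : Quotient (SameCycle.setoid g) → Option (Quotient (SameCycle.setoid f)) := fun Q =>
    if Q = Quotient.mk _ b then none else some (Quotient.mk _ Q.out)
  have key : ∀ Q1 Q2 : Quotient (SameCycle.setoid g), Q1 ≠ Quotient.mk _ b →
      Q2 ≠ Quotient.mk _ b → Q2 ≠ Quotient.mk _ a →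
      (Quotient.mk (SameCycle.setoid f) Q1.out) = Quotient.mk _ Q2.out → Q1 = Q2 := by
    intro Q1 Q2 _ h2b h2a h
    have h3 : f.SameCycle Q2.out Q1.out := (Quotient.exact h).symm
    have ha : ¬ g.SameCycle Q2.out a := fun hh => h2a (by
      rw [← Quotient.out_eq Q2]; exact Quotient.sound hh)
    have hb : ¬ g.SameCycle Q2.out b := fun hh => h2b (by
      rw [← Quotient.out_eq Q2]; exact Quotient.sound hh)
    have h4 : g.SameCycle Q2.out Q1.out := (sameCycle_swap_of_not ha hb).2 h3
    rw [← Quotient.out_eq Q1, ← Quotient.out_eq Q2]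
    exact Quotient.sound h4.symm
  have hF : Function.Injective F := by
    intro Q1 Q2 h
    by_cases h1 : Q1 = Quotient.mk _ b
    · by_cases h2 : Q2 = Quotient.mk _ b
      · rw [h1, h2]
      · simp only [F, if_pos h1, if_neg h2] at h
        exact absurd h (by simp)
    · by_cases h2 : Q2 = Quotient.mk _ b
      · simp only [F, if_pos h2, if_neg h1] at h
        exact absurd h (by simp)
      · simp only [F, if_neg h1, if_neg h2, Option.some.injEq] at h
        by_cases h3 : Q2 = Quotient.mk _ a
        · by_cases h4 : Q1 = Quotient.mk _ a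
          · rw [h3, h4]
          · exact (key Q2 Q1 h2 h1 h4 h.symm).symm
        · exact key Q1 Q2 h1 h2 h3 h
  have := Nat.card_le_card_of_injective F hF
  rwa [Finite.card_option] at this

theorem sameCycle_swap_merge {f : Equiv.Perm α} {a b : α} (h : ¬ f.SameCycle a b) :
    (f * Equiv.swap a b).SameCycle a b := by
  classical
  set g := f * Equiv.swap a b with hg
  obtain ⟨i, hi0, -, hi⟩ : ∃ i, 0 < i ∧ i ≤ orderOf f ∧ (f ^ i) b = b :=
    ⟨orderOf f, orderOf_pos f, le_refl _, by rw [pow_orderOf_eq_one]; simp⟩
  have hex : ∃ m, 0 < m ∧ (f ^ m) b = b := ⟨i, hi0, hi⟩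
  obtain ⟨hm0, hmb⟩ := Nat.find_spec hex
  set m := Nat.find hex with hm
  have hstep : ∀ k, 1 ≤ k → k ≤ m → (g ^ k) a = (f ^ k) b := by
    intro k
    induction k with
    | zero => intro h0; omega
    | succ k ih =>
      intro _ hkm
      rcases Nat.eq_zero_or_pos k with rfl | hk
      · simp [hg]
      · have h1 := ih hk (by omega)
        have h2 : (f ^ k) b ≠ a := fun hh => h (SameCycle.symm ⟨k, by rw [zpow_natCast, hh]⟩)
        have h3 : (f ^ k) b ≠ b := fun hh => Nat.find_min hex (m := k) (by omega) ⟨hk, hh⟩
        have h4 : g ((f ^ k) b) = f ((f ^ k) b) := by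
          rw [hg, Equiv.Perm.mul_apply, Equiv.swap_apply_of_ne_of_ne h2 h3]
        rw [pow_succ', pow_succ']
        show g ((g ^ k) a) = f ((f ^ k) b)
        rw [h1, h4]
  exact ⟨m, by rw [zpow_natCast, hstep m hm0 (le_refl _), hmb]⟩

theorem cycles_mul_swap_lt {f : Equiv.Perm α} {a b : α} (h : ¬ f.SameCycle a b) :
    cycles (f * Equiv.swap a b) + 1 ≤ cycles f := by
  classical
  set g := f * Equiv.swap a b with hg
  have hab : g.SameCycle a b := sameCycle_swap_merge h
  have hstep : ∀ x, g.SameCycle x (f x) := by
    intro x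
    by_cases hxa : x = a
    · subst hxa
      have : f x = g b := by simp [hg]
      rw [this]
      exact Equiv.Perm.sameCycle_apply_right.2 hab
    · by_cases hxb : x = b
      · subst hxb
        have : f x = g a := by simp [hg]
        rw [this]
        exact Equiv.Perm.sameCycle_apply_right.2 hab.symm
      · have : f x = g x := by
          rw [hg, Equiv.Perm.mul_apply, Equiv.swap_apply_of_ne_of_ne hxa hxb]
        rw [this]
        exact Equiv.Perm.sameCycle_apply_right.2 (SameCycle.refl _ _)
  have hpow : ∀ (k : ℕ) x, g.SameCycle x ((f ^ k) x) := by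
    intro k x
    induction k with
    | zero => exact SameCycle.refl _ _
    | succ k ih =>
      rw [pow_succ', Equiv.Perm.mul_apply]
      exact ih.trans (hstep _)
  have himp : ∀ x y, f.SameCycle x y → g.SameCycle x y := by
    intro x y hxy
    obtain ⟨k, hk⟩ := hxy.exists_nat_pow_eq
    rw [← hk]
    exact hpow k x
  let F : Quotient (SameCycle.setoid f) → Quotient (SameCycle.setoid g) :=
    Quotient.map' id (fun x y hxy => himp x y hxy)
  have hsurj : Function.Surjective F := by
    intro Q
    induction Q using Quotient.inductionOn with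
    | _ x => exact ⟨Quotient.mk _ x, rfl⟩
  have hninj : ¬ Function.Injective F := by
    intro hinj
    have : F (Quotient.mk _ a) = F (Quotient.mk _ b) := Quotient.sound hab
    exact h (Quotient.exact (hinj this))
  have hle : cycles g ≤ cycles f := Nat.card_le_card_of_surjective F hsurj
  have hne : cycles g ≠ cycles f := by
    intro heq
    apply hninj
    have := Fintype.ofFinite (Quotient (SameCycle.setoid f))
    have := Fintype.ofFinite (Quotient (SameCycle.setoid g))
    have hb : Function.Bijective F := by
      rw [Fintype.bijective_iff_surjective_and_card]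
      refine ⟨hsurj, ?_⟩
      rw [← Nat.card_eq_fintype_card, ← Nat.card_eq_fintype_card]
      exact heq.symm
    exact hb.1
  omega

end Pool.Agent.H41.Fire
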