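import Pool.Agent.H41.Fire.Defs

/-! Sets that can be saved, and the barrier lemma. -/

namespace Pool.Agent.H41.Fire

open Classical

universe u

variable {V : Type u}

/-- All of `W` can be saved by one legal strategy. -/
def CanSave (G : SimpleGraph V) (v : V) (W : Set V) : Prop :=
  ∃ p : ℕ → Option V, Legal G v p ∧ ∀ w ∈ W, ∀ t, w ∉ burn G v p t

theorem CanSave.mono {G : SimpleGraph V} {v : V} {W W' : Set V} (h : CanSave G v W)
    (hs : W' ⊆ W) : CanSave G v W' := by
  obtain ⟨p, hp, hw⟩ := h
  exact ⟨p, hp, fun w hw' => hw w (hs hw')⟩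

theorem le_sn [Finite V] {G : SimpleGraph V} {v : V} {p : ℕ → Option V} (hp : Legal G v p) :
    Nat.card {w : V // ∀ t, w ∉ burn G v p t} ≤ sn G v := by
  apply le_csSup
  · refine ⟨Nat.card V, ?_⟩
    rintro k ⟨q, -, rfl⟩
    exact Finite.card_subtype_le _
  · exact ⟨p, hp, rfl⟩

theorem CanSave.card_le [Fintype V] {G : SimpleGraph V} {v : V} {W : Finset V}
    (h : CanSave G v (W : Set V)) : W.card ≤ sn G v := by
  obtain ⟨p, hp, hw⟩ := h
  refine le_trans ?_ (le_sn hp)
  rw [Nat.card_eq_fintype_card, Fintype.card_subtype]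
  apply Finset.card_le_card
  intro w hw'
  simp only [Finset.mem_filter, Finset.mem_univ, true_and]
  exact hw w (by simpa using hw')

/-- **Barrier lemma.** `E` is the set that is allowed to burn, `q t` is protected in time step `t`
(`t ≥ 1`), `τ` is a lower bound of the burning times in `E`. -/
theorem barrier {G : SimpleGraph V} {v : V} {E : Set V} {τ : V → ℕ} {q : ℕ → Option V}
    (hv : v ∈ E) (h0 : τ v = 0)
    (lip : ∀ a ∈ E, ∀ b ∈ E, G.Adj a b → τ b ≤ τ a + 1)
    (hq : ∀ t w, q t = some w → w ∉ E)
    (bd : ∀ a ∈ E, ∀ b, b ∉ E → G.Adj a b → ∃ t, 1 ≤ t ∧ t ≤ τ a + 1 ∧ q t = some b) :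
    CanSave G v Eᶜ := by
  set p : ℕ → Option V := fun s => if ∃ s' < s, q (s' + 1) = q (s + 1) then none else q (s + 1)
    with hp
  have hps : ∀ s w, p s = some w → q (s + 1) = some w ∧ ∀ s' < s, q (s' + 1) ≠ some w := by
    intro s w h
    simp only [hp] at h
    split_ifs at h with h1
    refine ⟨h, fun s' hs' h2 => h1 ⟨s', hs', ?_⟩⟩
    rw [h2, h]
  have inv : ∀ t w, w ∈ burn G v p t → w ∈ E ∧ τ w ≤ t := by
    intro t
    induction t with
    | zero =>
      intro w hw
      simp only [burn, Set.mem_singleton_iff] at hw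
      subst hw
      exact ⟨hv, h0.le⟩
    | succ t ih =>
      intro w hw
      simp only [burn, Set.mem_union, Set.mem_ofPred_eq] at hw
      rcases hw with hw | ⟨⟨a, ha, hadj⟩, hw⟩
      · obtain ⟨h1, h2⟩ := ih w hw
        exact ⟨h1, h2.trans (Nat.le_succ t)⟩
      · obtain ⟨h1, h2⟩ := ih a ha
        have hE : w ∈ E := by
          by_contra hwE
          obtain ⟨t1, ht1, ht2, hqt⟩ := bd a h1 w hwE hadj
          have hex : ∃ s, q (s + 1) = some w := ⟨t1 - 1, by rwa [Nat.sub_add_cancel ht1]⟩
          have hfs := Nat.find_spec hex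
          have hfm : Nat.find hex ≤ t1 - 1 :=
            Nat.find_min' hex (by rwa [Nat.sub_add_cancel ht1])
          have hp1 : p (Nat.find hex) = some w := by
            simp only [hp]
            rw [if_neg]
            · exact hfs
            · rintro ⟨s', hs', h3⟩
              exact Nat.find_min hex hs' (h3.trans hfs)
          exact hw (Nat.find hex) (by omega) hp1
        exact ⟨hE, (lip a h1 w hE hadj).trans (by omega)⟩
  refine ⟨p, ?_, fun w hw t hb => hw (inv t w hb).1⟩
  intro t w h
  obtain ⟨h1, h2⟩ := hps t w h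
  refine ⟨fun hb => hq _ w h1 (inv t w hb).1, fun s hs h3 => h2 s hs (hps s w h3).1⟩

/-- A geodesic ray from the origin of the fire can be protected. -/
theorem ray [Fintype V] {G : SimpleGraph V} {v x : V} (hr : G.Reachable v x) :
    G.dist v x ≤ sn G v := by
  obtain ⟨w, hw⟩ := hr.exists_walk_length_eq_dist
  set L := G.dist v x with hL
  -- distances along a geodesic
  have hd : ∀ m ≤ L, G.dist v (w.getVert m) = m := by
    intro m hm
    apply le_antisymm
    · have := SimpleGraph.dist_le (w.take m)
      rw [SimpleGraph.Walk.take_length] at this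
      exact this.trans (min_le_left _ _)
    · have h1 := SimpleGraph.dist_le (w.drop m)
      rw [SimpleGraph.Walk.drop_length] at h1
      have h2 : G.dist v x ≤ G.dist v (w.getVert m) + G.dist (w.getVert m) x :=
        (w.take m).reachable.dist_triangle_left x
      omega
  set W : Finset V := (Finset.Icc 1 L).image w.getVert with hW
  have hcard : W.card = L := by
    rw [hW, Finset.card_image_of_injOn]
    · simp
    · intro a ha b hb hab
      simp only [Finset.coe_Icc, Set.mem_Icc] at ha hb
      rw [← hd a ha.2, ← hd b hb.2]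
      exact congrArg _ hab
  have key : CanSave G v (W : Set V) := by
    have hb := barrier (G := G) (v := v) (E := (W : Set V)ᶜ) (τ := fun a => G.dist v a)
      (q := fun t => if 1 ≤ t ∧ t ≤ L then some (w.getVert t) else none) ?_ ?_ ?_ ?_ ?_
    · rwa [compl_compl] at hb
    · simp only [Set.mem_compl_iff, Finset.mem_coe, hW, Finset.mem_image, Finset.mem_Icc, not_exists,
        not_and, and_imp]
      intro m h1 h2 h3
      have := hd m h2
      rw [h3] at this
      simp at this
      omega
    · simp
    · intro a _ b _ hab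
      by_cases hra : G.Reachable v a
      · have := hra.dist_triangle_left b
        rw [SimpleGraph.dist_eq_one_iff_adj.2 hab] at this
        exact this
      · have : ¬ G.Reachable v b := fun h => hra (h.trans hab.symm.reachable)
        rw [SimpleGraph.dist_eq_zero_of_not_reachable this]
        exact Nat.zero_le _
    · intro t b h
      split_ifs at h with h1
      simp only [Option.some.injEq] at h
      simp only [Set.mem_compl_iff, not_not, Finset.mem_coe, hW, Finset.mem_image, Finset.mem_Icc]
      exact ⟨t, h1, h⟩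
    · intro a _ b hb hab
      simp only [Set.mem_compl_iff, not_not, Finset.mem_coe, hW, Finset.mem_image,
        Finset.mem_Icc] at hb
      obtain ⟨m, ⟨h1, h2⟩, h3⟩ := hb
      refine ⟨m, h1, ?_, by rw [if_pos ⟨h1, h2⟩, h3]⟩
      have hrb : G.Reachable v b := h3 ▸ (w.take m).reachable
      have := hrb.dist_triangle_left a
      rw [SimpleGraph.dist_comm (u := b), SimpleGraph.dist_eq_one_iff_adj.2 hab, ← h3, hd m h2]
        at this
      have h4 := (hrb.trans hab.symm.reachable).dist_triangle_left b
      rw [SimpleGraph.dist_eq_one_iff_adj.2 hab, ← h3, hd m h2] at h4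
      exact h4
  have := key.card_le
  rwa [hcard] at this

/-- One vertex can always be saved. -/
theorem one_le_sn [Fintype V] {G : SimpleGraph V} (v : V) (h : 2 ≤ Fintype.card V) :
    1 ≤ sn G v := by
  obtain ⟨w, hw⟩ : ∃ w, w ≠ v := by
    by_contra hcon
    push Not at hcon
    have : Fintype.card V ≤ 1 := Fintype.card_le_one_iff.2 fun a b => by rw [hcon a, hcon b]
    omega
  have hb := barrier (G := G) (v := v) (E := ({w} : Set V)ᶜ) (τ := fun a => if a = v then 0 else 1)
      (q := fun t => if t = 1 then some w else none) ?_ ?_ ?_ ?_ ?_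
  · rw [compl_compl] at hb
    have h2 : CanSave G v (({w} : Finset V) : Set V) := by simpa using hb
    simpa using h2.card_le
  · simpa using hw.symm
  · simp
  · intro a _ b _ _
    split_ifs <;> omega
  · intro t b h
    split_ifs at h with h1
    simp only [Option.some.injEq] at h
    simp [h]
  · intro a _ b hb _
    refine ⟨1, le_refl _, by omega, ?_⟩
    simp only [Set.mem_compl_iff, Set.mem_singleton_iff, not_not] at hb
    simp [hb]

end Pool.Agent.H41.Fire
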