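import Pool.Agent.H41.Fire.Forest

/-! Ancestors in a spanning forest. -/

namespace Pool.Agent.H41.Fire

open Classical

universe u

variable {V : Type u} {G : SimpleGraph V}

namespace Forest

variable (F : Forest G)

/-- the ancestor of `x` at level `m` -/
def anc (x : V) (m : ℕ) : V := F.par^[F.lev x - m] x

theorem lev_iter (k : ℕ) : ∀ x, k ≤ F.lev x → F.lev (F.par^[k] x) = F.lev x - k := by
  induction k with
  | zero => intro x _; simp
  | succ k ih =>
    intro x hx
    rw [Function.iterate_succ_apply]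
    have h0 : F.lev x ≠ 0 := by omega
    have h1 := F.lev_par x h0
    rw [ih (F.par x) (by omega)]
    omega

theorem lev_anc {x : V} {m : ℕ} (h : m ≤ F.lev x) : F.lev (F.anc x m) = m := by
  rw [anc, F.lev_iter _ x (Nat.sub_le _ _)]
  omega

theorem anc_self (x : V) : F.anc x (F.lev x) = x := by simp [anc]

theorem par_anc {x : V} {m : ℕ} (h : m < F.lev x) : F.par (F.anc x (m + 1)) = F.anc x m := by
  rw [anc, anc, ← Function.iterate_succ_apply' F.par]
  congr 1
  omega

theorem anc_par {x : V} {m : ℕ} (h : m < F.lev x) : F.anc (F.par x) m = F.anc x m := by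
  have h0 : F.lev x ≠ 0 := by omega
  have h1 := F.lev_par x h0
  rw [anc, anc, ← Function.iterate_succ_apply F.par]
  congr 1
  omega

theorem anc_anc {x : V} {m k : ℕ} (h : m ≤ k) (hk : k ≤ F.lev x) :
    F.anc (F.anc x k) m = F.anc x m := by
  rw [anc, F.lev_anc hk, anc, anc, ← Function.iterate_add_apply]
  congr 1
  omega

theorem adj_anc {x : V} {m : ℕ} (h : m < F.lev x) : G.Adj (F.anc x m) (F.anc x (m + 1)) := by
  have h1 : F.lev (F.anc x (m + 1)) = m + 1 := F.lev_anc h
  have h2 := F.adj_par (F.anc x (m + 1)) (by omega)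
  rw [F.par_anc h] at h2
  exact h2.symm

theorem reachable_iter (k : ℕ) : ∀ x, k ≤ F.lev x → G.Reachable x (F.par^[k] x) := by
  induction k with
  | zero => intro x _; exact SimpleGraph.Reachable.refl _
  | succ k ih =>
    intro x hx
    rw [Function.iterate_succ_apply]
    have h0 : F.lev x ≠ 0 := by omega
    have h1 := F.lev_par x h0
    exact (F.adj_par x h0).reachable.trans (ih (F.par x) (by omega))

theorem reachable_anc (x : V) (m : ℕ) : G.Reachable x (F.anc x m) :=
  F.reachable_iter _ x (Nat.sub_le _ _)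

/-- `w` is in the subtree of `x`. -/
def Desc (x w : V) : Prop := F.lev x ≤ F.lev w ∧ F.anc w (F.lev x) = x

theorem desc_self (x : V) : F.Desc x x := ⟨le_refl _, F.anc_self x⟩

theorem desc_par {x w : V} (hw : F.lev w ≠ 0) (h : w ≠ x) : F.Desc x (F.par w) ↔ F.Desc x w := by
  have h1 := F.lev_par w hw
  constructor
  · rintro ⟨h2, h3⟩
    refine ⟨by omega, ?_⟩
    rw [← F.anc_par (by omega)]
    exact h3
  · rintro ⟨h2, h3⟩
    have h4 : F.lev x ≠ F.lev w := by
      intro h5
      rw [h5, F.anc_self] at h3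
      exact h h3
    refine ⟨by omega, ?_⟩
    rw [F.anc_par (by omega), h3]

theorem not_desc_par {x : V} (hx : F.lev x ≠ 0) : ¬ F.Desc x (F.par x) := by
  rintro ⟨h1, -⟩
  have := F.lev_par x hx
  omega

theorem not_desc_root {x r : V} (hr : F.lev r = 0) (h : x ≠ r) : ¬ F.Desc x r := by
  rintro ⟨h1, h2⟩
  have h3 : F.lev x = F.lev r := by omega
  rw [h3, F.anc_self] at h2
  exact h h2.symm

theorem desc_anc {x : V} {m : ℕ} (h : m ≤ F.lev x) : F.Desc (F.anc x m) x := by
  refine ⟨?_, ?_⟩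
  · rw [F.lev_anc h]; exact h
  · rw [F.lev_anc h]

theorem desc_iff {x w : V} : F.Desc x w ↔ ∃ m ≤ F.lev w, F.anc w m = x := by
  constructor
  · rintro ⟨h1, h2⟩
    exact ⟨F.lev x, h1, h2⟩
  · rintro ⟨m, h1, h2⟩
    rw [← h2]
    exact F.desc_anc h1

theorem desc_lev {x w : V} (h : F.Desc x w) : F.lev x ≤ F.lev w := h.1

theorem desc_trans {x y z : V} (h1 : F.Desc x y) (h2 : F.Desc y z) : F.Desc x z := by
  obtain ⟨h3, h4⟩ := h1
  obtain ⟨h5, h6⟩ := h2
  refine ⟨h3.trans h5, ?_⟩
  rw [← F.anc_anc h3 h5, h6, h4]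

end Forest

end Pool.Agent.H41.Fire
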