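import Pool.Agent.H41.Fire.Orb

/-! Spanning forests by distance levels, and the contour permutation. -/

namespace Pool.Agent.H41.Fire

open Classical Equiv.Perm

universe u

variable {V : Type u} {G : SimpleGraph V}

theorem exists_prev {r x : V} (h : G.Reachable r x) (h0 : G.dist r x ≠ 0) :
    ∃ p, G.Adj x p ∧ G.dist r p + 1 = G.dist r x ∧ G.Reachable r p := by
  obtain ⟨w, hw⟩ := h.symm.exists_walk_length_eq_dist
  rw [SimpleGraph.dist_comm] at hw
  cases w with
  | nil => simp at h0
  | cons hadj w' =>
    rename_i p
    refine ⟨p, hadj, ?_, h.trans hadj.reachable⟩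
    rw [SimpleGraph.Walk.length_cons] at hw
    have h1 : G.dist r p ≤ w'.length := by
      rw [SimpleGraph.dist_comm]; exact SimpleGraph.dist_le w'
    have h2 : G.dist r x ≤ G.dist r p + 1 := by
      have := (h.trans hadj.reachable).dist_triangle_left x
      rwa [SimpleGraph.dist_eq_one_iff_adj.2 hadj.symm] at this
    omega

theorem dist_le_succ {r a b : V} (h : G.Reachable r a) (hab : G.Adj a b) :
    G.dist r b ≤ G.dist r a + 1 := by
  have := h.dist_triangle_left b
  rwa [SimpleGraph.dist_eq_one_iff_adj.2 hab] at this

/-- A spanning forest given by levels and parents. -/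
structure Forest (G : SimpleGraph V) where
  lev : V → ℕ
  par : V → V
  adj_par : ∀ x, lev x ≠ 0 → G.Adj x (par x)
  lev_par : ∀ x, lev x ≠ 0 → lev (par x) + 1 = lev x
  root_unique : ∀ x y, G.Reachable x y → lev x = 0 → lev y = 0 → x = y

theorem exists_forest [Fintype V] (G : SimpleGraph V) (v : V) (pref : V → ℕ) :
    ∃ F : Forest G, (∀ x, G.Reachable v x → F.lev x = G.dist v x) ∧
      ∀ x p, F.lev x ≠ 0 → G.Adj x p → F.lev p + 1 = F.lev x → pref p ≤ pref (F.par x) := by
  let rep : V → V := fun x => if G.Reachable v x then v else (G.connectedComponentMk x).out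
  have hrep : ∀ x, G.Reachable (rep x) x := by
    intro x
    simp only [rep]
    split_ifs with h
    · exact h
    · exact SimpleGraph.ConnectedComponent.exact (Quot.out_eq (G.connectedComponentMk x))
  have hrep2 : ∀ x y, G.Reachable x y → rep x = rep y := by
    intro x y hxy
    simp only [rep]
    have h1 : G.connectedComponentMk x = G.connectedComponentMk y :=
      SimpleGraph.ConnectedComponent.sound hxy
    by_cases h : G.Reachable v x
    · rw [if_pos h, if_pos (h.trans hxy)]
    · rw [if_neg h, if_neg (fun hh => h (hh.trans hxy.symm)), h1]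
  let lev : V → ℕ := fun x => G.dist (rep x) x
  have hex : ∀ x, ∃ p, lev x ≠ 0 → (G.Adj x p ∧ lev p + 1 = lev x ∧
      ∀ p', G.Adj x p' → lev p' + 1 = lev x → pref p' ≤ pref p) := by
    intro x
    by_cases h0 : lev x = 0
    · exact ⟨x, fun h => absurd h0 h⟩
    · obtain ⟨p, hp1, hp2, -⟩ := exists_prev (hrep x) h0
      have hp3 : lev p + 1 = lev x := by
        show G.dist (rep p) p + 1 = G.dist (rep x) x
        rw [← hrep2 x p hp1.reachable]
        exact hp2
      obtain ⟨p0, hp0, hmax⟩ := Finset.exists_max_image
        (Finset.univ.filter fun p => G.Adj x p ∧ lev p + 1 = lev x) pref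
        ⟨p, by simp [hp1, hp3]⟩
      simp only [Finset.mem_filter, Finset.mem_univ, true_and] at hp0 hmax
      exact ⟨p0, fun _ => ⟨hp0.1, hp0.2, fun p' h1 h2 => hmax p' ⟨h1, h2⟩⟩⟩
  choose par hpar using hex
  refine ⟨⟨lev, par, fun x hx => (hpar x hx).1, fun x hx => (hpar x hx).2.1, ?_⟩, ?_, ?_⟩
  · intro x y hxy hx hy
    have h1 : rep x = x := (hrep x).dist_eq_zero_iff.1 hx
    have h2 : rep y = y := (hrep y).dist_eq_zero_iff.1 hy
    rw [← h1, ← h2]
    exact hrep2 x y hxy
  · intro x hx
    show G.dist (rep x) x = G.dist v x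
    simp only [rep, if_pos hx]
  · intro x p hx hxp hl
    exact (hpar x hx).2.2 p hxp hl

namespace Forest

variable (F : Forest G)

/-- `d` goes from a vertex to its parent. -/
def Up (d : G.Dart) : Prop := F.lev d.fst ≠ 0 ∧ F.par d.fst = d.snd

/-- tree darts -/
def IsTree (d : G.Dart) : Prop := F.Up d ∨ F.Up d.symm

theorem isTree_symm {d : G.Dart} : F.IsTree d.symm ↔ F.IsTree d := by
  unfold IsTree
  rw [SimpleGraph.Dart.symm_symm]
  exact or_comm

theorem up_lev {d : G.Dart} (h : F.Up d) : F.lev d.snd + 1 = F.lev d.fst := by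
  rw [← h.2]; exact F.lev_par _ h.1

/-- reverse tree darts only -/
noncomputable def flip : Equiv.Perm G.Dart :=
  Function.Involutive.toPerm (fun d => if F.IsTree d then d.symm else d) (by
    intro d
    by_cases h : F.IsTree d
    · simp only [if_pos h, if_pos (F.isTree_symm.2 h), SimpleGraph.Dart.symm_symm]
    · simp only [if_neg h])

theorem flip_of_tree {d : G.Dart} (h : F.IsTree d) : F.flip d = d.symm := by
  show (if F.IsTree d then d.symm else d) = d.symm
  rw [if_pos h]

theorem flip_of_not {d : G.Dart} (h : ¬ F.IsTree d) : F.flip d = d := by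
  show (if F.IsTree d then d.symm else d) = d
  rw [if_neg h]

/-- The contour permutation. -/
noncomputable def kap (R : Rotation G) : Equiv.Perm G.Dart := R.nxt * F.flip

theorem kap_tree (R : Rotation G) {d : G.Dart} (h : F.IsTree d) :
    F.kap R d = R.nxt d.symm := by
  rw [kap, Equiv.Perm.mul_apply, F.flip_of_tree h]

theorem kap_chord (R : Rotation G) {d : G.Dart} (h : ¬ F.IsTree d) :
    F.kap R d = R.nxt d := by
  rw [kap, Equiv.Perm.mul_apply, F.flip_of_not h]

theorem fst_kap (R : Rotation G) (d : G.Dart) :
    (F.kap R d).fst = if F.IsTree d then d.snd else d.fst := by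
  by_cases h : F.IsTree d
  · rw [if_pos h, F.kap_tree R h, R.fst_nxt]; rfl
  · rw [if_neg h, F.kap_chord R h, R.fst_nxt]

end Forest

theorem fst_nxt_pow (R : Rotation G) (k : ℕ) (d : G.Dart) : ((R.nxt ^ k) d).fst = d.fst := by
  induction k with
  | zero => rfl
  | succ k ih => rw [pow_succ', Equiv.Perm.mul_apply, R.fst_nxt, ih]

namespace Forest

variable (F : Forest G)

/-- Going around the vertex `x` along the contour: if every tree dart at `x` that is not a chosen
dart is in the same cycle as its reverse, then all darts at `x` are in the same cycle. -/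
theorem around [Finite V] (R : Rotation G) (e : G.Dart)
    (he : ∀ d : G.Dart, d.fst = e.fst → (F.kap R).SameCycle e d →
      (F.kap R).SameCycle e (R.nxt d)) (d : G.Dart) (hd : d.fst = e.fst) :
    (F.kap R).SameCycle e d := by
  have : Finite G.Dart := Finite.of_injective _ SimpleGraph.Dart.toProd_injective
  have hpow : ∀ k : ℕ, (F.kap R).SameCycle e ((R.nxt ^ k) e) := by
    intro k
    induction k with
    | zero => exact SameCycle.refl _ _
    | succ k ih =>
      rw [pow_succ', Equiv.Perm.mul_apply]
      exact he _ (fst_nxt_pow R k e) ih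
  obtain ⟨k, hk⟩ := (R.sameCycle e d hd.symm).exists_nat_pow_eq
  rw [← hk]
  exact hpow k

theorem down_sameCycle [Fintype V] (R : Rotation G) : ∀ (n : ℕ) (d : G.Dart), F.Up d.symm →
    (Finset.univ.sup F.lev) - F.lev d.snd ≤ n →
    ∀ d' : G.Dart, d'.fst = d.snd → (F.kap R).SameCycle d d' := by
  intro n
  induction n using Nat.strong_induction_on with
  | _ n ih =>
  intro d hd hn
  set w := d.snd with hw
  have htree : F.IsTree d := Or.inr hd
  set e := F.kap R d with he
  have hde : (F.kap R).SameCycle d e := sameCycle_apply_right.2 (SameCycle.refl _ _)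
  have hefst : e.fst = w := by rw [he, F.fst_kap, if_pos htree]
  have hlevw : F.lev d.fst + 1 = F.lev w := by
    have := F.up_lev hd
    exact this
  have hstep : ∀ x : G.Dart, x.fst = e.fst → (F.kap R).SameCycle e x →
      (F.kap R).SameCycle e (R.nxt x) := by
    intro x hx hex
    rw [hefst] at hx
    by_cases hT : F.IsTree x
    · by_cases hU : F.Up x
      · -- x is the up dart at w
        have hxs : x = d.symm := by
          apply SimpleGraph.Dart.ext
          apply Prod.ext
          · exact hx
          · have h1 : F.par w = x.snd := by rw [← hx]; exact hU.2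
            have h2 : F.par w = d.fst := hd.2
            exact h1.symm.trans h2
        have : R.nxt x = e := by rw [hxs, he, F.kap_tree R htree]
        rw [this]
      · have hD : F.Up x.symm := by
          rcases hT with h | h
          · exact absurd h hU
          · exact h
        have h1 : F.lev w + 1 = F.lev x.snd := by
          have := F.up_lev hD
          rw [← hx]
          exact this
        have h2 : F.lev x.snd ≤ Finset.univ.sup F.lev := Finset.le_sup (Finset.mem_univ _)
        have h3 := ih (n - 1) (by omega) x hD (by omega) x.symm rfl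
        have h4 : F.kap R x.symm = R.nxt x := by
          rw [F.kap_tree R (F.isTree_symm.2 hT), SimpleGraph.Dart.symm_symm]
        rw [← h4]
        exact sameCycle_apply_right.2 (hex.trans h3)
    · rw [← F.kap_chord R hT]
      exact sameCycle_apply_right.2 hex
  intro d' hd'
  exact hde.trans (F.around R e hstep d' (hd'.trans hefst.symm))

theorem down_sameCycle' [Fintype V] (R : Rotation G) {d : G.Dart} (hd : F.Up d.symm)
    {d' : G.Dart} (hd' : d'.fst = d.snd) : (F.kap R).SameCycle d d' :=
  F.down_sameCycle R _ d hd (le_refl _) d' hd'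

theorem tree_sameCycle [Fintype V] (R : Rotation G) {d : G.Dart} (hd : F.IsTree d) :
    (F.kap R).SameCycle d d.symm := by
  rcases hd with h | h
  · have h1 := F.down_sameCycle' R (d := d.symm) (by rwa [SimpleGraph.Dart.symm_symm]) (d' := d) rfl
    exact h1.symm
  · exact F.down_sameCycle' R h rfl

/-- All darts at a vertex are in the same cycle of the contour. -/
theorem vertex_sameCycle [Fintype V] (R : Rotation G) {d e : G.Dart} (h : d.fst = e.fst) :
    (F.kap R).SameCycle d e := by
  refine (F.around R e ?_ d h).symm
  intro x _ hex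
  by_cases hT : F.IsTree x
  · have h4 : F.kap R x.symm = R.nxt x := by
      rw [F.kap_tree R (F.isTree_symm.2 hT), SimpleGraph.Dart.symm_symm]
    rw [← h4]
    exact sameCycle_apply_right.2 (hex.trans (F.tree_sameCycle R hT))
  · rw [← F.kap_chord R hT]
    exact sameCycle_apply_right.2 hex

theorem exists_root [Fintype V] (R : Rotation G) : ∀ (n : ℕ) (d : G.Dart), F.lev d.fst = n →
    ∃ e : G.Dart, F.lev e.fst = 0 ∧ G.Reachable d.fst e.fst ∧ (F.kap R).SameCycle d e := by
  intro n
  induction n with
  | zero => intro d hd; exact ⟨d, hd, SimpleGraph.Reachable.refl _, SameCycle.refl _ _⟩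
  | succ n ih =>
    intro d hd
    have h0 : F.lev d.fst ≠ 0 := by omega
    set x : G.Dart := ⟨(d.fst, F.par d.fst), F.adj_par _ h0⟩ with hx
    have hxU : F.Up x := ⟨h0, rfl⟩
    have h1 : (F.kap R).SameCycle d x := F.vertex_sameCycle R rfl
    have h2 : (F.kap R).SameCycle x x.symm := F.tree_sameCycle R (Or.inl hxU)
    obtain ⟨e, he1, he2, he3⟩ := ih x.symm (by
      have := F.up_lev hxU
      show F.lev x.snd = n
      have h4 : x.fst = d.fst := rfl
      rw [h4] at this
      omega)
    refine ⟨e, he1, ?_, (h1.trans h2).trans he3⟩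
    exact (F.adj_par _ h0).reachable.trans he2

theorem comp_sameCycle [Fintype V] (R : Rotation G) {d e : G.Dart}
    (h : G.Reachable d.fst e.fst) : (F.kap R).SameCycle d e := by
  obtain ⟨d', h1, h2, h3⟩ := F.exists_root R _ d rfl
  obtain ⟨e', h4, h5, h6⟩ := F.exists_root R _ e rfl
  have : d'.fst = e'.fst := F.root_unique _ _ ((h2.symm.trans h).trans h5) h1 h4
  exact (h3.trans (F.vertex_sameCycle R this)).trans h6.symm

/-- Conversely a cycle of the contour stays in a component. -/
theorem reachable_of_sameCycle [Finite V] (R : Rotation G) {d e : G.Dart}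
    (h : (F.kap R).SameCycle d e) : G.Reachable d.fst e.fst := by
  have : Finite G.Dart := Finite.of_injective _ SimpleGraph.Dart.toProd_injective
  have hstep : ∀ x : G.Dart, G.Reachable x.fst (F.kap R x).fst := by
    intro x
    rw [F.fst_kap]
    split_ifs
    · exact x.adj.reachable
    · exact SimpleGraph.Reachable.refl _
  have hpow : ∀ (k : ℕ), G.Reachable d.fst (((F.kap R) ^ k) d).fst := by
    intro k
    induction k with
    | zero => exact SimpleGraph.Reachable.refl _
    | succ k ih =>
      rw [pow_succ', Equiv.Perm.mul_apply]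
      exact ih.trans (hstep _)
  obtain ⟨k, hk⟩ := h.exists_nat_pow_eq
  rw [← hk]
  exact hpow k

end Forest

end Pool.Agent.H41.Fire
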