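import Pool.Agent.H41.Fire.Strategy
import Pool.Agent.H41.Fire.Forest

/-! Configurations: two geodesics and a region, and the strategies that save the region. -/

namespace Pool.Agent.H41.Fire

open Classical

set_option linter.unusedSectionVars false

universe u

variable {V : Type u} {G : SimpleGraph V}

/-- path darts -/
def PE (k : ℕ) (X Y : ℕ → V) (L M : ℕ) (d : G.Dart) : Prop :=
  (∃ m, k ≤ m ∧ m < L ∧ ((d.fst = X m ∧ d.snd = X (m + 1)) ∨ (d.snd = X m ∧ d.fst = X (m + 1)))) ∨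
  (∃ m, k ≤ m ∧ m < M ∧ ((d.fst = Y m ∧ d.snd = Y (m + 1)) ∨ (d.snd = Y m ∧ d.fst = Y (m + 1))))

theorem PE_symm {k : ℕ} {X Y : ℕ → V} {L M : ℕ} {d : G.Dart} :
    PE k X Y L M d.symm ↔ PE k X Y L M d := by
  have h : ∀ (Z : ℕ → V) (K : ℕ),
      (∃ m, k ≤ m ∧ m < K ∧ ((d.symm.fst = Z m ∧ d.symm.snd = Z (m + 1)) ∨
        (d.symm.snd = Z m ∧ d.symm.fst = Z (m + 1)))) ↔
      (∃ m, k ≤ m ∧ m < K ∧ ((d.fst = Z m ∧ d.snd = Z (m + 1)) ∨
        (d.snd = Z m ∧ d.fst = Z (m + 1)))) := by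
    intro Z K
    constructor
    · rintro ⟨m, h1, h2, h3⟩
      exact ⟨m, h1, h2, h3.symm⟩
    · rintro ⟨m, h1, h2, h3⟩
      exact ⟨m, h1, h2, h3.symm⟩
  unfold PE
  rw [h X L, h Y M]

theorem PE_comm {k : ℕ} {X Y : ℕ → V} {L M : ℕ} {d : G.Dart} :
    PE k X Y L M d ↔ PE k Y X M L d := or_comm

/-- Two geodesics from level `k` on and a region `R` (a set of darts) bounded by them. -/
structure Cfg (G : SimpleGraph V) (v : V) (k : ℕ) (X Y : ℕ → V) (L M : ℕ) (R : G.Dart → Prop) :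
    Prop where
  XY : X k = Y k
  kL : k ≤ L
  kM : k ≤ M
  adjX : ∀ m, k ≤ m → m < L → G.Adj (X m) (X (m + 1))
  adjY : ∀ m, k ≤ m → m < M → G.Adj (Y m) (Y (m + 1))
  distX : ∀ m, k ≤ m → m ≤ L → G.dist v (X m) = m
  distY : ∀ m, k ≤ m → m ≤ M → G.dist v (Y m) = m
  reachX : ∀ m, k ≤ m → m ≤ L → G.Reachable v (X m)
  reachY : ∀ m, k ≤ m → m ≤ M → G.Reachable v (Y m)
  disj : ∀ m, k < m → m ≤ L → m ≤ M → X m ≠ Y m
  h1 : ∀ d : G.Dart, G.Reachable v d.fst → ¬ PE k X Y L M d → R d → R d.symm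
  h2 : ∀ w, G.Reachable v w → (∀ m, k ≤ m → m ≤ L → w ≠ X m) → (∀ m, k ≤ m → m ≤ M → w ≠ Y m) →
    ∀ d d' : G.Dart, d.fst = w → d'.fst = w → R d → R d'

namespace Cfg

variable {v : V} {k : ℕ} {X Y : ℕ → V} {L M : ℕ} {R : G.Dart → Prop}

theorem swap (H : Cfg G v k X Y L M R) : Cfg G v k Y X M L R where
  XY := H.XY.symm
  kL := H.kM
  kM := H.kL
  adjX := H.adjY
  adjY := H.adjX
  distX := H.distY
  distY := H.distX
  reachX := H.reachY
  reachY := H.reachX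
  disj := fun m h1 h2 h3 => (H.disj m h1 h3 h2).symm
  h1 := fun d h1 h2 => H.h1 d h1 (fun h => h2 (PE_comm.1 h))
  h2 := fun w hw h1 h2 => H.h2 w hw h2 h1

theorem compl (H : Cfg G v k X Y L M R) : Cfg G v k X Y L M (fun d => ¬ R d) where
  XY := H.XY
  kL := H.kL
  kM := H.kM
  adjX := H.adjX
  adjY := H.adjY
  distX := H.distX
  distY := H.distY
  reachX := H.reachX
  reachY := H.reachY
  disj := H.disj
  h1 := fun d h1 h2 h3 h4 => h3 (by
    have := H.h1 d.symm (h1.trans d.adj.reachable) (fun h => h2 (PE_symm.1 h)) h4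
    rwa [SimpleGraph.Dart.symm_symm] at this)
  h2 := fun w hw h1 h2 d d' hd hd' h3 h4 => h3 (H.h2 w hw h1 h2 d' d hd' hd h4)

theorem injX (H : Cfg G v k X Y L M R) {m m' : ℕ} (h1 : k ≤ m) (h2 : m ≤ L) (h3 : k ≤ m')
    (h4 : m' ≤ L) (h : X m = X m') : m = m' := by
  rw [← H.distX m h1 h2, h, H.distX m' h3 h4]

theorem injXY (H : Cfg G v k X Y L M R) {m m' : ℕ} (h1 : k ≤ m) (h2 : m ≤ L) (h3 : k ≤ m')
    (h4 : m' ≤ M) (h : X m = Y m') : m = k ∧ m' = k := by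
  have h5 : m = m' := by rw [← H.distX m h1 h2, h, H.distY m' h3 h4]
  subst h5
  have : m = k := by
    by_contra hne
    exact H.disj m (by omega) h2 h4 h
  exact ⟨this, this⟩

end Cfg

/-- maximum degree at most three, in terms of darts -/
def Sub3 (G : SimpleGraph V) : Prop := ∀ d1 d2 d3 d4 : G.Dart, d1.fst = d4.fst → d2.fst = d4.fst →
  d3.fst = d4.fst → d1 ≠ d2 → d1 ≠ d3 → d1 ≠ d4 → d2 ≠ d3 → d2 ≠ d4 → d3 = d4

namespace Cfg

variable {v : V} {k : ℕ} {X Y : ℕ → V} {L M : ℕ} {R : G.Dart → Prop}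

theorem D1 (H : Cfg G v k X Y L M R) (h3 : Sub3 G) {m : ℕ} (h1 : k < m) (h2 : m < L)
    {d d' : G.Dart} (hd : d.fst = X m) (hd' : d'.fst = X m) (hp : ¬ PE k X Y L M d)
    (hp' : ¬ PE k X Y L M d') : d = d' := by
  obtain ⟨m, rfl⟩ : ∃ m', m = m' + 1 := ⟨m - 1, by omega⟩
  set a : G.Dart := ⟨(X (m + 1), X m), (H.adjX m (by omega) (by omega)).symm⟩ with ha
  set c : G.Dart := ⟨(X (m + 1), X (m + 1 + 1)), H.adjX (m + 1) (by omega) (by omega)⟩ with hc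
  have hpa : PE k X Y L M a := Or.inl ⟨m, by omega, by omega, Or.inr ⟨rfl, rfl⟩⟩
  have hpc : PE k X Y L M c := Or.inl ⟨m + 1, by omega, by omega, Or.inl ⟨rfl, rfl⟩⟩
  apply h3 a c d d'
  · rw [hd']
  · rw [hd']
  · rw [hd, hd']
  · intro h
    have h4 : X m = X (m + 1 + 1) := congrArg (fun d : G.Dart => d.snd) h
    have := H.injX (by omega) (by omega) (by omega) (by omega) h4
    omega
  · intro h; exact hp (h ▸ hpa)
  · intro h; exact hp' (h ▸ hpa)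
  · intro h; exact hp (h ▸ hpc)
  · intro h; exact hp' (h ▸ hpc)

theorem D2 (H : Cfg G v k X Y L M R) (h3 : Sub3 G) (h1 : k < L)
    {d d' d'' : G.Dart} (hd : d.fst = X L) (hd' : d'.fst = X L) (hd'' : d''.fst = X L)
    (hp : ¬ PE k X Y L M d) (hp' : ¬ PE k X Y L M d') (hp'' : ¬ PE k X Y L M d'')
    (hne : d ≠ d') (hne' : d ≠ d'') : d' = d'' := by
  obtain ⟨m, rfl⟩ : ∃ m', L = m' + 1 := ⟨L - 1, by omega⟩
  set a : G.Dart := ⟨(X (m + 1), X m), (H.adjX m (by omega) (by omega)).symm⟩ with ha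
  have hpa : PE k X Y (m + 1) M a := Or.inl ⟨m, by omega, by omega, Or.inr ⟨rfl, rfl⟩⟩
  apply h3 a d d' d''
  · rw [hd'']
  · rw [hd, hd'']
  · rw [hd', hd'']
  · intro h; exact hp (h ▸ hpa)
  · intro h; exact hp' (h ▸ hpa)
  · intro h; exact hp'' (h ▸ hpa)
  · exact hne
  · exact hne'

/-- the vertices certainly saved -/
def Good (G : SimpleGraph V) (v : V) (k : ℕ) (X Y : ℕ → V) (L M : ℕ) (R : G.Dart → Prop) :
    Set V :=
  {w | ¬ G.Reachable v w ∨ ((∀ m, k ≤ m → m ≤ L → w ≠ X m) ∧ (∀ m, k ≤ m → m ≤ M → w ≠ Y m) ∧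
    ∃ d : G.Dart, d.fst = w ∧ R d)}

/-- the set that may burn -/
def Ex (G : SimpleGraph V) (v : V) (k : ℕ) (X Y : ℕ → V) (L M : ℕ) (R : G.Dart → Prop)
    (S F : Set V) : Set V :=
  {w | G.Reachable v w ∧ w ∉ S ∧ (w ∈ F ∨ ∃ d : G.Dart, d.fst = w ∧ ¬ PE k X Y L M d ∧ ¬ R d)}

theorem gen (H : Cfg G v k X Y L M R) (S F : Set V) (q : ℕ → Option V) (τ : V → ℕ)
    (hvS : v ∉ S) (hvF : v ∈ F ∨ ∃ d : G.Dart, d.fst = v ∧ ¬ PE k X Y L M d ∧ ¬ R d)
    (hF : ∀ w ∈ F, (∃ m, k ≤ m ∧ m ≤ L ∧ w = X m) ∨ (∃ m, k ≤ m ∧ m ≤ M ∧ w = Y m))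
    (h0 : τ v = 0)
    (lip : ∀ a ∈ Ex G v k X Y L M R S F, ∀ b ∈ Ex G v k X Y L M R S F, G.Adj a b → τ b ≤ τ a + 1)
    (hq : ∀ t w, q t = some w → w ∉ Ex G v k X Y L M R S F)
    (hs : ∀ a ∈ Ex G v k X Y L M R S F, ∀ b ∈ S, G.Adj a b →
      ∃ t, 1 ≤ t ∧ t ≤ τ a + 1 ∧ q t = some b)
    (hp : ∀ d : G.Dart, PE k X Y L M d → d.fst ∈ Ex G v k X Y L M R S F →
      d.snd ∉ Ex G v k X Y L M R S F → d.snd ∈ S)
    (hi : ∀ d : G.Dart, d.fst ∈ Ex G v k X Y L M R S F → ¬ PE k X Y L M d → R d →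
      d.snd ∉ Ex G v k X Y L M R S F → d.snd ∉ S →
      ((∃ m, k ≤ m ∧ m ≤ L ∧ d.fst = X m) ∨ (∃ m, k ≤ m ∧ m ≤ M ∧ d.fst = Y m)) →
      ∃ t, 1 ≤ t ∧ t ≤ τ d.fst + 1 ∧ q t = some d.snd) :
    CanSave G v (Good G v k X Y L M R) := by
  have hvE : v ∈ Ex G v k X Y L M R S F := ⟨SimpleGraph.Reachable.refl _, hvS, hvF⟩
  refine (barrier hvE h0 lip hq ?_).mono ?_
  · intro a ha b hb hab
    by_cases hbS : b ∈ S
    · exact hs a ha b hbS hab
    · set d : G.Dart := ⟨(a, b), hab⟩ with hd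
      by_cases hP : PE k X Y L M d
      · exact absurd (hp d hP ha hb) hbS
      · by_cases hR : R d
        · apply hi d ha hP hR hb hbS
          by_contra hcon
          rw [not_or] at hcon
          obtain ⟨hc1, hc2⟩ := hcon
          obtain ⟨ha1, ha2, ha3⟩ := ha
          rcases ha3 with ha3 | ⟨d', hd'1, hd'2, hd'3⟩
          · rcases hF a ha3 with h | h
            · exact hc1 h
            · exact hc2 h
          · exact hd'3 (H.h2 a ha1 (fun m h1 h2 h3 => hc1 ⟨m, h1, h2, h3⟩)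
              (fun m h1 h2 h3 => hc2 ⟨m, h1, h2, h3⟩) d d' rfl hd'1 hR)
        · exfalso
          apply hb
          refine ⟨ha.1.trans hab.reachable, hbS, Or.inr ⟨d.symm, rfl, fun h => hP (PE_symm.1 h), ?_⟩⟩
          intro h
          have := H.h1 d.symm (ha.1.trans hab.reachable) (fun h => hP (PE_symm.1 h)) h
          rw [SimpleGraph.Dart.symm_symm] at this
          exact hR this
  · intro w hw hwE
    obtain ⟨hw1, hw2, hw3⟩ := hwE
    rcases hw with hw | ⟨hX, hY, d, hd, hR⟩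
    · exact hw hw1
    · rcases hw3 with hw3 | ⟨d', hd'1, hd'2, hd'3⟩
      · rcases hF w hw3 with ⟨m, h1, h2, h3⟩ | ⟨m, h1, h2, h3⟩
        · exact hX m h1 h2 h3
        · exact hY m h1 h2 h3
      · exact hd'3 (H.h2 w hw1 hX hY d d' hd hd'1 hR)

/-- the vertex to be protected behind the end `x` of a path -/
noncomputable def exn (k : ℕ) (X Y : ℕ → V) (L M : ℕ) (R : G.Dart → Prop) (E S : Set V) (x : V) :
    Option V :=
  if h : ∃ d : G.Dart, d.fst = x ∧ d.snd ∉ E ∧ d.snd ∉ S ∧ ¬ PE k X Y L M d ∧ R d then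
    some h.choose.snd else none

theorem exn_not {E S : Set V} {x w : V} (h : exn k X Y L M R E S x = some w) : w ∉ E := by
  unfold exn at h
  split_ifs at h with h1
  simp only [Option.some.injEq] at h
  rw [← h]
  exact h1.choose_spec.2.1

theorem exn_eq {E S : Set V} {x : V} {d : G.Dart} (hd : d.fst = x) (h1 : d.snd ∉ E)
    (h2 : d.snd ∉ S) (h3 : ¬ PE k X Y L M d) (h4 : R d)
    (huniq : ∀ d' : G.Dart, d'.fst = x → d'.snd ∉ E → d'.snd ∉ S → ¬ PE k X Y L M d' → R d' →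
      d' = d) :
    exn k X Y L M R E S x = some d.snd := by
  have hex : ∃ d : G.Dart, d.fst = x ∧ d.snd ∉ E ∧ d.snd ∉ S ∧ ¬ PE k X Y L M d ∧ R d :=
    ⟨d, hd, h1, h2, h3, h4⟩
  unfold exn
  rw [dif_pos hex]
  obtain ⟨g1, g2, g3, g4, g5⟩ := hex.choose_spec
  rw [huniq _ g1 g2 g3 g4 g5]

end Cfg

end Pool.Agent.H41.Fire
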