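import Pool.Agent.H41.Fire.Root

/-! Order of the root darts; the two ends of a configuration in which everything else fails. -/

namespace Pool.Agent.H41.Fire

open Classical Equiv.Perm

set_option linter.unusedSectionVars false

universe u

variable {V : Type u} [Fintype V] {G : SimpleGraph V}

namespace Ctx

variable (C : Ctx G)

theorem nxt_fst : (C.R.nxt C.d0).fst = C.v := C.R.fst_nxt _

theorem nxt_nxt_fst : (C.R.nxt (C.R.nxt C.d0)).fst = C.v := by
  rw [C.R.fst_nxt]; exact C.nxt_fst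

theorem idx_d0 : C.idx C.d0 = 0 := by
  have := C.idx_D C.N_pos
  rwa [C.D_zero] at this

theorem nbr_cases (h3 : Sub3 G) {g : V} (hg : G.Adj C.v g) :
    g = C.d0.snd ∨ g = (C.R.nxt C.d0).snd ∨ g = (C.R.nxt (C.R.nxt C.d0)).snd := by
  rcases root_darts C.R h3 (d0 := C.d0) (d := ⟨(C.v, g), hg⟩) rfl with h | h | h
  · left; exact congrArg (fun d : G.Dart => d.snd) h
  · right; left; exact congrArg (fun d : G.Dart => d.snd) h
  · right; right; exact congrArg (fun d : G.Dart => d.snd) h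

/-- the second root dart follows the block of the first -/
theorem idx_nxt (hne : C.R.nxt C.d0 ≠ C.d0) : C.idx (C.R.nxt C.d0) = C.e C.d0.snd + 1 := by
  set a := C.d0.snd with ha
  have hadj : G.Adj C.v a := C.d0.adj
  have h0 : C.F.lev a ≠ 0 := by rw [C.lev_nbr hadj]; omega
  have hI := C.in_nbr hadj
  have h1 : (C.up a).symm = C.d0 := by
    apply SimpleGraph.Dart.ext
    apply Prod.ext
    · show (C.up a).snd = C.v
      rw [C.up_snd h0, C.par_nbr hadj]
    · show (C.up a).fst = a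
      exact C.up_fst h0
  have h2 : C.D (C.e a + 1) = C.R.nxt C.d0 := by
    rw [C.D_succ, C.D_e hI h0, κ, C.F.kap_tree C.R (Or.inl (C.up_up h0)), h1]
  have h3 : C.e a + 1 < C.N := by
    have h4 := C.e_lt hI h0
    rcases Nat.lt_or_ge (C.e a + 1) C.N with h | h
    · exact h
    · exfalso
      have h5 : C.e a + 1 = C.N := by omega
      rw [h5, C.D_N] at h2
      exact hne h2.symm
  rw [← h2]
  exact C.idx_D h3

theorem not_desc_nbr_v {g : V} (hg : G.Adj C.v g) : ¬ C.F.Desc g C.v :=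
  C.not_desc_v (by rw [C.lev_nbr hg]; omega)

/-- The root darts are in the order of the contour. -/
theorem order (hab : C.R.nxt C.d0 ≠ C.d0) (hac : C.R.nxt (C.R.nxt C.d0) ≠ C.d0)
    (hbc : C.R.nxt (C.R.nxt C.d0) ≠ C.R.nxt C.d0) :
    C.idx (C.R.nxt C.d0) < C.idx (C.R.nxt (C.R.nxt C.d0)) := by
  set n1 := C.R.nxt C.d0 with hn1
  set n2 := C.R.nxt (C.R.nxt C.d0) with hn2
  have hI1 : C.In n1.fst := by rw [hn1, C.nxt_fst]; exact C.in_v
  have hI2 : C.In n2.fst := by rw [hn2, C.nxt_nxt_fst]; exact C.in_v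
  have h0 : C.idx n2 ≠ 0 := by
    intro h
    exact hac (C.idx_inj hI2 C.in_v (h.trans C.idx_d0.symm))
  have h1 : C.idx n2 ≠ C.idx n1 := fun h => hbc (C.idx_inj hI2 hI1 h)
  have h2 := C.idx_nxt hab
  have hadj : G.Adj C.v C.d0.snd := C.d0.adj
  have h3 := C.block (C.in_nbr hadj) (x := C.d0.snd) (by rw [C.lev_nbr hadj]; omega)
    (C.idx_lt hI2)
  rw [C.D_idx hI2, C.nxt_nxt_fst, C.b_nbr (d := C.d0) rfl, C.idx_d0] at h3
  have h4 := C.not_desc_nbr_v hadj
  rw [h3] at h4
  rw [← hn1] at h2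
  omega

/-- Classification of the last case. -/
theorem classify (h3 : Sub3 G) (hP : C.Pref C.d0.snd (C.R.nxt C.d0).snd
    (C.R.nxt (C.R.nxt C.d0)).snd) {i j : ℕ} (hij : i < j) (hjN : j < C.N)
    (hx1 : 1 ≤ C.F.lev (C.D i).fst) (hy1 : 1 ≤ C.F.lev (C.D j).fst)
    (hne : C.F.anc (C.D i).fst 1 ≠ C.F.anc (C.D j).fst 1)
    (hdc : ∃ z, G.Adj C.v z ∧ z ≠ C.F.anc (C.D i).fst 1 ∧ z ≠ C.F.anc (C.D j).fst 1)
    (hX : ∃ g, G.Adj C.v g ∧ g ≠ C.F.anc (C.D i).fst 1 ∧ Sm G C.v g (C.D i).fst)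
    (hY : ∃ g, G.Adj C.v g ∧ g ≠ C.F.anc (C.D j).fst 1 ∧ Sm G C.v g (C.D j).fst) :
    C.F.anc (C.D i).fst 1 = (C.R.nxt C.d0).snd ∧
      C.F.anc (C.D j).fst 1 = (C.R.nxt (C.R.nxt C.d0)).snd ∧
      C.d0.snd ≠ (C.R.nxt C.d0).snd ∧ C.d0.snd ≠ (C.R.nxt (C.R.nxt C.d0)).snd ∧
      (C.R.nxt C.d0).snd ≠ (C.R.nxt (C.R.nxt C.d0)).snd := by
  set a := C.d0.snd with ha
  set b := (C.R.nxt C.d0).snd with hb
  set c := (C.R.nxt (C.R.nxt C.d0)).snd with hc
  set x := (C.D i).fst with hx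
  set y := (C.D j).fst with hy
  have haA : G.Adj C.v a := C.adj_of_fst rfl
  have hbA : G.Adj C.v b := C.adj_of_fst C.nxt_fst
  have hcA : G.Adj C.v c := C.adj_of_fst C.nxt_nxt_fst
  have hxI : C.In x := C.in_D i
  have hyI : C.In y := C.in_D j
  have hxA := C.adj_anc_one hxI hx1
  have hyA := C.adj_anc_one hyI hy1
  obtain ⟨z, hzA, hz1, hz2⟩ := hdc
  have hxc := C.nbr_cases h3 hxA
  have hyc := C.nbr_cases h3 hyA
  have hzc := C.nbr_cases h3 hzA
  rw [← ha, ← hb, ← hc] at hxc hyc hzc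
  have hab : a ≠ b := by
    intro h
    rcases hxc with h1 | h1 | h1 <;> rcases hyc with h2 | h2 | h2 <;>
      rcases hzc with h4 | h4 | h4 <;> simp_all
  have hac : a ≠ c := by
    intro h
    rcases hxc with h1 | h1 | h1 <;> rcases hyc with h2 | h2 | h2 <;>
      rcases hzc with h4 | h4 | h4 <;> simp_all
  have hbc : b ≠ c := by
    intro h
    rcases hxc with h1 | h1 | h1 <;> rcases hyc with h2 | h2 | h2 <;>
      rcases hzc with h4 | h4 | h4 <;> simp_all
  have himp : ∀ w, C.In w → 1 ≤ C.F.lev w → (∃ g, G.Adj C.v g ∧ g ≠ C.F.anc w 1 ∧ Sm G C.v g w) →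
      C.F.anc w 1 ≠ a := by
    rintro w hwI hw1 ⟨g, hgA, hg1, hg2⟩ hwa
    by_cases hcw : Sm G C.v c w
    · have := C.pref_c hP hcA (C.F.lev w - 1) w hwI (by omega) hcw
      exact hac (hwa.symm.trans this)
    · by_cases hbw : Sm G C.v b w
      · have := C.pref_b hP hbA hcA (C.F.lev w - 1) w hwI (by omega) hbw hcw
        exact hab (hwa.symm.trans this)
      · have := C.nbr_cases h3 hgA
        rw [← ha, ← hb, ← hc] at this
        rcases this with h | h | h
        · exact hg1 (h.trans hwa.symm)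
        · exact hbw (h ▸ hg2)
        · exact hcw (h ▸ hg2)
  have hxa := himp x hxI hx1 hX
  have hya := himp y hyI hy1 hY
  refine ⟨?_, ?_, hab, hac, hbc⟩
  all_goals
    rcases hxc with h1 | h1 | h1
    · exact absurd h1 hxa
    · rcases hyc with h2 | h2 | h2
      · exact absurd h2 hya
      · exact absurd (h1.trans h2.symm) hne
      · first | exact h1 | exact h2
    · exfalso
      rcases hyc with h2 | h2 | h2
      · exact hya h2
      · -- x below c, y below b
        have hlb : C.F.lev b ≠ 0 := by rw [C.lev_nbr hbA]; omega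
        have hlc : C.F.lev c ≠ 0 := by rw [C.lev_nbr hcA]; omega
        have hdx : C.F.Desc c x := by
          rw [← h1]; exact C.F.desc_anc hx1
        have hdy : C.F.Desc b y := by
          rw [← h2]; exact C.F.desc_anc hy1
        have hbx := (C.block (C.in_nbr hcA) hlc (k := i) (by omega)).1 hdx
        have hby := (C.block (C.in_nbr hbA) hlb (k := j) hjN).1 hdy
        rw [C.b_nbr C.nxt_nxt_fst] at hbx
        rw [C.b_nbr C.nxt_fst] at hby
        have hord := C.order (fun h => hab (by rw [ha, hb, h]))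
          (fun h => hac (by rw [ha, hc, h])) (fun h => hbc (by rw [hb, hc, h]))
        have hI2 : C.In (C.R.nxt (C.R.nxt C.d0)).fst := by rw [C.nxt_nxt_fst]; exact C.in_v
        have h5 := (C.block (C.in_nbr hbA) hlb (C.idx_lt hI2)).2 (by
          rw [C.b_nbr C.nxt_fst]
          omega)
        rw [C.D_idx hI2, C.nxt_nxt_fst] at h5
        exact C.not_desc_nbr_v hbA h5
      · exact hne (h1.trans h2.symm)

end Ctx

end Pool.Agent.H41.Fire
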