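import Pool.Agent.H41.Fire.Forest

/-! Euler's formula forces the chords of the contour to be noncrossing. -/

namespace Pool.Agent.H41.Fire

open Classical Equiv.Perm

universe u

variable {V : Type u} {G : SimpleGraph V}

/-- product of the transpositions of a list of darts with their reverses -/
noncomputable def prodSwap (L : List G.Dart) : Equiv.Perm G.Dart :=
  (L.map fun d => Equiv.swap d d.symm).prod

theorem prodSwap_cons (d : G.Dart) (L : List G.Dart) :
    prodSwap (d :: L) = Equiv.swap d d.symm * prodSwap L := by
  simp [prodSwap]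

theorem cycles_mul_prodSwap [Finite V] (L : List G.Dart) : ∀ f : Equiv.Perm G.Dart,
    cycles (f * prodSwap L) ≤ cycles f + L.length := by
  have : Finite G.Dart := Finite.of_injective _ SimpleGraph.Dart.toProd_injective
  induction L with
  | nil => intro f; simp [prodSwap]
  | cons d L ih =>
    intro f
    rw [prodSwap_cons, ← mul_assoc, List.length_cons]
    have h1 := ih (f * Equiv.swap d d.symm)
    have h2 := cycles_mul_swap_le f d d.symm
    omega

theorem prodSwap_apply (L : List G.Dart) (hL : (L.map SimpleGraph.Dart.edge).Nodup) (x : G.Dart) :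
    prodSwap L x = if x.edge ∈ L.map SimpleGraph.Dart.edge then x.symm else x := by
  induction L with
  | nil => simp [prodSwap]
  | cons d L ih =>
    rw [List.map_cons, List.nodup_cons] at hL
    rw [prodSwap_cons, Equiv.Perm.mul_apply, ih hL.2, List.map_cons]
    simp only [List.mem_cons]
    by_cases h1 : x.edge ∈ L.map SimpleGraph.Dart.edge
    · have h2 : x.edge ≠ d.edge := fun h => hL.1 (h ▸ h1)
      have h3 : x.symm ≠ d := fun h => h2 (by rw [← h, SimpleGraph.Dart.edge_symm])
      have h4 : x.symm ≠ d.symm := fun h => h2 (by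
        rw [← SimpleGraph.Dart.edge_symm x, h, SimpleGraph.Dart.edge_symm])
      rw [if_pos h1, if_pos (Or.inr h1), Equiv.swap_apply_of_ne_of_ne h3 h4]
    · rw [if_neg h1]
      by_cases h2 : x.edge = d.edge
      · rw [if_pos (Or.inl h2)]
        rcases (SimpleGraph.dart_edge_eq_iff x d).1 h2 with h | h
        · rw [h, Equiv.swap_apply_left]
        · rw [h, Equiv.swap_apply_right, SimpleGraph.Dart.symm_symm]
      · have h3 : x ≠ d := fun h => h2 (by rw [h])
        have h4 : x ≠ d.symm := fun h => h2 (by rw [h, SimpleGraph.Dart.edge_symm])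
        rw [Equiv.swap_apply_of_ne_of_ne h3 h4, if_neg (not_or.2 ⟨h2, h1⟩)]

namespace Forest

variable (F : Forest G)

theorem cycles_kap_le [Fintype V] (R : Rotation G) :
    cycles (F.kap R) + Nat.card {v : V // ∀ w, ¬ G.Adj v w} ≤ Nat.card G.ConnectedComponent := by
  have hfin : Finite G.Dart := Finite.of_injective _ SimpleGraph.Dart.toProd_injective
  let Φ : Quotient (SameCycle.setoid (F.kap R)) ⊕ {v : V // ∀ w, ¬ G.Adj v w} →
      G.ConnectedComponent := fun z => match z with
    | Sum.inl Q => G.connectedComponentMk Q.out.fst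
    | Sum.inr v => G.connectedComponentMk v.1
  have hiso : ∀ (x y : V), (∀ w, ¬ G.Adj x w) → G.Reachable x y → x = y := by
    intro x y hx hxy
    obtain ⟨w⟩ := hxy
    cases w with
    | nil => rfl
    | cons h _ => exact absurd h (hx _)
  have hΦ : Function.Injective Φ := by
    rintro (Q1 | x1) (Q2 | x2) h
    · have h1 : G.Reachable Q1.out.fst Q2.out.fst := SimpleGraph.ConnectedComponent.exact h
      have h2 := F.comp_sameCycle R h1
      congr 1
      rw [← Quotient.out_eq Q1, ← Quotient.out_eq Q2]
      exact Quotient.sound h2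
    · exfalso
      have h1 : G.Reachable Q1.out.fst x2.1 := SimpleGraph.ConnectedComponent.exact h
      have h2 := hiso x2.1 _ x2.2 h1.symm
      exact x2.2 Q1.out.snd (h2 ▸ Q1.out.adj)
    · exfalso
      have h1 : G.Reachable x1.1 Q2.out.fst := SimpleGraph.ConnectedComponent.exact h
      have h2 := hiso x1.1 _ x1.2 h1
      exact x1.2 Q2.out.snd (h2 ▸ Q2.out.adj)
    · have h1 : G.Reachable x1.1 x2.1 := SimpleGraph.ConnectedComponent.exact h
      congr 1
      exact Subtype.ext (hiso x1.1 _ x1.2 h1)
  have := Nat.card_le_card_of_injective Φ hΦ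
  rwa [Nat.card_sum] at this

/-- edges of the chords -/
noncomputable def chordEdges [Fintype V] : Finset (Sym2 V) :=
  (Finset.univ.filter fun d : G.Dart => ¬ F.IsTree d).image SimpleGraph.Dart.edge

theorem card_chord_le [Fintype V] :
    F.chordEdges.card + (Finset.univ.filter fun x : V => F.lev x ≠ 0).card ≤
      Nat.card G.edgeSet := by
  have h1 : (Finset.univ.filter fun x : V => F.lev x ≠ 0).card =
      ((Finset.univ.filter fun x : V => F.lev x ≠ 0).image fun x => s(x, F.par x)).card := by
    rw [Finset.card_image_of_injOn]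
    intro x hx y hy hxy
    simp only [Finset.coe_filter, Finset.mem_univ, true_and, Set.mem_ofPred_eq] at hx hy
    simp only [Sym2.eq, Sym2.rel_iff', Prod.mk.injEq, Prod.swap_prod_mk] at hxy
    rcases hxy with ⟨h, -⟩ | ⟨h2, h3⟩
    · exact h
    · exfalso
      have h4 := F.lev_par x hx
      have h5 := F.lev_par y hy
      rw [h3] at h4
      rw [← h2] at h5
      omega
  rw [h1, ← Finset.card_union_of_disjoint]
  · rw [Nat.card_eq_fintype_card, ← SimpleGraph.edgeFinset_card]
    apply Finset.card_le_card
    intro e he
    rw [Finset.mem_union] at he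
    rcases he with he | he
    · simp only [chordEdges, Finset.mem_image, Finset.mem_filter, Finset.mem_univ, true_and] at he
      obtain ⟨d, -, rfl⟩ := he
      simp
    · simp only [Finset.mem_image, Finset.mem_filter, Finset.mem_univ, true_and] at he
      obtain ⟨x, hx, rfl⟩ := he
      simp only [SimpleGraph.mem_edgeFinset, SimpleGraph.mem_edgeSet]
      exact F.adj_par x hx
  · rw [Finset.disjoint_left]
    intro e he he'
    simp only [chordEdges, Finset.mem_image, Finset.mem_filter, Finset.mem_univ, true_and] at he he'
    obtain ⟨d, hd, rfl⟩ := he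
    obtain ⟨x, hx, hxe⟩ := he'
    apply hd
    have hxe' : d.edge = s(x, F.par x) := hxe.symm
    rcases SimpleGraph.dart_edge_eq_mk'_iff'.1 hxe' with ⟨h2, h3⟩ | ⟨h2, h3⟩
    · left
      exact ⟨by rw [h2]; exact hx, by rw [h2, h3]⟩
    · right
      exact ⟨by show F.lev d.snd ≠ 0; rw [h3]; exact hx, by show F.par d.snd = d.fst; rw [h2, h3]⟩

theorem card_root_le [Fintype V] :
    (Finset.univ.filter fun x : V => F.lev x = 0).card ≤ Nat.card G.ConnectedComponent := by
  rw [← Fintype.card_subtype, ← Nat.card_eq_fintype_card]
  apply Nat.card_le_card_of_injective (fun x : {x : V // F.lev x = 0} =>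
    G.connectedComponentMk x.1)
  intro x y h
  exact Subtype.ext (F.root_unique _ _ (SimpleGraph.ConnectedComponent.exact h) x.2 y.2)

theorem face_eq (R : Rotation G) (L : List G.Dart) (hL : (L.map SimpleGraph.Dart.edge).Nodup)
    (hT : ∀ x : G.Dart, ¬ F.IsTree x ↔ x.edge ∈ L.map SimpleGraph.Dart.edge) :
    R.face = F.kap R * prodSwap L := by
  apply Equiv.ext
  intro x
  rw [Equiv.Perm.mul_apply, prodSwap_apply L hL]
  show R.nxt x.symm = _
  by_cases h : F.IsTree x
  · rw [if_neg (fun hh => (hT x).2 hh h), F.kap_tree R h]
  · rw [if_pos ((hT x).1 h), F.kap_chord R (fun hh => h (F.isTree_symm.1 hh))]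

/-- In a planar rotation system the chords of the contour are noncrossing. -/
theorem noncross [Fintype V] (R : Rotation G)
    (hE : Nat.card V + (cycles R.face + Nat.card {v : V // ∀ w, ¬ G.Adj v w}) =
      Nat.card G.edgeSet + 2 * Nat.card G.ConnectedComponent)
    {c d : G.Dart} (hc : ¬ F.IsTree c) (hd : ¬ F.IsTree d) (hcd : d.edge ≠ c.edge) :
    (F.kap R * Equiv.swap c c.symm).SameCycle d d.symm := by
  have hfin : Finite G.Dart := Finite.of_injective _ SimpleGraph.Dart.toProd_injective
  by_contra hcon
  have h1 := cycles_mul_swap_lt hcon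
  have h2 := cycles_mul_swap_le (F.kap R) c c.symm
  set S : Finset (Sym2 V) := (F.chordEdges.erase c.edge).erase d.edge with hS
  have hpick : ∀ e : Sym2 V, ∃ x : G.Dart, e ∈ F.chordEdges → x.edge = e := by
    intro e
    by_cases he : e ∈ F.chordEdges
    · simp only [chordEdges, Finset.mem_image, Finset.mem_filter, Finset.mem_univ, true_and] at he
      obtain ⟨x, -, hx⟩ := he
      exact ⟨x, fun _ => hx⟩
    · exact ⟨c, fun h => absurd h he⟩
  choose pick hpick using hpick
  set L' : List G.Dart := S.toList.map pick with hL'
  have hSsub : ∀ e ∈ S, e ∈ F.chordEdges := fun e he =>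
    Finset.mem_of_mem_erase (Finset.mem_of_mem_erase he)
  have hLe : L'.map SimpleGraph.Dart.edge = S.toList := by
    rw [hL', List.map_map]
    conv_rhs => rw [← List.map_id S.toList]
    apply List.map_congr_left
    intro e he
    exact hpick e (hSsub e (Finset.mem_toList.1 he))
  have hcE : c.edge ∈ F.chordEdges := by
    simp only [chordEdges, Finset.mem_image, Finset.mem_filter, Finset.mem_univ, true_and]
    exact ⟨c, hc, rfl⟩
  have hdE : d.edge ∈ F.chordEdges := by
    simp only [chordEdges, Finset.mem_image, Finset.mem_filter, Finset.mem_univ, true_and]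
    exact ⟨d, hd, rfl⟩
  have hnodup : ((c :: d :: L').map SimpleGraph.Dart.edge).Nodup := by
    rw [List.map_cons, List.map_cons, hLe, List.nodup_cons, List.nodup_cons]
    refine ⟨?_, ?_, Finset.nodup_toList S⟩
    · rw [List.mem_cons, Finset.mem_toList]
      rintro (h | h)
      · exact hcd h.symm
      · exact (Finset.ne_of_mem_erase (Finset.mem_of_mem_erase h)) rfl
    · rw [Finset.mem_toList]
      intro h
      exact (Finset.ne_of_mem_erase h) rfl
  have hmem : ∀ x : G.Dart, ¬ F.IsTree x ↔ x.edge ∈ (c :: d :: L').map SimpleGraph.Dart.edge := by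
    intro x
    rw [List.map_cons, List.map_cons, hLe, List.mem_cons, List.mem_cons, Finset.mem_toList, hS,
      Finset.mem_erase, Finset.mem_erase]
    constructor
    · intro hx
      have hxE : x.edge ∈ F.chordEdges := by
        simp only [chordEdges, Finset.mem_image, Finset.mem_filter, Finset.mem_univ, true_and]
        exact ⟨x, hx, rfl⟩
      tauto
    · have htree : ∀ y : G.Dart, ¬ F.IsTree y → x.edge = y.edge → ¬ F.IsTree x := by
        intro y hy hxy
        rcases (SimpleGraph.dart_edge_eq_iff x y).1 hxy with h | h
        · rw [h]; exact hy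
        · rw [h, F.isTree_symm]; exact hy
      rintro (h | h | ⟨-, -, h⟩)
      · exact htree c hc h
      · exact htree d hd h
      · simp only [chordEdges, Finset.mem_image, Finset.mem_filter, Finset.mem_univ,
          true_and] at h
        obtain ⟨y, hy, hyx⟩ := h
        exact htree y hy hyx.symm
  have hlen : L'.length + 2 = F.chordEdges.card := by
    rw [hL', List.length_map, Finset.length_toList, hS, Finset.card_erase_of_mem,
      Finset.card_erase_of_mem hcE]
    · have : 2 ≤ F.chordEdges.card := by
        rw [← Finset.card_pair hcd]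
        apply Finset.card_le_card
        intro e he
        rw [Finset.mem_insert, Finset.mem_singleton] at he
        rcases he with rfl | rfl
        · exact hdE
        · exact hcE
      omega
    · exact Finset.mem_erase.2 ⟨hcd, hdE⟩
  have hface := F.face_eq R (c :: d :: L') hnodup hmem
  rw [prodSwap_cons, prodSwap_cons, ← mul_assoc, ← mul_assoc] at hface
  have h3 := cycles_mul_prodSwap L' (F.kap R * Equiv.swap c c.symm * Equiv.swap d d.symm)
  rw [← hface] at h3
  have h4 := F.cycles_kap_le R
  have h5 := F.card_chord_le
  have h6 := F.card_root_le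
  have h7 : (Finset.univ.filter fun x : V => F.lev x = 0).card +
      (Finset.univ.filter fun x : V => F.lev x ≠ 0).card = Nat.card V := by
    rw [Nat.card_eq_fintype_card, ← Finset.card_univ]
    exact Finset.card_filter_add_card_filter_not _
  omega

end Forest

end Pool.Agent.H41.Fire
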