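import Pool.Agent.H41.Fire.Anc
import Pool.Agent.H41.Fire.Noncross

/-! Positions along the contour of the tree through `d0`. -/

namespace Pool.Agent.H41.Fire

open Classical Equiv.Perm

set_option linter.unusedSectionVars false

universe u

variable {V : Type u} [Fintype V] {G : SimpleGraph V}

/-- A rooted contour: rotation system, forest, a dart at the root. -/
structure Ctx (G : SimpleGraph V) where
  R : Rotation G
  F : Forest G
  d0 : G.Dart
  nc : ∀ c d : G.Dart, ¬ F.IsTree c → ¬ F.IsTree d → d.edge ≠ c.edge →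
    (F.kap R * Equiv.swap c c.symm).SameCycle d d.symm
  hlev : ∀ x, G.Reachable d0.fst x → F.lev x = G.dist d0.fst x

namespace Ctx

variable (C : Ctx G)

/-- the root -/
def v : V := C.d0.fst

/-- the component of the root -/
def In (x : V) : Prop := G.Reachable C.v x

theorem lev_v : C.F.lev C.v = 0 := by
  have h := C.hlev C.v (SimpleGraph.Reachable.refl _)
  rw [h]
  show G.dist C.d0.fst C.d0.fst = 0
  simp

theorem in_v : C.In C.v := SimpleGraph.Reachable.refl _

theorem in_adj {x y : V} (h : C.In x) (hxy : G.Adj x y) : C.In y :=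
  SimpleGraph.Reachable.trans h hxy.reachable

theorem eq_v {x : V} (h : C.In x) (h0 : C.F.lev x = 0) : x = C.v :=
  (C.F.root_unique _ _ h C.lev_v h0).symm

/-- contour -/
noncomputable def κ : Equiv.Perm G.Dart := C.F.kap C.R

/-- the dart at position `k` -/
noncomputable def D (k : ℕ) : G.Dart := (C.κ ^ k) C.d0

/-- number of positions -/
noncomputable def N : ℕ := Function.minimalPeriod C.κ C.d0

theorem finDart : Finite G.Dart := Finite.of_injective _ SimpleGraph.Dart.toProd_injective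

theorem D_eq (k : ℕ) : C.D k = (C.κ)^[k] C.d0 := by
  rw [D, Equiv.Perm.iterate_eq_pow]

theorem D_succ (k : ℕ) : C.D (k + 1) = C.κ (C.D k) := by
  rw [D, D, pow_succ', Equiv.Perm.mul_apply]

theorem D_zero : C.D 0 = C.d0 := rfl

theorem N_pos : 0 < C.N := by
  have := finDart (G := G)
  apply Function.IsPeriodicPt.minimalPeriod_pos (orderOf_pos C.κ)
  show (C.κ)^[orderOf C.κ] C.d0 = C.d0
  rw [Equiv.Perm.iterate_eq_pow, pow_orderOf_eq_one]
  rfl

theorem D_N : C.D C.N = C.d0 := by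
  rw [D_eq]
  exact Function.iterate_minimalPeriod

theorem exists_D {d : G.Dart} (h : C.In d.fst) : ∃ k < C.N, C.D k = d := by
  have := finDart (G := G)
  have h1 : (C.κ).SameCycle C.d0 d := C.F.comp_sameCycle C.R h
  obtain ⟨k, hk⟩ := h1.exists_nat_pow_eq
  refine ⟨k % C.N, Nat.mod_lt _ C.N_pos, ?_⟩
  rw [D_eq, N, Function.iterate_mod_minimalPeriod_eq, ← D_eq]
  exact hk

theorem D_inj {i j : ℕ} (hi : i < C.N) (hj : j < C.N) (h : C.D i = C.D j) : i = j := by
  rw [D_eq, D_eq] at h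
  exact Function.iterate_injOn_Iio_minimalPeriod hi hj h

/-- position of a dart -/
noncomputable def idx (d : G.Dart) : ℕ := if h : ∃ k, k < C.N ∧ C.D k = d then Nat.find h else 0

theorem idx_spec {d : G.Dart} (h : C.In d.fst) : C.idx d < C.N ∧ C.D (C.idx d) = d := by
  have h1 : ∃ k, k < C.N ∧ C.D k = d := C.exists_D h
  rw [idx, dif_pos h1]
  exact Nat.find_spec h1

theorem idx_lt {d : G.Dart} (h : C.In d.fst) : C.idx d < C.N := (C.idx_spec h).1

theorem D_idx {d : G.Dart} (h : C.In d.fst) : C.D (C.idx d) = d := (C.idx_spec h).2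

theorem in_D (k : ℕ) : C.In (C.D k).fst :=
  C.F.reachable_of_sameCycle C.R ⟨k, by rw [zpow_natCast]; rfl⟩

theorem idx_D {k : ℕ} (hk : k < C.N) : C.idx (C.D k) = k :=
  C.D_inj (C.idx_lt (C.in_D k)) hk (C.D_idx (C.in_D k))

theorem idx_inj {d e : G.Dart} (hd : C.In d.fst) (he : C.In e.fst) (h : C.idx d = C.idx e) :
    d = e := by rw [← C.D_idx hd, h, C.D_idx he]

theorem fst_D_succ (k : ℕ) :
    (C.D (k + 1)).fst = if C.F.IsTree (C.D k) then (C.D k).snd else (C.D k).fst := by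
  rw [D_succ, κ, C.F.fst_kap]

theorem in_symm {d : G.Dart} (h : C.In d.fst) : C.In d.symm.fst := C.in_adj h d.adj

/-- the position after `k`, cyclically -/
theorem idx_κ {d : G.Dart} (h : C.In d.fst) :
    (C.idx d + 1 < C.N ∧ C.idx (C.κ d) = C.idx d + 1 ∧ C.D (C.idx d + 1) = C.κ d) ∨
    (C.idx d + 1 = C.N ∧ C.idx (C.κ d) = 0 ∧ C.κ d = C.d0) := by
  have h1 : C.D (C.idx d + 1) = C.κ d := by rw [D_succ, C.D_idx h]
  rcases Nat.lt_or_ge (C.idx d + 1) C.N with h2 | h2
  · left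
    exact ⟨h2, by rw [← h1, C.idx_D h2], h1⟩
  · right
    have h3 : C.idx d + 1 = C.N := by
      have := C.idx_lt h
      omega
    rw [h3, D_N] at h1
    refine ⟨h3, ?_, h1.symm⟩
    rw [← h1]
    exact C.idx_D C.N_pos

/-- Chords are noncrossing, in terms of positions. -/
theorem nc_pos {c d : G.Dart} (hc : ¬ C.F.IsTree c) (hd : ¬ C.F.IsTree d)
    (hcd : d.edge ≠ c.edge) (hcI : C.In c.fst) (hdI : C.In d.fst) (hlt : C.idx c < C.idx c.symm) :
    (C.idx c < C.idx d ∧ C.idx d < C.idx c.symm) ↔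
      (C.idx c < C.idx d.symm ∧ C.idx d.symm < C.idx c.symm) := by
  have hfin := finDart (G := G)
  set g := C.F.kap C.R * Equiv.swap c c.symm with hg
  have hcI' := C.in_symm hcI
  have hstep : ∀ x : G.Dart, C.In x.fst → C.idx c < C.idx x → C.idx x ≤ C.idx c.symm →
      C.In (g x).fst ∧ C.idx c < C.idx (g x) ∧ C.idx (g x) ≤ C.idx c.symm := by
    intro x hx h1 h2
    by_cases hxc : x = c.symm
    · have h3 : g x = C.κ c := by rw [hg, hxc, Equiv.Perm.mul_apply, Equiv.swap_apply_right]; rfl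
      rw [h3]
      have h4 : C.In (C.κ c).fst := by
        rw [κ, C.F.fst_kap, if_neg hc]; exact hcI
      rcases C.idx_κ hcI with ⟨_, h5, _⟩ | ⟨h5, _, _⟩
      · refine ⟨h4, by omega, by omega⟩
      · have := C.idx_lt hcI'
        omega
    · have hxc' : x ≠ c := fun h => by rw [h] at h1; omega
      have h3 : g x = C.κ x := by
        rw [hg, Equiv.Perm.mul_apply, Equiv.swap_apply_of_ne_of_ne hxc' hxc]; rfl
      have h6 : C.idx x ≠ C.idx c.symm := fun h => hxc (C.idx_inj hx hcI' h)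
      rw [h3]
      have h4 : C.In (C.κ x).fst := by
        rw [κ, C.F.fst_kap]
        split_ifs
        · exact C.in_adj hx x.adj
        · exact hx
      rcases C.idx_κ hx with ⟨_, h5, _⟩ | ⟨h5, _, _⟩
      · refine ⟨h4, by omega, by omega⟩
      · have := C.idx_lt hcI'
        omega
  have hpow : ∀ (k : ℕ) (x : G.Dart), C.In x.fst → C.idx c < C.idx x → C.idx x ≤ C.idx c.symm →
      C.In ((g ^ k) x).fst ∧ C.idx c < C.idx ((g ^ k) x) ∧ C.idx ((g ^ k) x) ≤ C.idx c.symm := by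
    intro k x hx h1 h2
    induction k with
    | zero => exact ⟨hx, h1, h2⟩
    | succ k ih =>
      rw [pow_succ']
      exact hstep _ ih.1 ih.2.1 ih.2.2
  have hsame : g.SameCycle d d.symm := C.nc c d hc hd hcd
  have hdI' := C.in_symm hdI
  have hne1 : d ≠ c.symm := fun h => hcd (by rw [h, SimpleGraph.Dart.edge_symm])
  have hne2 : d.symm ≠ c.symm := fun h => hcd (by
    rw [← SimpleGraph.Dart.edge_symm d, h, SimpleGraph.Dart.edge_symm])
  have hne1' : C.idx d ≠ C.idx c.symm := fun h => hne1 (C.idx_inj hdI hcI' h)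
  have hne2' : C.idx d.symm ≠ C.idx c.symm := fun h => hne2 (C.idx_inj hdI' hcI' h)
  constructor
  · rintro ⟨h1, h2⟩
    obtain ⟨k, hk⟩ := hsame.exists_nat_pow_eq
    obtain ⟨_, h3, h4⟩ := hpow k d hdI h1 h2.le
    rw [hk] at h3 h4
    exact ⟨h3, by omega⟩
  · rintro ⟨h1, h2⟩
    obtain ⟨k, hk⟩ := hsame.symm.exists_nat_pow_eq
    obtain ⟨_, h3, h4⟩ := hpow k d.symm hdI' h1 h2.le
    rw [hk] at h3 h4
    exact ⟨h3, by omega⟩

/-- Membership of the darts at one vertex. -/
theorem unsplit (P : ℕ → Prop) (w : V) (hw : C.In w)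
    (h1 : ∀ k, k + 1 < C.N → (C.D (k + 1)).fst = w → (P k ↔ P (k + 1)))
    (h2 : C.v = w → (P (C.N - 1) ↔ P 0))
    (h3 : ∀ d : G.Dart, d.fst = w → C.F.IsTree d → (P (C.idx d) ↔ P (C.idx d.symm)))
    (d e : G.Dart) (hd : d.fst = w) (he : e.fst = w) : P (C.idx d) ↔ P (C.idx e) := by
  have hfin := finDart (G := G)
  have hκ : ∀ x : G.Dart, C.In x.fst → (C.κ x).fst = w → (P (C.idx x) ↔ P (C.idx (C.κ x))) := by
    intro x hx hxw
    rcases C.idx_κ hx with ⟨h5, h6, h7⟩ | ⟨h5, h6, h7⟩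
    · rw [h6]
      exact h1 _ h5 (by rw [h7, hxw])
    · rw [h6]
      have h8 : C.idx x = C.N - 1 := by omega
      rw [h8]
      exact h2 (by rw [← hxw, h7]; rfl)
  have hstep : ∀ x : G.Dart, x.fst = w → (P (C.idx x) ↔ P (C.idx (C.R.nxt x))) := by
    intro x hx
    by_cases hT : C.F.IsTree x
    · have h4 : C.κ x.symm = C.R.nxt x := by
        rw [κ, C.F.kap_tree C.R (C.F.isTree_symm.2 hT), SimpleGraph.Dart.symm_symm]
      rw [h3 x hx hT, ← h4]
      exact hκ x.symm (C.in_symm (by rw [hx]; exact hw)) (by rw [h4, C.R.fst_nxt, hx])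
    · have h4 : C.κ x = C.R.nxt x := by rw [κ, C.F.kap_chord C.R hT]
      rw [← h4]
      exact hκ x (by rw [hx]; exact hw) (by rw [h4, C.R.fst_nxt, hx])
  have hpow : ∀ k : ℕ, P (C.idx d) ↔ P (C.idx ((C.R.nxt ^ k) d)) := by
    intro k
    induction k with
    | zero => exact Iff.rfl
    | succ k ih =>
      rw [pow_succ']
      exact ih.trans (hstep _ (by rw [fst_nxt_pow, hd]))
  obtain ⟨k, hk⟩ := (C.R.sameCycle d e (hd.trans he.symm)).exists_nat_pow_eq
  rw [← hk]
  exact hpow k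

end Ctx

end Pool.Agent.H41.Fire
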