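import Pool.Agent.H41.Fire.StratIV

/-! The case analysis for two paths that meet only at the origin of the fire. -/

namespace Pool.Agent.H41.Fire

open Classical

set_option linter.unusedSectionVars false

universe u

variable {V : Type u} {G : SimpleGraph V}

namespace Cfg

variable {v : V} {k : ℕ} {X Y : ℕ → V} {L M : ℕ} {R : G.Dart → Prop}

theorem Good_comm : Good G v k X Y L M R = Good G v k Y X M L R := by
  ext w
  unfold Good
  simp only [Set.mem_ofPred_eq]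
  constructor
  · rintro (h | ⟨h1, h2, h3⟩)
    · exact Or.inl h
    · exact Or.inr ⟨h2, h1, h3⟩
  · rintro (h | ⟨h1, h2, h3⟩)
    · exact Or.inl h
    · exact Or.inr ⟨h2, h1, h3⟩

theorem allin (H : Cfg G v 0 X Y L M R) (h3 : Sub3 G) {m : ℕ} (h1 : 1 ≤ m) (h2 : m ≤ L)
    {Q : G.Dart → Prop}
    (hn : ¬ ∀ d d' : G.Dart, d.fst = X m → d'.fst = X m → ¬ PE 0 X Y L M d →
      ¬ PE 0 X Y L M d' → Q d → Q d' → (L = m ∧ d = d')) :
    (∀ d : G.Dart, d.fst = X m → ¬ PE 0 X Y L M d → Q d) ∧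
      ∃ d : G.Dart, d.fst = X m ∧ ¬ PE 0 X Y L M d ∧ Q d := by
  push Not at hn
  obtain ⟨d, d', hd, hd', hp, hp', hQ, hQ', hne⟩ := hn
  refine ⟨?_, d, hd, hp, hQ⟩
  intro d'' hd'' hp''
  rcases Nat.lt_or_ge m L with h4 | h4
  · rw [H.D1 h3 (by omega) h4 hd'' hd hp'' hp]
    exact hQ
  · have h5 : L = m := by omega
    subst h5
    have h6 := hne rfl
    by_contra hcon
    have g1 : d'' ≠ d := fun h => hcon (h ▸ hQ)
    have g2 : d'' ≠ d' := fun h => hcon (h ▸ hQ')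
    exact h6 (H.D2 h3 (by omega) hd'' hd hd' hp'' hp hp' g1 g2)

theorem core (H : Cfg G v 0 X Y L M R) (h3 : Sub3 G) (hL : 1 ≤ L) (hM : 1 ≤ M)
    (hv : ∀ d : G.Dart, d.fst = v → ¬ PE 0 X Y L M d → ¬ R d) :
    CanSave G v (Good G v 0 X Y L M R) ∨ CanSave G v (Good G v 0 X Y L M (fun d => ¬ R d)) ∨
    (2 ≤ L ∧ 2 ≤ M ∧ (∀ d : G.Dart, d.fst = X 1 → ¬ PE 0 X Y L M d → R d) ∧
      (∀ d : G.Dart, d.fst = Y 1 → ¬ PE 0 X Y L M d → R d) ∧
      (∃ g, G.Adj v g ∧ g ≠ X 1 ∧ G.dist g (X L) + 1 = G.dist v (X L)) ∧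
      (∃ g, G.Adj v g ∧ g ≠ Y 1 ∧ G.dist g (Y M) + 1 = G.dist v (Y M)) ∧
      ∃ dc : G.Dart, dc.fst = v ∧ ¬ PE 0 X Y L M dc) := by
  -- exposed first vertex of Y
  by_cases hY : ∀ d d' : G.Dart, d.fst = Y 1 → d'.fst = Y 1 → ¬ PE 0 X Y L M d →
      ¬ PE 0 X Y L M d' → R d → R d' → (M = 1 ∧ d = d')
  · exact Or.inl (H.ii h3 hL hM hv hY)
  by_cases hX : ∀ d d' : G.Dart, d.fst = X 1 → d'.fst = X 1 → ¬ PE 0 Y X M L d →
      ¬ PE 0 Y X M L d' → R d → R d' → (L = 1 ∧ d = d')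
  · left
    rw [Good_comm]
    exact H.swap.ii h3 hM hL (fun d h1 h2 => hv d h1 (fun h => h2 (PE_comm.1 h))) hX
  have hX0 : ¬ ∀ d d' : G.Dart, d.fst = X 1 → d'.fst = X 1 → ¬ PE 0 X Y L M d →
      ¬ PE 0 X Y L M d' → R d → R d' → (L = 1 ∧ d = d') := by
    intro h
    apply hX
    intro d d' g1 g2 g3 g4
    exact h d d' g1 g2 (fun hh => g3 (PE_comm.1 hh)) (fun hh => g4 (PE_comm.1 hh))
  have hY0 : ¬ ∀ d d' : G.Dart, d.fst = Y 1 → d'.fst = Y 1 → ¬ PE 0 Y X M L d →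
      ¬ PE 0 Y X M L d' → R d → R d' → (M = 1 ∧ d = d') := by
    intro h
    apply hY
    intro d d' g1 g2 g3 g4
    exact h d d' g1 g2 (fun hh => g3 (PE_comm.1 hh)) (fun hh => g4 (PE_comm.1 hh))
  obtain ⟨hX1, dx, hdx, hdxP, hdxR⟩ := H.allin h3 (le_refl 1) hL hX0
  obtain ⟨hY1', dy, hdy, hdyP', hdyR⟩ := H.swap.allin h3 (le_refl 1) hM hY0
  have hY1 : ∀ d : G.Dart, d.fst = Y 1 → ¬ PE 0 X Y L M d → R d := fun d g1 g2 =>
    hY1' d g1 (fun h => g2 (PE_comm.1 h))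
  have hdyP : ¬ PE 0 X Y L M dy := fun h => hdyP' (PE_comm.1 h)
  -- the third neighbour of v
  by_cases hdc : ∃ dc : G.Dart, dc.fst = v ∧ ¬ PE 0 X Y L M dc
  swap
  · right; left
    refine H.compl.ii h3 hL hM (fun d h1 h2 => absurd ⟨d, h1, h2⟩ hdc) ?_
    intro d d' g1 g2 g3 g4 g5 g6
    exact absurd (hY1 d g1 g3) g5
  obtain ⟨dc, hdc, hdcP⟩ := hdc
  have hdcU : ∀ d : G.Dart, d.fst = v → ¬ PE 0 X Y L M d → d = dc := by
    intro d hd hP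
    have hX01 : G.Adj v (X 1) := by
      have := H.adjX 0 (le_refl _) (by omega)
      rwa [H.X0] at this
    have hY01 : G.Adj v (Y 1) := by
      have := H.adjY 0 (le_refl _) (by omega)
      rwa [H.Y0] at this
    set a : G.Dart := ⟨(v, X 1), hX01⟩ with ha
    set b : G.Dart := ⟨(v, Y 1), hY01⟩ with hb
    have hPa : PE 0 X Y L M a := Or.inl ⟨0, le_refl _, by omega, Or.inl ⟨H.X0.symm, rfl⟩⟩
    have hPb : PE 0 X Y L M b := Or.inr ⟨0, le_refl _, by omega, Or.inl ⟨H.Y0.symm, rfl⟩⟩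
    apply h3 a b d dc
    · rw [hdc]
    · rw [hdc]
    · rw [hd, hdc]
    · intro h
      have h4 : X 1 = Y 1 := congrArg (fun d : G.Dart => d.snd) h
      have := H.injXY (Nat.zero_le _) hL (Nat.zero_le _) hM h4
      omega
    · intro h; exact hP (h ▸ hPa)
    · intro h; exact hdcP (h ▸ hPa)
    · intro h; exact hP (h ▸ hPb)
    · intro h; exact hdcP (h ▸ hPb)
  -- strategy (iii) for the complement
  by_cases hX2 : 2 ≤ L → ∀ d d' : G.Dart, d.fst = X 2 → d'.fst = X 2 → ¬ PE 0 X Y L M d →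
      ¬ PE 0 X Y L M d' → ¬ R d → ¬ R d' → (L = 2 ∧ d = d')
  · right; left
    exact H.compl.iii h3 hL hM dc hdc hdcP hdcU (fun d g1 g2 g3 => g3 (hX1 d g1 g2))
      (fun d g1 g2 g3 => g3 (hY1 d g1 g2)) hX2
  by_cases hY2 : 2 ≤ M → ∀ d d' : G.Dart, d.fst = Y 2 → d'.fst = Y 2 → ¬ PE 0 Y X M L d →
      ¬ PE 0 Y X M L d' → ¬ R d → ¬ R d' → (M = 2 ∧ d = d')
  · right; left
    rw [Good_comm]
    exact H.swap.compl.iii h3 hM hL dc hdc (fun h => hdcP (PE_comm.1 h))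
      (fun d g1 g2 => hdcU d g1 (fun h => g2 (PE_comm.1 h)))
      (fun d g1 g2 g3 => g3 (hY1 d g1 (fun h => g2 (PE_comm.1 h))))
      (fun d g1 g2 g3 => g3 (hX1 d g1 (fun h => g2 (PE_comm.1 h)))) hY2
  have hL2 : 2 ≤ L := by
    by_contra hcon
    exact hX2 (fun h => absurd h hcon)
  have hM2 : 2 ≤ M := by
    by_contra hcon
    exact hY2 (fun h => absurd h hcon)
  have hX2' : ∀ d : G.Dart, d.fst = X 2 → ¬ PE 0 X Y L M d → ¬ R d :=
    (H.allin h3 (by omega) hL2 (Q := fun d => ¬ R d) (fun h => hX2 (fun _ => h))).1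
  have hY2' : ∀ d : G.Dart, d.fst = Y 2 → ¬ PE 0 X Y L M d → ¬ R d := by
    intro d g1 g2
    exact (H.swap.allin h3 (by omega) hM2 (Q := fun d => ¬ R d) (fun h => hY2 (fun _ => h))).1 d g1
      (fun h => g2 (PE_comm.1 h))
  -- strategy (iv)
  by_cases hpX : ∀ g, G.Adj v g → g ≠ X 1 → G.dist g (X L) + 1 ≠ G.dist v (X L)
  · exact Or.inl (H.iv h3 hL hM2 hv dy hdy hdyP hdyR hY2' hpX)
  by_cases hpY : ∀ g, G.Adj v g → g ≠ Y 1 → G.dist g (Y M) + 1 ≠ G.dist v (Y M)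
  · left
    rw [Good_comm]
    exact H.swap.iv h3 hM hL2 (fun d h1 h2 => hv d h1 (fun h => h2 (PE_comm.1 h))) dx hdx
      (fun h => hdxP (PE_comm.1 h)) hdxR
      (fun d g1 g2 => hX2' d g1 (fun h => g2 (PE_comm.1 h))) hpY
  push Not at hpX hpY
  exact Or.inr (Or.inr ⟨hL2, hM2, hX1, hY1, hpX, hpY, dc, hdc, hdcP⟩)

end Cfg

end Pool.Agent.H41.Fire
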