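import Pool.Agent.H41.Fire.Region

/-! Counting the saved vertices. -/

namespace Pool.Agent.H41.Fire

open Classical Equiv.Perm

set_option linter.unusedSectionVars false

universe u

variable {V : Type u} [Fintype V] {G : SimpleGraph V}

namespace Ctx

variable (C : Ctx G)

/-- vertices outside the component of the root -/
theorem card_out : (Finset.univ.filter fun w => ¬ C.In w).card + C.nodes.card + 1 =
    Fintype.card V := by
  have h1 : (Finset.univ.filter fun w => C.In w) = insert C.v C.nodes := by
    ext w
    simp only [Finset.mem_filter, Finset.mem_univ, true_and, Finset.mem_insert, C.mem_nodes]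
    constructor
    · intro h
      by_cases h0 : C.F.lev w = 0
      · exact Or.inl (C.eq_v h h0)
      · exact Or.inr ⟨h, h0⟩
    · rintro (h | h)
      · rw [h]; exact C.in_v
      · exact h.1
  have h2 : C.v ∉ C.nodes := by
    rw [C.mem_nodes]
    exact fun h => h.2 C.lev_v
  have h3 := Finset.card_filter_add_card_filter_not (s := (Finset.univ : Finset V))
    (fun w => C.In w)
  rw [h1, Finset.card_insert_of_notMem h2, Finset.card_univ] at h3
  omega

theorem out_le_sn :
    (Finset.univ.filter fun w => ¬ C.In w).card ≤ sn G C.v := by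
  apply CanSave.card_le
  have hb := barrier (G := G) (v := C.v) (E := {w | C.In w}) (τ := fun a => G.dist C.v a)
      (q := fun _ => none) ?_ ?_ ?_ ?_ ?_
  · refine hb.mono ?_
    intro w hw
    simp only [Finset.coe_filter, Finset.mem_univ, true_and, Set.mem_ofPred_eq] at hw
    exact hw
  · exact C.in_v
  · simp
  · intro a ha b _ hab
    exact dist_le_succ ha hab
  · intro t w h
    simp at h
  · intro a ha b hb hab
    exact absurd (C.in_adj ha hab) hb

theorem count {k : ℕ} {X Y : ℕ → V} {L M : ℕ} {R : G.Dart → Prop}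
    (H : Cfg G C.v k X Y L M R) (hs : CanSave G C.v (Cfg.Good G C.v k X Y L M R))
    (P : ℕ → Prop) (hR : ∀ x, x ∈ C.nodes → P (C.e x) → R (C.up x)) :
    Fintype.card V + C.wt P ≤ sn G C.v + L + M + C.nodes.card + 1 := by
  set Z : Finset V := (Finset.Icc 1 L).image X ∪ (Finset.Icc 1 M).image Y with hZ
  have hZc : Z.card ≤ L + M := by
    refine (Finset.card_union_le _ _).trans ?_
    have h1 := Finset.card_image_le (s := Finset.Icc 1 L) (f := X)
    have h2 := Finset.card_image_le (s := Finset.Icc 1 M) (f := Y)
    rw [Nat.card_Icc] at h1 h2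
    omega
  set W : Finset V := (Finset.univ.filter fun w => ¬ C.In w) ∪ (C.sel P \ Z) with hW
  have hdisj : Disjoint (Finset.univ.filter fun w => ¬ C.In w) (C.sel P \ Z) := by
    rw [Finset.disjoint_left]
    intro w hw hw'
    simp only [Finset.mem_filter, Finset.mem_univ, true_and] at hw
    rw [Finset.mem_sdiff, C.mem_sel, C.mem_nodes] at hw'
    exact hw hw'.1.1.1
  have hWc : W.card = (Finset.univ.filter fun w => ¬ C.In w).card + (C.sel P \ Z).card :=
    Finset.card_union_of_disjoint hdisj
  have h1 : C.wt P ≤ (C.sel P \ Z).card + Z.card := by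
    have := Finset.le_card_sdiff Z (C.sel P)
    unfold wt
    omega
  have hsub : CanSave G C.v (W : Set V) := by
    apply hs.mono
    intro w hw
    rw [Finset.mem_coe, hW, Finset.mem_union] at hw
    rcases hw with hw | hw
    · simp only [Finset.mem_filter, Finset.mem_univ, true_and] at hw
      exact Or.inl hw
    · rw [Finset.mem_sdiff, C.mem_sel] at hw
      obtain ⟨⟨hw1, hw2⟩, hw3⟩ := hw
      have hw1' := C.mem_nodes.1 hw1
      right
      have hZ' : ∀ m, (1 ≤ m → m ≤ L → w ≠ X m) ∧ (1 ≤ m → m ≤ M → w ≠ Y m) := by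
        intro m
        constructor
        · rintro h1 h2 rfl
          exact hw3 (Finset.mem_union_left _ (Finset.mem_image_of_mem _
            (Finset.mem_Icc.2 ⟨h1, h2⟩)))
        · rintro h1 h2 rfl
          exact hw3 (Finset.mem_union_right _ (Finset.mem_image_of_mem _
            (Finset.mem_Icc.2 ⟨h1, h2⟩)))
      refine ⟨?_, ?_, ?_⟩
      · intro m h1 h2 h3
        rcases Nat.eq_zero_or_pos m with h0 | h0
        · have := H.distX m h1 h2
          rw [← h3, h0, ← C.lev_eq hw1'.1] at this
          exact hw1'.2 this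
        · exact (hZ' m).1 h0 h2 h3
      · intro m h1 h2 h3
        rcases Nat.eq_zero_or_pos m with h0 | h0
        · have := H.distY m h1 h2
          rw [← h3, h0, ← C.lev_eq hw1'.1] at this
          exact hw1'.2 this
        · exact (hZ' m).2 h0 h2 h3
      · exact ⟨C.up w, C.up_fst hw1'.2, hR w hw1 hw2⟩
  have h2 := hsub.card_le
  have h3 := C.card_out
  omega

/-- The region given by a set of positions. -/
theorem count' {k : ℕ} {X Y : ℕ → V} {L M : ℕ} {P : ℕ → Prop}
    (H : Cfg G C.v k X Y L M (fun d => P (C.idx d)))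
    (hs : CanSave G C.v (Cfg.Good G C.v k X Y L M (fun d => P (C.idx d)))) :
    Fintype.card V + C.wt P ≤ 3 * sn G C.v + C.nodes.card + 1 := by
  have h1 := C.count H hs P (fun x _ h => h)
  have h2 := ray (G := G) (H.reachX L H.kL (le_refl _))
  have h3 := ray (G := G) (H.reachY M H.kM (le_refl _))
  rw [H.distX L H.kL (le_refl _)] at h2
  rw [H.distY M H.kM (le_refl _)] at h3
  omega

end Ctx

end Pool.Agent.H41.Fire
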