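import Pool.Agent.H41.Fire.Contour

/-! Subtrees are intervals of the contour; closed intervals; a balanced closed interval. -/

namespace Pool.Agent.H41.Fire

open Classical Equiv.Perm

set_option linter.unusedSectionVars false

universe u

variable {V : Type u} [Fintype V] {G : SimpleGraph V}

namespace Ctx

variable (C : Ctx G)

/-- the dart to the parent -/
noncomputable def up (x : V) : G.Dart :=
  if h : C.F.lev x ≠ 0 then ⟨(x, C.F.par x), C.F.adj_par x h⟩ else C.d0

theorem up_fst {x : V} (h : C.F.lev x ≠ 0) : (C.up x).fst = x := by rw [up, dif_pos h]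

theorem up_snd {x : V} (h : C.F.lev x ≠ 0) : (C.up x).snd = C.F.par x := by rw [up, dif_pos h]

theorem up_up {x : V} (h : C.F.lev x ≠ 0) : C.F.Up (C.up x) := by
  refine ⟨by rw [C.up_fst h]; exact h, by rw [C.up_fst h, C.up_snd h]⟩

theorem eq_up {d : G.Dart} (h : C.F.Up d) : d = C.up d.fst := by
  apply SimpleGraph.Dart.ext
  apply Prod.ext
  · exact (C.up_fst h.1).symm
  · exact h.2.symm.trans (C.up_snd h.1).symm

/-- last position of the subtree of `x` -/
noncomputable def e (x : V) : ℕ := C.idx (C.up x)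

/-- position before the subtree of `x` -/
noncomputable def b (x : V) : ℕ := C.idx (C.up x).symm

theorem in_par {x : V} (hx : C.In x) (h : C.F.lev x ≠ 0) : C.In (C.F.par x) :=
  C.in_adj hx (C.F.adj_par x h)

theorem in_up {x : V} (hx : C.In x) (h : C.F.lev x ≠ 0) : C.In (C.up x).fst := by
  rw [C.up_fst h]; exact hx

theorem e_lt {x : V} (hx : C.In x) (h : C.F.lev x ≠ 0) : C.e x < C.N := C.idx_lt (C.in_up hx h)

theorem b_lt {x : V} (hx : C.In x) (h : C.F.lev x ≠ 0) : C.b x < C.N :=
  C.idx_lt (C.in_symm (C.in_up hx h))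

theorem D_e {x : V} (hx : C.In x) (h : C.F.lev x ≠ 0) : C.D (C.e x) = C.up x :=
  C.D_idx (C.in_up hx h)

theorem D_b {x : V} (hx : C.In x) (h : C.F.lev x ≠ 0) : C.D (C.b x) = (C.up x).symm :=
  C.D_idx (C.in_symm (C.in_up hx h))

theorem e_inj {x y : V} (hx : C.In x) (h : C.F.lev x ≠ 0) (hy : C.In y) (h' : C.F.lev y ≠ 0)
    (hxy : C.e x = C.e y) : x = y := by
  have := C.idx_inj (C.in_up hx h) (C.in_up hy h') hxy
  rw [← C.up_fst h, this, C.up_fst h']

theorem desc_step {x : V} (_hx : C.In x) (h : C.F.lev x ≠ 0) {k : ℕ} (hk : k < C.N) :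
    (C.F.Desc x (C.D (k + 1)).fst ↔ C.F.Desc x (C.D k).fst) ∨
    (k = C.e x ∧ C.F.Desc x (C.D k).fst ∧ ¬ C.F.Desc x (C.D (k + 1)).fst) ∨
    (k = C.b x ∧ ¬ C.F.Desc x (C.D k).fst ∧ C.F.Desc x (C.D (k + 1)).fst) := by
  rw [C.fst_D_succ]
  by_cases hT : C.F.IsTree (C.D k)
  · rw [if_pos hT]
    rcases hT with hU | hU
    · by_cases hxe : (C.D k).fst = x
      · right; left
        have h1 : C.D k = C.up x := by rw [C.eq_up hU, hxe]
        refine ⟨?_, ?_, ?_⟩
        · rw [e, ← h1, C.idx_D hk]
        · rw [hxe]; exact C.F.desc_self x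
        · rw [h1, C.up_snd h]
          exact C.F.not_desc_par h
      · left
        rw [← hU.2]
        exact C.F.desc_par hU.1 hxe
    · have hU1 : C.F.lev (C.D k).snd ≠ 0 := hU.1
      have hU2 : C.F.par (C.D k).snd = (C.D k).fst := hU.2
      by_cases hxe : (C.D k).snd = x
      · right; right
        have h1 : (C.D k).symm = C.up x := by
          rw [C.eq_up hU]
          show C.up (C.D k).snd = C.up x
          rw [hxe]
        refine ⟨?_, ?_, ?_⟩
        · rw [b, ← h1, SimpleGraph.Dart.symm_symm, C.idx_D hk]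
        · rw [← hU2, hxe]
          exact C.F.not_desc_par h
        · rw [hxe]; exact C.F.desc_self x
      · left
        rw [← hU2]
        exact (C.F.desc_par hU1 hxe).symm
  · rw [if_neg hT]
    left; exact Iff.rfl

theorem not_desc_v {x : V} (h : C.F.lev x ≠ 0) : ¬ C.F.Desc x C.v :=
  C.F.not_desc_root C.lev_v (fun hh => h (by rw [hh]; exact C.lev_v))

theorem b_lt_e {x : V} (hx : C.In x) (h : C.F.lev x ≠ 0) : C.b x < C.e x := by
  by_contra hcon
  have key : ∀ k ≤ C.b x, ¬ C.F.Desc x (C.D k).fst := by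
    intro k
    induction k with
    | zero => intro _; exact C.not_desc_v h
    | succ k ih =>
      intro hk
      have h1 := ih (by omega)
      rcases C.desc_step hx h (k := k) (by have := C.b_lt hx h; omega) with h2 | h2 | h2
      · rw [h2]; exact h1
      · exact h2.2.2
      · omega
  have h3 := key (C.e x) (by omega)
  rw [C.D_e hx h, C.up_fst h] at h3
  exact h3 (C.F.desc_self x)

/-- The subtree of `x` occupies the positions `b x < k ≤ e x`. -/
theorem block {x : V} (hx : C.In x) (h : C.F.lev x ≠ 0) {k : ℕ} (hk : k < C.N) :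
    C.F.Desc x (C.D k).fst ↔ C.b x < k ∧ k ≤ C.e x := by
  have hbe := C.b_lt_e hx h
  have hbf : ¬ C.F.Desc x (C.D (C.b x)).fst := by
    rw [C.D_b hx h]
    show ¬ C.F.Desc x (C.up x).snd
    rw [C.up_snd h]
    exact C.F.not_desc_par h
  have hef : C.F.Desc x (C.D (C.e x)).fst := by
    rw [C.D_e hx h, C.up_fst h]; exact C.F.desc_self x
  have h1 : C.F.Desc x (C.D (C.b x + 1)).fst := by
    rcases C.desc_step hx h (C.b_lt hx h) with h2 | h2 | h2
    · exfalso
      -- darts differ: the step at `b x` is a down step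
      have h3 := C.fst_D_succ (C.b x)
      have h4 : C.F.IsTree (C.D (C.b x)) := by
        rw [C.D_b hx h, C.F.isTree_symm]; exact Or.inl (C.up_up h)
      rw [if_pos h4, C.D_b hx h] at h3
      have h5 : (C.D (C.b x + 1)).fst = x := by
        rw [h3]
        exact C.up_fst h
      rw [h5] at h2
      exact hbf (h2.1 (C.F.desc_self x))
    · exact absurd h2.2.1 hbf
    · exact h2.2.2
  have h2 : ¬ C.F.Desc x (C.D (C.e x + 1)).fst := by
    have h3 := C.fst_D_succ (C.e x)
    have h4 : C.F.IsTree (C.D (C.e x)) := by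
      rw [C.D_e hx h]; exact Or.inl (C.up_up h)
    rw [if_pos h4, C.D_e hx h, C.up_snd h] at h3
    rw [h3]
    exact C.F.not_desc_par h
  induction k with
  | zero =>
    constructor
    · intro h3; exact absurd h3 (C.not_desc_v h)
    · intro h3; omega
  | succ k ih =>
    have ih' := ih (by omega)
    by_cases hkb : k = C.b x
    · subst hkb
      exact ⟨fun _ => ⟨by omega, by omega⟩, fun _ => h1⟩
    · by_cases hke : k = C.e x
      · subst hke
        exact ⟨fun h3 => absurd h3 h2, fun h3 => absurd h3.2 (by omega)⟩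
      · rcases C.desc_step hx h (k := k) (by omega) with h3 | h3 | h3
        · refine h3.trans (ih'.trans ?_)
          constructor <;> intro h4 <;> constructor <;> omega
        · exact absurd h3.1 hke
        · exact absurd h3.1 hkb

/-- no chord leaves the interval -/
def Closed (i j : ℕ) : Prop := ∀ d : G.Dart, C.In d.fst → ¬ C.F.IsTree d →
  ((i ≤ C.idx d ∧ C.idx d < j) → (i ≤ C.idx d.symm ∧ C.idx d.symm < j))

theorem Closed.iff {i j : ℕ} (h : C.Closed i j) {d : G.Dart} (hd : C.In d.fst)
    (hT : ¬ C.F.IsTree d) :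
    (i ≤ C.idx d ∧ C.idx d < j) ↔ (i ≤ C.idx d.symm ∧ C.idx d.symm < j) := by
  refine ⟨h d hd hT, fun h1 => ?_⟩
  have := h d.symm (C.in_symm hd) (fun hh => hT (C.F.isTree_symm.1 hh)) h1
  rwa [SimpleGraph.Dart.symm_symm] at this

/-- non-root vertices of the component -/
noncomputable def nodes : Finset V := Finset.univ.filter fun x => C.In x ∧ C.F.lev x ≠ 0

theorem mem_nodes {x : V} : x ∈ C.nodes ↔ C.In x ∧ C.F.lev x ≠ 0 := by simp [nodes]

/-- the nodes whose last position is in `P` -/
noncomputable def sel (P : ℕ → Prop) : Finset V := C.nodes.filter fun x => P (C.e x)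

theorem mem_sel {P : ℕ → Prop} {x : V} : x ∈ C.sel P ↔ x ∈ C.nodes ∧ P (C.e x) := by
  unfold sel
  exact Finset.mem_filter

/-- weight of a set of positions -/
noncomputable def wt (P : ℕ → Prop) : ℕ := (C.sel P).card

theorem wt_zero {P : ℕ → Prop} (h : ∀ x ∈ C.nodes, ¬ P (C.e x)) : C.wt P = 0 := by
  rw [wt, Finset.card_eq_zero, Finset.eq_empty_iff_forall_notMem]
  intro x hx
  rw [mem_sel] at hx
  exact h x hx.1 hx.2

theorem wt_mono {P Q : ℕ → Prop} (h : ∀ k, P k → Q k) : C.wt P ≤ C.wt Q := by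
  apply Finset.card_le_card
  intro x hx
  rw [mem_sel] at hx ⊢
  exact ⟨hx.1, h _ hx.2⟩

theorem wt_or_le (P Q : ℕ → Prop) : C.wt (fun k => P k ∨ Q k) ≤ C.wt P + C.wt Q := by
  refine le_trans (Finset.card_le_card ?_) (Finset.card_union_le _ _)
  intro x hx
  rw [mem_sel] at hx
  rw [Finset.mem_union, mem_sel, mem_sel]
  rcases hx.2 with h | h
  · exact Or.inl ⟨hx.1, h⟩
  · exact Or.inr ⟨hx.1, h⟩

theorem wt_single (i : ℕ) : C.wt (fun k => k = i) ≤ 1 := by
  rw [wt, Finset.card_le_one]
  intro x hx y hy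
  rw [mem_sel, mem_nodes] at hx hy
  exact C.e_inj hx.1.1 hx.1.2 hy.1.1 hy.1.2 (hx.2.trans hy.2.symm)

theorem wt_chord {i : ℕ} (_hi : i < C.N) (h : ¬ C.F.IsTree (C.D i)) :
    C.wt (fun k => k = i) = 0 := by
  apply C.wt_zero
  intro x hx hxi
  rw [mem_nodes] at hx
  apply h
  rw [← hxi, C.D_e hx.1 hx.2]
  exact Or.inl (C.up_up hx.2)

theorem wt_add_not (P : ℕ → Prop) : C.wt P + C.wt (fun k => ¬ P k) = C.nodes.card := by
  rw [wt, wt, ← Finset.card_union_of_disjoint]
  · congr 1
    ext x
    rw [Finset.mem_union, mem_sel, mem_sel]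
    tauto
  · rw [Finset.disjoint_left]
    intro x hx hx'
    rw [mem_sel] at hx hx'
    exact hx'.2 hx.2

theorem wt_full : C.wt (fun k => 0 ≤ k ∧ k < C.N) = C.nodes.card := by
  rw [wt]
  congr 1
  ext x
  rw [mem_sel, mem_nodes]
  exact ⟨fun h => h.1, fun h => ⟨h, Nat.zero_le _, C.e_lt h.1 h.2⟩⟩

/-- A balanced closed interval. -/
theorem balanced0 (hW : 0 < C.nodes.card) : ∃ i j, i < j ∧ j ≤ C.N ∧ C.Closed i j ∧
    C.nodes.card ≤ 3 * C.wt (fun k => i ≤ k ∧ k < j) ∧
    C.nodes.card ≤ 3 * C.wt (fun k => ¬ (i ≤ k ∧ k < j)) + 3 := by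
  set W := C.nodes.card with hWdef
  have hex : ∃ l, ∃ i j, i + l = j ∧ j ≤ C.N ∧ C.Closed i j ∧
      2 * W ≤ 3 * C.wt (fun k => i ≤ k ∧ k < j) := by
    refine ⟨C.N, 0, C.N, by omega, le_refl _, ?_, ?_⟩
    · intro d hd _ _
      exact ⟨Nat.zero_le _, C.idx_lt (C.in_symm hd)⟩
    · rw [C.wt_full]; omega
  obtain ⟨i, j, hij, hjN, hcl, hw⟩ := Nat.find_spec hex
  set l := Nat.find hex with hl
  have hmin : ∀ i' j', i' ≤ j' → j' - i' < l → j' ≤ C.N → C.Closed i' j' →
      3 * C.wt (fun k => i' ≤ k ∧ k < j') < 2 * W := by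
    intro i' j' h1 h2 h3 h4
    by_contra h5
    exact Nat.find_min hex h2 ⟨i', j', by omega, h3, h4, by omega⟩
  have hl0 : 0 < l := by
    rcases Nat.eq_zero_or_pos l with h0 | h0
    · exfalso
      have : C.wt (fun k => i ≤ k ∧ k < j) = 0 := by
        apply C.wt_zero
        intro x _ hx
        omega
      omega
    · exact h0
  have hiN : i < C.N := by omega
  have hnot := C.wt_add_not (fun k => i ≤ k ∧ k < j)
  by_cases hT : C.F.IsTree (C.D i)
  · refine ⟨i, j, by omega, hjN, hcl, by omega, ?_⟩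
    have h1 : C.Closed (i + 1) j := by
      intro d hd hdT hdi
      have h2 := hcl d hd hdT ⟨by omega, hdi.2⟩
      refine ⟨?_, h2.2⟩
      have h3 : C.idx d.symm ≠ i := by
        intro h4
        apply hdT
        rw [← C.F.isTree_symm, ← C.D_idx (C.in_symm hd), h4]
        exact hT
      omega
    have h2 := hmin (i + 1) j (by omega) (by omega) hjN h1
    have h3 : C.wt (fun k => i ≤ k ∧ k < j) ≤ C.wt (fun k => i + 1 ≤ k ∧ k < j) + 1 := by
      refine le_trans (C.wt_mono (Q := fun k => (i + 1 ≤ k ∧ k < j) ∨ k = i) ?_) ?_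
      · intro k hk
        by_cases hki : k = i
        · exact Or.inr hki
        · exact Or.inl ⟨by omega, hk.2⟩
      · refine le_trans (C.wt_or_le _ _) ?_
        have := C.wt_single i
        omega
    omega
  · -- chord at position i
    set c := C.D i with hc
    have hcI : C.In c.fst := C.in_D i
    have hci : C.idx c = i := C.idx_D hiN
    set k0 := C.idx c.symm with hk0
    have hk0' : i ≤ k0 ∧ k0 < j := hcl c hcI hT ⟨by omega, by omega⟩
    have hne : k0 ≠ i := by
      intro h
      have : c.symm = c := C.idx_inj (C.in_symm hcI) hcI (by rw [← hk0, h, hci])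
      exact SimpleGraph.Dart.symm_ne c this
    have hlt : C.idx c < C.idx c.symm := by omega
    have hncp : ∀ d : G.Dart, C.In d.fst → ¬ C.F.IsTree d → (i < C.idx d ∧ C.idx d < k0) →
        (i < C.idx d.symm ∧ C.idx d.symm < k0) := by
      intro d hd hdT h1
      have hdc : d.edge ≠ c.edge := by
        intro h
        rcases (SimpleGraph.dart_edge_eq_iff d c).1 h with h | h
        · rw [h] at h1; omega
        · rw [h] at h1; omega
      have := (C.nc_pos hT hdT hdc hcI hd hlt).1 ⟨by omega, by omega⟩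
      omega
    have hcsT : ¬ C.F.IsTree c.symm := fun h => hT (C.F.isTree_symm.1 h)
    have hk0D : C.D k0 = c.symm := C.D_idx (C.in_symm hcI)
    by_cases hk : k0 + 1 < j
    · have hcl1 : C.Closed i (k0 + 1) := by
        intro d hd hdT h1
        by_cases h2 : C.idx d = i
        · have : d = c := C.idx_inj hd hcI (by omega)
          rw [this]; omega
        · by_cases h3 : C.idx d = k0
          · have : d = c.symm := C.idx_inj hd (C.in_symm hcI) (by omega)
            rw [this, SimpleGraph.Dart.symm_symm]; omega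
          · have := hncp d hd hdT ⟨by omega, by omega⟩
            omega
      have hcl2 : C.Closed (k0 + 1) j := by
        intro d hd hdT h1
        have h2 := hcl d hd hdT ⟨by omega, by omega⟩
        refine ⟨?_, h2.2⟩
        by_contra h3
        have h4 := hcl1 d.symm (C.in_symm hd) (fun h => hdT (C.F.isTree_symm.1 h)) ⟨h2.1, by omega⟩
        rw [SimpleGraph.Dart.symm_symm] at h4
        omega
      have h5 := hmin i (k0 + 1) (by omega) (by omega) (by omega) hcl1
      have h6 := hmin (k0 + 1) j (by omega) (by omega) hjN hcl2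
      have h7 : C.wt (fun k => i ≤ k ∧ k < j) ≤ C.wt (fun k => i ≤ k ∧ k < k0 + 1) +
          C.wt (fun k => k0 + 1 ≤ k ∧ k < j) := by
        refine le_trans (C.wt_mono ?_) (C.wt_or_le _ _)
        intro k hk1
        by_cases hk2 : k < k0 + 1
        · exact Or.inl ⟨hk1.1, hk2⟩
        · exact Or.inr ⟨by omega, hk1.2⟩
      by_cases h8 : W ≤ 3 * C.wt (fun k => i ≤ k ∧ k < k0 + 1)
      · refine ⟨i, k0 + 1, by omega, by omega, hcl1, h8, ?_⟩
        have := C.wt_add_not (fun k => i ≤ k ∧ k < k0 + 1)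
        omega
      · refine ⟨k0 + 1, j, by omega, hjN, hcl2, by omega, ?_⟩
        have := C.wt_add_not (fun k => k0 + 1 ≤ k ∧ k < j)
        omega
    · exfalso
      have hcl3 : C.Closed (i + 1) k0 := by
        intro d hd hdT h1
        have := hncp d hd hdT ⟨by omega, by omega⟩
        omega
      have h5 := hmin (i + 1) k0 (by omega) (by omega) (by omega) hcl3
      have h6 : C.wt (fun k => i ≤ k ∧ k < j) ≤ C.wt (fun k => i + 1 ≤ k ∧ k < k0) := by
        refine le_trans (C.wt_mono (Q := fun k => (i + 1 ≤ k ∧ k < k0) ∨ (k = i ∨ k = k0)) ?_) ?_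
        · intro k hk1
          by_cases h7 : k = i
          · exact Or.inr (Or.inl h7)
          · by_cases h8 : k = k0
            · exact Or.inr (Or.inr h8)
            · exact Or.inl ⟨by omega, by omega⟩
        · refine le_trans (C.wt_or_le _ _) ?_
          have h8 := C.wt_or_le (fun k => k = i) (fun k => k = k0)
          have h9 := C.wt_chord hiN hT
          have h10 := C.wt_chord (i := k0) (by omega) (by rw [hk0D]; exact hcsT)
          omega
      omega

theorem tree_of_v {d : G.Dart} (h : d.fst = C.v) : C.F.IsTree d ∧ C.F.lev d.snd = 1 ∧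
    C.F.par d.snd = C.v := by
  have h1 : C.In d.snd := by
    have : C.In d.fst := by rw [h]; exact C.in_v
    exact C.in_adj this d.adj
  have h2 : C.F.lev d.snd = 1 := by
    rw [C.hlev _ h1]
    exact SimpleGraph.dist_eq_one_iff_adj.2 (by
      have := d.adj
      rw [h] at this
      exact this)
  have h3 : C.F.par d.snd = C.v := by
    apply C.eq_v (C.in_par h1 (by omega))
    have := C.F.lev_par d.snd (by omega)
    omega
  refine ⟨Or.inr ⟨by show C.F.lev d.snd ≠ 0; omega, ?_⟩, h2, h3⟩
  show C.F.par d.snd = d.fst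
  rw [h3, h]

theorem tree_to_v {d : G.Dart} (h : d.snd = C.v) : C.F.IsTree d := by
  rw [← C.F.isTree_symm]
  exact (C.tree_of_v (d := d.symm) h).1

theorem balanced (hW : 6 < C.nodes.card) : ∃ i j, i < j ∧ j < C.N ∧ C.Closed i j ∧
    (C.D i).fst ≠ C.v ∧ (C.D j).fst ≠ C.v ∧
    C.nodes.card ≤ 3 * C.wt (fun k => i ≤ k ∧ k < j) + 6 ∧
    C.nodes.card ≤ 3 * C.wt (fun k => ¬ (i ≤ k ∧ k < j)) + 3 := by
  obtain ⟨i, j, hij, hjN, hcl, hw1, hw2⟩ := C.balanced0 (by omega)
  -- adjust the left end
  obtain ⟨i', hi', hij', hcl', hiv, hw1'⟩ : ∃ i', i ≤ i' ∧ i' ≤ j ∧ C.Closed i' j ∧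
      (C.D i').fst ≠ C.v ∧
      C.wt (fun k => i ≤ k ∧ k < j) ≤ C.wt (fun k => i' ≤ k ∧ k < j) + 1 := by
    by_cases h : (C.D i).fst = C.v
    · obtain ⟨hT, h1, -⟩ := C.tree_of_v h
      refine ⟨i + 1, by omega, by omega, ?_, ?_, ?_⟩
      · intro d hd hdT hdi
        have h2 := hcl d hd hdT ⟨by omega, hdi.2⟩
        refine ⟨?_, h2.2⟩
        have h3 : C.idx d.symm ≠ i := by
          intro h4
          apply hdT
          rw [← C.F.isTree_symm, ← C.D_idx (C.in_symm hd), h4]
          exact hT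
        omega
      · rw [C.fst_D_succ, if_pos hT]
        intro h2
        rw [h2, C.lev_v] at h1
        omega
      · refine le_trans (C.wt_mono (Q := fun k => (i + 1 ≤ k ∧ k < j) ∨ k = i) ?_) ?_
        · intro k hk
          by_cases hki : k = i
          · exact Or.inr hki
          · exact Or.inl ⟨by omega, hk.2⟩
        · refine le_trans (C.wt_or_le _ _) ?_
          have := C.wt_single i
          omega
    · exact ⟨i, le_refl _, by omega, hcl, h, by omega⟩
  obtain ⟨j', hj', hjN', hcl'', hjv, hw1''⟩ : ∃ j', j' ≤ j ∧ j' < C.N ∧ C.Closed i' j' ∧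
      (C.D j').fst ≠ C.v ∧
      C.wt (fun k => i' ≤ k ∧ k < j) ≤ C.wt (fun k => i' ≤ k ∧ k < j') + 1 := by
    by_cases h : (C.D j).fst = C.v
    · obtain ⟨j1, rfl⟩ : ∃ j1, j = j1 + 1 := ⟨j - 1, by omega⟩
      have hT : C.F.IsTree (C.D j1) := by
        by_contra hT
        have h1 := C.fst_D_succ j1
        rw [if_neg hT, h] at h1
        exact hT (C.tree_of_v h1.symm).1
      refine ⟨j1, by omega, by omega, ?_, ?_, ?_⟩
      · intro d hd hdT hdi
        have h2 := hcl' d hd hdT ⟨by omega, by omega⟩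
        refine ⟨h2.1, ?_⟩
        have h3 : C.idx d.symm ≠ j1 := by
          intro h4
          apply hdT
          rw [← C.F.isTree_symm, ← C.D_idx (C.in_symm hd), h4]
          exact hT
        omega
      · have h1 := C.fst_D_succ j1
        rw [if_pos hT, h] at h1
        intro h2
        exact (C.D j1).fst_ne_snd (h2.trans h1)
      · refine le_trans (C.wt_mono (Q := fun k => (i' ≤ k ∧ k < j1) ∨ k = j1) ?_) ?_
        · intro k hk
          by_cases hki : k = j1
          · exact Or.inr hki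
          · exact Or.inl ⟨by omega, by omega⟩
        · refine le_trans (C.wt_or_le _ _) ?_
          have := C.wt_single j1
          omega
    · refine ⟨j, le_refl _, ?_, hcl', h, by omega⟩
      rcases Nat.lt_or_ge j C.N with h1 | h1
      · exact h1
      · exfalso
        have : j = C.N := by omega
        rw [this, C.D_N] at h
        exact h rfl
  have hpos : i' < j' := by
    by_contra hcon
    have : C.wt (fun k => i' ≤ k ∧ k < j') = 0 := by
      apply C.wt_zero
      intro x _ hx
      omega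
    omega
  refine ⟨i', j', hpos, hjN', hcl'', hiv, hjv, by omega, ?_⟩
  have h3 : C.wt (fun k => ¬ (i ≤ k ∧ k < j)) ≤ C.wt (fun k => ¬ (i' ≤ k ∧ k < j')) :=
    C.wt_mono (fun k hk hk' => hk ⟨by omega, by omega⟩)
  omega

end Ctx

end Pool.Agent.H41.Fire
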