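import Pool.Agent.H41.Fire.Classify

/-! The last case: split the complement along a chord. -/

namespace Pool.Agent.H41.Fire

open Classical Equiv.Perm

set_option linter.unusedSectionVars false

universe u

variable {V : Type u} [Fintype V] {G : SimpleGraph V}

namespace Ctx

variable (C : Ctx G)

theorem final_case (h3 : Sub3 G) (hP : C.Pref C.d0.snd (C.R.nxt C.d0).snd
    (C.R.nxt (C.R.nxt C.d0)).snd) {i j : ℕ} (hij : i < j) (hjN : j < C.N)
    (hcl : C.Closed i j)
    (hL : 2 ≤ C.F.lev (C.D i).fst) (hM : 2 ≤ C.F.lev (C.D j).fst)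
    (hne : C.F.anc (C.D i).fst 1 ≠ C.F.anc (C.D j).fst 1)
    (hdc : ∃ z, G.Adj C.v z ∧ z ≠ C.F.anc (C.D i).fst 1 ∧ z ≠ C.F.anc (C.D j).fst 1)
    (hX1 : ∀ d : G.Dart, d.fst = C.F.anc (C.D i).fst 1 →
      ¬ PE 0 (C.F.anc (C.D i).fst) (C.F.anc (C.D j).fst) (C.F.lev (C.D i).fst)
        (C.F.lev (C.D j).fst) d → i ≤ C.idx d ∧ C.idx d < j)
    (hY1 : ∀ d : G.Dart, d.fst = C.F.anc (C.D j).fst 1 →
      ¬ PE 0 (C.F.anc (C.D i).fst) (C.F.anc (C.D j).fst) (C.F.lev (C.D i).fst)
        (C.F.lev (C.D j).fst) d → i ≤ C.idx d ∧ C.idx d < j)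
    (hX : ∃ g, G.Adj C.v g ∧ g ≠ C.F.anc (C.D i).fst 1 ∧ Sm G C.v g (C.D i).fst)
    (hY : ∃ g, G.Adj C.v g ∧ g ≠ C.F.anc (C.D j).fst 1 ∧ Sm G C.v g (C.D j).fst) :
    2 * Fintype.card V + C.wt (fun k => ¬ (i ≤ k ∧ k < j)) ≤
      6 * sn G C.v + 2 * C.nodes.card + 2 := by
  obtain ⟨hxb, hyc, hab, hac, hbc⟩ := C.classify h3 hP hij hjN (by omega) (by omega) hne hdc hX hY
  set n1 := C.R.nxt C.d0 with hn1
  set n2 := C.R.nxt n1 with hn2
  set a := C.d0.snd with ha
  set b := n1.snd with hb
  set c := n2.snd with hc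
  set x := (C.D i).fst with hx
  set y := (C.D j).fst with hy
  have hn1f : n1.fst = C.v := C.nxt_fst
  have hn2f : n2.fst = C.v := C.nxt_nxt_fst
  have haA : G.Adj C.v a := C.adj_of_fst rfl
  have hbA : G.Adj C.v b := C.adj_of_fst hn1f
  have hcA : G.Adj C.v c := C.adj_of_fst hn2f
  have hxI : C.In x := C.in_D i
  have hyI : C.In y := C.in_D j
  have hla : C.F.lev a ≠ 0 := by rw [C.lev_nbr haA]; omega
  have hlb : C.F.lev b ≠ 0 := by rw [C.lev_nbr hbA]; omega
  have hlc : C.F.lev c ≠ 0 := by rw [C.lev_nbr hcA]; omega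
  -- x is impure through a
  have hnc : ¬ Sm G C.v c x := by
    intro h
    have := C.pref_c hP hcA (C.F.lev x - 1) x hxI (by omega) h
    exact hbc (hxb.symm.trans this)
  have hxa : Sm G C.v a x := by
    obtain ⟨g, hg, hg1, hg2⟩ := hX
    rcases C.nbr_cases h3 hg with h | h | h
    · rw [h] at hg2; exact hg2
    · exact absurd (h.trans hxb.symm) hg1
    · rw [h] at hg2; exact absurd hg2 hnc
  -- first impure vertex
  have hex : ∃ r, 1 ≤ r ∧ r ≤ C.F.lev x ∧ Sm G C.v a (C.F.anc x r) :=
    ⟨C.F.lev x, by omega, le_refl _, by rw [C.F.anc_self]; exact hxa⟩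
  set r := Nat.find hex with hr
  obtain ⟨hr1, hrL, hra⟩ := Nat.find_spec hex
  rw [← hr] at hr1 hrL hra
  have hrmin : ∀ m, 1 ≤ m → m < r → ¬ Sm G C.v a (C.F.anc x m) := by
    intro m g1 g2 g3
    exact Nat.find_min hex g2 ⟨g1, by omega, g3⟩
  have hr2 : 2 ≤ r := by
    by_contra hcon
    have : r = 1 := by omega
    rw [this, hxb] at hra
    exact hab (C.sm_one haA (C.in_nbr hbA) (C.lev_nbr hbA) hra).symm
  set w := C.F.anc x r with hw
  have hwI : C.In w := C.in_anc hxI r
  have hlw : C.F.lev w = r := C.F.lev_anc hrL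
  have hwanc : ∀ m, m ≤ r → C.F.anc w m = C.F.anc x m := fun m hm => C.F.anc_anc hm hrL
  have hw1 : C.F.anc w 1 = b := by rw [hwanc 1 hr1, hxb]
  have hwc : ¬ Sm G C.v c w := by
    intro h
    have := C.pref_c hP hcA (C.F.lev w - 1) w hwI (by omega) h
    exact hbc (hw1.symm.trans this)
  obtain ⟨u, huI, hwu, hlu, hua⟩ := C.sm_prev haA hwI (by omega) hra
  have hlu' : C.F.lev u + 1 = r := by omega
  -- the parent of w
  have hparw : C.F.par w = C.F.anc x (r - 1) := C.par_anc' (by omega) hrL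
  have hpa : ¬ Sm G C.v a (C.F.par w) := by
    rw [hparw]; exact hrmin (r - 1) (by omega) (by omega)
  have hlpar := C.F.lev_par w (by omega)
  have hparI := C.in_par hwI (by omega)
  have hpc : ¬ Sm G C.v c (C.F.par w) := fun h =>
    hwc (C.sm_step hcA hparI (C.F.adj_par w (by omega)).symm hlpar h)
  have huc : ¬ Sm G C.v c u := fun h => hwc (C.sm_step hcA huI hwu.symm (by omega) h)
  have hub : ¬ Sm G C.v b u := by
    intro h
    have g1 := hP w u (by omega) hwu (by omega)
    have g2 : pref G C.v a b c u = 2 := by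
      rw [pref, if_neg huc, if_pos ⟨hua, h⟩]
    have g3 : pref G C.v a b c (C.F.par w) ≤ 1 := by
      rw [pref, if_neg hpc, if_neg (fun hh => hpa hh.1)]
      split_ifs <;> omega
    have g4 : pref G C.v a b c u ≤ pref G C.v a b c (C.F.par w) := g1
    omega
  have hu1 : C.F.anc u 1 = a := by
    have g1 := C.sm_anc huI (by omega)
    rcases C.nbr_cases h3 (C.adj_anc_one huI (by omega)) with h | h | h
    · exact h
    · rw [h] at g1; exact absurd g1 hub
    · rw [h] at g1; exact absurd g1 huc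
  -- the chord
  set c0 : G.Dart := ⟨(u, w), hwu.symm⟩ with hc0
  have hc0T : ¬ C.F.IsTree c0 := by
    rintro (⟨g1, g2⟩ | ⟨g1, g2⟩)
    · have g3 : C.F.par u = w := g2
      have := C.F.lev_par u g1
      rw [g3] at this
      omega
    · have g3 : C.F.par w = u := g2
      rw [g3] at hpa
      exact hpa hua
  have hc0T' : ¬ C.F.IsTree c0.symm := fun h => hc0T (C.F.isTree_symm.1 h)
  have hc0I : C.In c0.fst := huI
  have hc0I' : C.In c0.symm.fst := hwI
  set q := C.idx c0 with hq
  set p := C.idx c0.symm with hp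
  have hqN : q < C.N := C.idx_lt hc0I
  have hpN : p < C.N := C.idx_lt hc0I'
  have hDq : C.D q = c0 := C.D_idx hc0I
  have hDp : C.D p = c0.symm := C.D_idx hc0I'
  have hνq1 : (C.D (q + 1)).fst = u := by
    rw [C.fst_D_succ, if_neg (by rw [hDq]; exact hc0T), hDq]
  have hνp1 : (C.D (p + 1)).fst = w := by
    rw [C.fst_D_succ, if_neg (by rw [hDp]; exact hc0T'), hDp]
    rfl
  -- blocks
  have hba := C.b_nbr (d := C.d0) rfl
  rw [C.idx_d0, ← ha] at hba
  have hbb := C.b_nbr hn1f
  rw [← hb] at hbb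
  have hbc' := C.b_nbr hn2f
  rw [← hc] at hbc'
  have blka := fun k (hk : k < C.N) => C.block (C.in_nbr haA) hla hk
  have blkb := fun k (hk : k < C.N) => C.block (C.in_nbr hbA) hlb hk
  have blkc := fun k (hk : k < C.N) => C.block (C.in_nbr hcA) hlc hk
  -- descendants of level-one vertices
  have hD1 : ∀ (g t : V), G.Adj C.v g → (C.F.Desc g t ↔ 1 ≤ C.F.lev t ∧ C.F.anc t 1 = g) := by
    intro g t hg
    unfold Forest.Desc
    rw [C.lev_nbr hg]
  have hqa : C.b a < q ∧ q ≤ C.e a := (blka q hqN).1 (by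
    rw [hDq, hD1 a _ haA]
    exact ⟨by show 1 ≤ C.F.lev u; omega, hu1⟩)
  have hpna : ¬ (C.b a < p ∧ p ≤ C.e a) := by
    rw [← blka p hpN, hDp, hD1 a _ haA]
    rintro ⟨-, g2⟩
    exact hab (g2.symm.trans hw1)
  have hpb : C.b b < p ∧ p ≤ C.e b := (blkb p hpN).1 (by
    rw [hDp, hD1 b _ hbA]
    exact ⟨by show 1 ≤ C.F.lev w; omega, hw1⟩)
  have hqnb : ¬ (C.b b < q ∧ q ≤ C.e b) := by
    rw [← blkb q hqN, hDq, hD1 b _ hbA]
    rintro ⟨-, g2⟩
    exact hab (hu1.symm.trans g2)
  have hiN : i < C.N := by omega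
  have hib : C.b b < i ∧ i ≤ C.e b := (blkb i hiN).1 (by
    rw [← hx, hD1 b _ hbA]
    exact ⟨by omega, hxb⟩)
  have hina : ¬ (C.b a < i ∧ i ≤ C.e a) := by
    rw [← blka i hiN, ← hx, hD1 a _ haA]
    rintro ⟨-, g2⟩
    exact hab (g2.symm.trans hxb)
  have hinc : ¬ (C.b c < i ∧ i ≤ C.e c) := by
    rw [← blkc i hiN, ← hx, hD1 c _ hcA]
    rintro ⟨-, g2⟩
    exact hbc (hxb.symm.trans g2)
  have hjc : C.b c < j ∧ j ≤ C.e c := (blkc j hjN).1 (by
    rw [← hy, hD1 c _ hcA]
    exact ⟨by omega, hyc⟩)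
  have hjnb : ¬ (C.b b < j ∧ j ≤ C.e b) := by
    rw [← blkb j hjN, ← hy, hD1 b _ hbA]
    rintro ⟨-, g2⟩
    exact hbc (g2.symm.trans hyc)
  have hqp : q < p := by omega
  have hne' : C.b b ≠ q := by
    intro h
    have g1 := C.D_b (C.in_nbr hbA) hlb
    rw [h, hDq] at g1
    apply hc0T
    rw [g1, C.F.isTree_symm]
    exact Or.inl (C.up_up hlb)
  have hbq : q < C.b b ∧ C.b b < p := by omega
  have hpi : p < i := by
    by_contra hcon
    have g1 := hcl c0.symm hc0I' hc0T' ⟨by omega, by omega⟩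
    rw [SimpleGraph.Dart.symm_symm] at g1
    omega
  have hbci : i ≤ C.b c := by omega
  -- noncrossing with the chord
  have hncp : ∀ d : G.Dart, C.In d.fst → ¬ C.F.IsTree d → (q < C.idx d ∧ C.idx d < p) →
      (q < C.idx d.symm ∧ C.idx d.symm < p) := by
    intro d hd hdT g1
    have hdc0 : d.edge ≠ c0.edge := by
      intro h
      rcases (SimpleGraph.dart_edge_eq_iff d c0).1 h with h | h
      · rw [h] at g1; omega
      · rw [h] at g1; omega
    exact (C.nc_pos hc0T hdT hdc0 hc0I hd hqp).1 g1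
  -- first region
  have hcl1 : C.Closed (q + 1) p := by
    intro d hd hdT g1
    have := hncp d hd hdT ⟨by omega, g1.2⟩
    omega
  have hu0 : C.F.anc u 0 = C.v := C.anc_zero huI
  have hw0 : C.F.anc w 0 = C.v := C.anc_zero hwI
  have hx0 : C.F.anc x 0 = C.v := C.anc_zero hxI
  have hy0 : C.F.anc y 0 = C.v := C.anc_zero hyI
  have huv : u ≠ C.v := by
    intro h
    have := C.lev_v
    rw [← h] at this
    omega
  have hνp : (C.D p).fst = w := by rw [hDp]; rfl
  have hq1p : q + 1 < p := by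
    rcases Nat.lt_or_ge (q + 1) p with h | h
    · exact h
    · exfalso
      have g1 : q + 1 = p := by omega
      rw [g1, hνp] at hνq1
      exact hwu.ne hνq1
  have H1 := C.cfgI (i := q + 1) (j := p) hq1p hpN hcl1 (by rw [hνq1]; exact huv) (k := 0)
    (Nat.zero_le _) (Nat.zero_le _) (by rw [hνq1, hνp, hu0, hw0]) (by
      rw [hνq1, hνp]
      intro m g1 g2 g3 g4
      have := C.anc_eq_of_le (m' := 1) (by omega) g2 g3 g4
      rw [hu1, hw1] at this
      exact hab this)
  rw [hνq1, hνp] at H1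
  have hadj_cases := fun (g : V) (hg : G.Adj C.v g) => C.nbr_cases h3 hg
  have hS1 : CanSave G C.v (Cfg.Good G C.v 0 (C.F.anc u) (C.F.anc w) (C.F.lev u) (C.F.lev w)
      (fun d => q + 1 ≤ C.idx d ∧ C.idx d < p)) := by
    apply H1.ii h3 (by omega) (by omega)
    · intro d hd hPE hR
      have hda := C.adj_of_fst hd
      rcases hadj_cases d.snd hda with h | h | h
      · apply hPE
        exact Or.inl ⟨0, le_refl _, by omega, Or.inl ⟨by rw [hu0, hd], by rw [h]; exact hu1.symm⟩⟩
      · apply hPE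
        exact Or.inr ⟨0, le_refl _, by omega, Or.inl ⟨by rw [hw0, hd], by rw [h]; exact hw1.symm⟩⟩
      · have g1 : d = n2 := C.eq_of_snd hd hn2f h
        rw [g1, ← hbc'] at hR
        omega
    · intro d d' hd hd' hPE hPE' hR hR'
      exfalso
      rw [hwanc 1 hr1] at hd
      have g1 : ¬ PE 0 (C.F.anc x) (C.F.anc y) (C.F.lev x) (C.F.lev y) d := by
        rintro (⟨m, -, g2, (⟨g4, g5⟩ | ⟨g4, g5⟩)⟩ | ⟨m, -, g2, (⟨g4, g5⟩ | ⟨g4, g5⟩)⟩)
        · have g6 : m = 1 := by
            have g7 := C.dist_anc hxI (m := m) (by omega)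
            rw [← g4, hd, C.dist_anc hxI (by omega)] at g7
            exact g7.symm
          subst g6
          apply hPE
          refine Or.inr ⟨1, by omega, by omega, Or.inl ⟨?_, ?_⟩⟩
          · rw [hwanc 1 hr1]; exact hd
          · rw [hwanc 2 hr2]; exact g5
        · have g6 : m + 1 = 1 := by
            have g7 := C.dist_anc hxI (m := m + 1) (by omega)
            rw [← g5, hd, C.dist_anc hxI (by omega)] at g7
            exact g7.symm
          have g8 : m = 0 := by omega
          subst g8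
          apply hPE
          refine Or.inr ⟨0, by omega, by omega, Or.inr ⟨?_, ?_⟩⟩
          · rw [hwanc 0 (by omega)]; exact g4
          · rw [hwanc (0 + 1) (by omega)]; exact hd
        · have g6 : m = 1 := by
            have g7 := C.dist_anc hyI (m := m) (by omega)
            rw [← g4, hd, C.dist_anc hxI (by omega)] at g7
            exact g7.symm
          subst g6
          exact hne (hd.symm.trans g4)
        · have g6 : m + 1 = 1 := by
            have g7 := C.dist_anc hyI (m := m + 1) (by omega)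
            rw [← g5, hd, C.dist_anc hxI (by omega)] at g7
            exact g7.symm
          rw [g6] at g5
          exact hne (hd.symm.trans g5)
      have g2 := hX1 d hd g1
      omega
  -- second region
  set X' : ℕ → V := fun m => if m < r then C.F.anc u m else C.F.anc x m with hX'
  have hX'1 : ∀ m, m < r → X' m = C.F.anc u m := fun m hm => if_pos hm
  have hX'2 : ∀ m, r ≤ m → X' m = C.F.anc x m := fun m hm => if_neg (by omega)
  have hXu : X' (r - 1) = u := by
    rw [hX'1 _ (by omega), show r - 1 = C.F.lev u by omega, C.F.anc_self]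
  have hXw : X' r = w := hX'2 r (le_refl _)
  set P : ℕ → Prop := fun k => k < q ∨ (p < k ∧ k < i) ∨ j ≤ k with hPdef
  have hPE0 : PE 0 X' (C.F.anc y) (C.F.lev x) (C.F.lev y) c0 := by
    refine Or.inl ⟨r - 1, by omega, by omega, Or.inl ⟨hXu.symm, ?_⟩⟩
    rw [Nat.sub_add_cancel hr1, hXw]
  have hreg := C.region P (k := 0) (X := X') (Y := C.F.anc y) (L := C.F.lev x)
    (M := C.F.lev y) ?_ ?_ ?_ ?_
  rotate_left
  · intro n hn hPn
    have h1 : n + 1 = q ∨ n = p ∨ n + 1 = i ∨ n + 1 = j := by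
      by_contra hcon
      apply hPn
      simp only [hPdef]
      omega
    rcases h1 with h1 | h1 | h1 | h1
    · left
      refine ⟨r - 1, by omega, by omega, ?_⟩
      rw [h1, hDq, hXu]
    · left
      refine ⟨r, by omega, hrL, ?_⟩
      rw [h1, hνp1, hXw]
    · left
      refine ⟨C.F.lev x, by omega, le_refl _, ?_⟩
      rw [h1, hX'2 _ hrL, C.F.anc_self]
    · right
      refine ⟨C.F.lev y, by omega, le_refl _, ?_⟩
      rw [h1, C.F.anc_self]
  · intro _
    left
    exact ⟨0, le_refl _, Nat.zero_le _, by rw [hX'1 0 (by omega), hu0]⟩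
  · intro t ht h0 hPt
    have hbe := C.b_lt_e ht h0
    have hetN := C.e_lt ht h0
    have hut := C.block ht h0 (k := q) (by omega)
    have hwt := C.block ht h0 (k := p + 1) (by omega)
    have hxt := C.block ht h0 (k := i) (by omega)
    have hyt := C.block ht h0 (k := j) hjN
    rw [hDq] at hut
    rw [hνp1] at hwt
    rw [← hx] at hxt
    rw [← hy] at hyt
    have hut' : C.F.Desc t u ↔ C.b t < q ∧ q ≤ C.e t := hut
    have hcases : C.F.Desc t u ∨ C.F.Desc t y ∨ (C.F.Desc t x ∧ ¬ C.F.Desc t w) ∨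
        (C.F.Desc t w ∧ ¬ C.F.Desc t x) := by
      rw [hut', hwt, hxt, hyt]
      by_contra hcon
      apply hPt
      simp only [hPdef]
      omega
    rcases hcases with ⟨g1, g2⟩ | ⟨g1, g2⟩ | ⟨⟨g1, g2⟩, g3⟩ | ⟨g1, g2⟩
    · left
      refine ⟨C.F.lev t - 1, by omega, by omega, ?_, ?_⟩
      · rw [Nat.sub_add_cancel (by omega), hX'1 _ (by omega)]
        exact g2.symm
      · rw [hX'1 _ (by omega), ← C.par_anc' (by omega) g1, g2]
    · right
      refine ⟨C.F.lev t - 1, by omega, by omega, ?_, ?_⟩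
      · rw [Nat.sub_add_cancel (by omega)]
        exact g2.symm
      · rw [← C.par_anc' (by omega) g1, g2]
    · left
      have hrt : r < C.F.lev t := by
        by_contra hcon
        apply g3
        refine ⟨by omega, ?_⟩
        rw [hwanc _ (by omega)]
        exact g2
      refine ⟨C.F.lev t - 1, by omega, by omega, ?_, ?_⟩
      · rw [Nat.sub_add_cancel (by omega), hX'2 _ (by omega)]
        exact g2.symm
      · rw [hX'2 _ (by omega), ← C.par_anc' (by omega) g1, g2]
    · exfalso
      apply g2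
      exact C.F.desc_trans g1 (C.F.desc_anc hrL)
  · intro d hd hdT hPE hPd
    have hd1 : d ≠ c0 := fun h => hPE (h ▸ hPE0)
    have hd2 : d ≠ c0.symm := fun h => hPE (h ▸ PE_symm.2 hPE0)
    have hd1' : C.idx d.symm ≠ p := by
      intro h
      have g1 : d.symm = c0.symm := C.idx_inj (C.in_symm hd) hc0I' h
      exact hd1 (by rw [← SimpleGraph.Dart.symm_symm d, g1, SimpleGraph.Dart.symm_symm])
    have hd2' : C.idx d.symm ≠ q := by
      intro h
      have g1 : d.symm = c0 := C.idx_inj (C.in_symm hd) hc0I h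
      exact hd2 (by rw [← SimpleGraph.Dart.symm_symm d, g1])
    by_contra hcon
    simp only [hPdef] at hPd hcon
    have hdT' : ¬ C.F.IsTree d.symm := fun h => hdT (C.F.isTree_symm.1 h)
    have g1 := hcl d.symm (C.in_symm hd) hdT'
    have g2 := hncp d.symm (C.in_symm hd) hdT'
    rw [SimpleGraph.Dart.symm_symm] at g1 g2
    by_cases g3 : i ≤ C.idx d.symm ∧ C.idx d.symm < j
    · have := g1 g3
      omega
    · have := g2 ⟨by omega, by omega⟩
      omega
  have H2 : Cfg G C.v 0 X' (C.F.anc y) (C.F.lev x) (C.F.lev y) (fun d => P (C.idx d)) := by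
    exact {
      XY := by rw [hX'1 0 (by omega), hu0, hy0]
      kL := Nat.zero_le _
      kM := Nat.zero_le _
      adjX := by
        intro m _ g2
        rcases Nat.lt_trichotomy (m + 1) r with g3 | g3 | g3
        · rw [hX'1 m (by omega), hX'1 (m + 1) g3]
          exact C.F.adj_anc (by omega)
        · have g4 : m = r - 1 := by omega
          rw [g3, hXw, g4, hXu]
          exact hwu.symm
        · rw [hX'2 m (by omega), hX'2 (m + 1) (by omega)]
          exact C.F.adj_anc g2
      adjY := fun m _ h2 => C.F.adj_anc h2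
      distX := by
        intro m _ g2
        by_cases g3 : m < r
        · rw [hX'1 m g3]; exact C.dist_anc huI (by omega)
        · rw [hX'2 m (by omega)]; exact C.dist_anc hxI g2
      distY := fun m _ h2 => C.dist_anc hyI h2
      reachX := by
        intro m _ g2
        by_cases g3 : m < r
        · rw [hX'1 m g3]; exact C.in_anc huI m
        · rw [hX'2 m (by omega)]; exact C.in_anc hxI m
      reachY := fun m _ _ => C.in_anc hyI m
      disj := by
        intro m g1 g2 g3
        by_cases g4 : m < r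
        · rw [hX'1 m g4]
          intro g5
          have := C.anc_eq_of_le (m' := 1) (by omega) (by omega) g3 g5
          rw [hu1, hyc] at this
          exact hac this
        · rw [hX'2 m (by omega)]
          intro g5
          exact hne (C.anc_eq_of_le (m' := 1) (by omega) g2 g3 g5)
      h1 := hreg.1
      h2 := hreg.2 }
  have hX'11 : X' 1 = a := by rw [hX'1 1 (by omega), hu1]
  have hS2 : CanSave G C.v (Cfg.Good G C.v 0 X' (C.F.anc y) (C.F.lev x) (C.F.lev y)
      (fun d => P (C.idx d))) := by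
    apply H2.ii h3 (by omega) (by omega)
    · intro d hd hPE hR
      have hda := C.adj_of_fst hd
      rcases hadj_cases d.snd hda with h | h | h
      · apply hPE
        exact Or.inl ⟨0, le_refl _, by omega, Or.inl ⟨by rw [hX'1 0 (by omega), hu0, hd], by
          rw [h]; exact hX'11.symm⟩⟩
      · have g1 : d = n1 := C.eq_of_snd hd hn1f h
        have g2 : C.idx d = C.b b := by rw [g1, ← hbb]
        simp only [hPdef, g2] at hR
        omega
      · apply hPE
        exact Or.inr ⟨0, le_refl _, by omega, Or.inl ⟨by rw [hy0, hd], by rw [h]; exact hyc.symm⟩⟩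
    · intro d d' hd hd' hPE hPE' hR hR'
      exfalso
      have g1 : ¬ PE 0 (C.F.anc x) (C.F.anc y) (C.F.lev x) (C.F.lev y) d := by
        rintro (⟨m, -, g2, (⟨g4, g5⟩ | ⟨g4, g5⟩)⟩ | g)
        · have g6 : m = 1 := by
            have g7 := C.dist_anc hxI (m := m) (by omega)
            rw [← g4, hd, C.dist_anc hyI (by omega)] at g7
            exact g7.symm
          subst g6
          exact hne (g4.symm.trans hd)
        · have g6 : m + 1 = 1 := by
            have g7 := C.dist_anc hxI (m := m + 1) (by omega)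
            rw [← g5, hd, C.dist_anc hyI (by omega)] at g7
            exact g7.symm
          rw [g6] at g5
          exact hne (g5.symm.trans hd)
        · exact hPE (Or.inr g)
      have g2 := hY1 d hd g1
      simp only [hPdef] at hR
      omega
  have c1 := C.count' (P := fun k => q + 1 ≤ k ∧ k < p) H1 hS1
  have c2 := C.count' (P := P) H2 hS2
  have c3 : C.wt (fun k => ¬ (i ≤ k ∧ k < j)) ≤
      C.wt (fun k => q + 1 ≤ k ∧ k < p) + C.wt P := by
    have e1 : C.wt (fun k => ¬ (i ≤ k ∧ k < j)) ≤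
        C.wt (fun k => ((q + 1 ≤ k ∧ k < p) ∨ P k) ∨ (k = q ∨ k = p)) := by
      apply C.wt_mono
      intro k hk
      simp only [hPdef]
      omega
    have e2 : C.wt (fun k => ((q + 1 ≤ k ∧ k < p) ∨ P k) ∨ (k = q ∨ k = p)) ≤
        C.wt (fun k => (q + 1 ≤ k ∧ k < p) ∨ P k) + C.wt (fun k => k = q ∨ k = p) :=
      C.wt_or_le (fun k => (q + 1 ≤ k ∧ k < p) ∨ P k) (fun k => k = q ∨ k = p)
    have e3 : C.wt (fun k => (q + 1 ≤ k ∧ k < p) ∨ P k) ≤
        C.wt (fun k => q + 1 ≤ k ∧ k < p) + C.wt P :=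
      C.wt_or_le (fun k => q + 1 ≤ k ∧ k < p) P
    have e4 : C.wt (fun k => k = q ∨ k = p) ≤ C.wt (fun k => k = q) + C.wt (fun k => k = p) :=
      C.wt_or_le (fun k => k = q) (fun k => k = p)
    have e5 := C.wt_chord hqN (by rw [hDq]; exact hc0T)
    have e6 := C.wt_chord hpN (by rw [hDp]; exact hc0T')
    omega
  omega

end Ctx

end Pool.Agent.H41.Fire
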