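import Pool.Agent.H41.Fire.FinalCase

/-! The main bound. -/

namespace Pool.Agent.H41.Fire

open Classical Equiv.Perm

set_option linter.unusedSectionVars false

universe u

variable {V : Type u} [Fintype V] {G : SimpleGraph V}

namespace Ctx

variable (C : Ctx G)

theorem lev_ne_zero {x : V} (hx : C.In x) (h : x ≠ C.v) : C.F.lev x ≠ 0 := fun h0 =>
  h (C.eq_v hx h0)

theorem bound (h3 : Sub3 G) (hP : C.Pref C.d0.snd (C.R.nxt C.d0).snd
    (C.R.nxt (C.R.nxt C.d0)).snd) : Fintype.card V ≤ 18 * sn G C.v + 4 := by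
  have hcard := C.card_out
  have hout := C.out_le_sn
  have h2 : 2 ≤ Fintype.card V := by
    have h1 : 1 ≤ C.nodes.card := by
      rw [Finset.one_le_card]
      refine ⟨C.d0.snd, C.mem_nodes.2 ⟨C.in_nbr C.d0.adj, ?_⟩⟩
      rw [C.lev_nbr C.d0.adj]
      omega
    omega
  have hs1 := one_le_sn (G := G) C.v h2
  rcases Nat.lt_or_ge 6 C.nodes.card with hW | hW
  swap
  · omega
  obtain ⟨i, j, hij, hjN, hcl, hxv, hyv, hw1, hw2⟩ := C.balanced hW
  have hi0 : i ≠ 0 := by
    rintro rfl
    exact hxv rfl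
  have hxI := C.in_D i
  have hyI := C.in_D j
  have hlx := C.lev_ne_zero hxI hxv
  have hly := C.lev_ne_zero hyI hyv
  -- it is enough to save one of the two sides
  have fin1 : ∀ (k : ℕ) (X Y : ℕ → V) (L M : ℕ),
      Cfg G C.v k X Y L M (fun d => i ≤ C.idx d ∧ C.idx d < j) →
      CanSave G C.v (Cfg.Good G C.v k X Y L M (fun d => i ≤ C.idx d ∧ C.idx d < j)) →
      Fintype.card V ≤ 18 * sn G C.v + 4 := by
    intro k X Y L M H hs
    have := C.count' (P := fun k => i ≤ k ∧ k < j) H hs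
    omega
  have fin2 : ∀ (k : ℕ) (X Y : ℕ → V) (L M : ℕ),
      Cfg G C.v k X Y L M (fun d => ¬ (i ≤ C.idx d ∧ C.idx d < j)) →
      CanSave G C.v (Cfg.Good G C.v k X Y L M (fun d => ¬ (i ≤ C.idx d ∧ C.idx d < j))) →
      Fintype.card V ≤ 18 * sn G C.v + 4 := by
    intro k X Y L M H hs
    have := C.count' (P := fun k => ¬ (i ≤ k ∧ k < j)) H hs
    omega
  obtain ⟨k, hkx, hky, hk, hk'⟩ := C.exists_lca _ _ hxI hyI
  have H := C.cfgI hij hjN hcl hxv hkx hky hk hk'
  rcases Nat.eq_zero_or_pos k with hk0 | hk0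
  swap
  · apply fin1 _ _ _ _ _ H
    apply H.caseA h3 hk0
    refine ⟨C.d0, rfl, ?_⟩
    rw [C.idx_d0]
    omega
  subst hk0
  have hne := hk' 1 (by omega) (by omega) (by omega)
  have hx0 := C.anc_zero hxI
  have hy0 := C.anc_zero hyI
  -- a nonpath dart at the root gives a third neighbour
  have hthird : ∀ dc : G.Dart, dc.fst = C.v →
      ¬ PE 0 (C.F.anc (C.D i).fst) (C.F.anc (C.D j).fst) (C.F.lev (C.D i).fst)
        (C.F.lev (C.D j).fst) dc →
      G.Adj C.v dc.snd ∧ dc.snd ≠ C.F.anc (C.D i).fst 1 ∧ dc.snd ≠ C.F.anc (C.D j).fst 1 := by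
    intro dc h1 h2
    refine ⟨C.adj_of_fst h1, ?_, ?_⟩
    · intro h
      exact h2 (Or.inl ⟨0, le_refl _, by omega, Or.inl ⟨by rw [h1, hx0], h⟩⟩)
    · intro h
      exact h2 (Or.inr ⟨0, le_refl _, by omega, Or.inl ⟨by rw [h1, hy0], h⟩⟩)
  have himp : ∀ w : V, C.In w → (∃ g, G.Adj C.v g ∧ g ≠ C.F.anc w 1 ∧
      G.dist g (C.F.anc w (C.F.lev w)) + 1 = G.dist C.v (C.F.anc w (C.F.lev w))) →
      ∃ g, G.Adj C.v g ∧ g ≠ C.F.anc w 1 ∧ Sm G C.v g w := by
    rintro w hw ⟨g, h1, h2, h4⟩
    rw [C.F.anc_self] at h4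
    exact ⟨g, h1, h2, h4⟩
  by_cases hQ : ∃ dc : G.Dart, dc.fst = C.v ∧
      ¬ PE 0 (C.F.anc (C.D i).fst) (C.F.anc (C.D j).fst) (C.F.lev (C.D i).fst)
        (C.F.lev (C.D j).fst) dc ∧ (i ≤ C.idx dc ∧ C.idx dc < j)
  · obtain ⟨dc, hdc, hdcP, hdcR⟩ := hQ
    obtain ⟨hz1, hz2, hz3⟩ := hthird dc hdc hdcP
    have hdcU : ∀ d : G.Dart, d.fst = C.v → ¬ PE 0 (C.F.anc (C.D i).fst) (C.F.anc (C.D j).fst)
        (C.F.lev (C.D i).fst) (C.F.lev (C.D j).fst) d → d = dc := by
      intro d hd hdP
      obtain ⟨hy1, hy2, hy3⟩ := hthird d hd hdP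
      have hxA := C.adj_anc_one hxI (by omega)
      have hyA := C.adj_anc_one hyI (by omega)
      apply h3 ⟨(C.v, C.F.anc (C.D i).fst 1), hxA⟩ ⟨(C.v, C.F.anc (C.D j).fst 1), hyA⟩ d dc
      · exact hdc.symm
      · exact hdc.symm
      · rw [hd, hdc]
      · intro h; exact hne (congrArg (fun d : G.Dart => d.snd) h)
      · intro h; exact hy2 (congrArg (fun d : G.Dart => d.snd) h).symm
      · intro h; exact hz2 (congrArg (fun d : G.Dart => d.snd) h).symm
      · intro h; exact hy3 (congrArg (fun d : G.Dart => d.snd) h).symm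
      · intro h; exact hz3 (congrArg (fun d : G.Dart => d.snd) h).symm
    rcases H.compl.core h3 (by omega) (by omega) (by
        intro d hd hdP hdR
        rw [hdcU d hd hdP] at hdR
        exact hdR hdcR) with h | h | ⟨-, -, -, -, hX, hY, -⟩
    · exact fin2 _ _ _ _ _ H.compl h
    · apply fin1 _ _ _ _ _ H
      have h5 : (fun d : G.Dart => ¬ ¬ (i ≤ C.idx d ∧ C.idx d < j)) =
          (fun d : G.Dart => i ≤ C.idx d ∧ C.idx d < j) := by
        funext d
        exact propext not_not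
      rw [h5] at h
      exact h
    · exfalso
      obtain ⟨hxb, hyc, hab, hac, hbc⟩ := C.classify h3 hP hij hjN (by omega) (by omega) hne
        ⟨dc.snd, hz1, hz2, hz3⟩ (himp _ hxI hX) (himp _ hyI hY)
      have h6 : dc = C.d0 := by
        apply C.eq_of_snd hdc rfl
        rcases C.nbr_cases h3 hz1 with h | h | h
        · exact h
        · exact absurd (h.trans hxb.symm) hz2
        · exact absurd (h.trans hyc.symm) hz3
      rw [h6, C.idx_d0] at hdcR
      omega
  · rcases H.core h3 (by omega) (by omega) (by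
        intro d hd hdP hdR
        exact hQ ⟨d, hd, hdP, hdR⟩) with h | h | ⟨hL2, hM2, hX1, hY1, hX, hY, dc, hdc, hdcP⟩
    · exact fin1 _ _ _ _ _ H h
    · exact fin2 _ _ _ _ _ H.compl h
    · have := C.final_case h3 hP hij hjN hcl hL2 hM2 hne ⟨dc.snd, hthird dc hdc hdcP⟩ hX1 hY1
        (himp _ hxI hX) (himp _ hyI hY)
      omega

end Ctx

/-- maximum degree at most three -/
theorem sub3_of_degree (hd : ∀ w : V, Nat.card (G.neighborSet w) ≤ 3) : Sub3 G := by
  intro d1 d2 d3 d4 h1 h2 h3 n12 n13 n14 n23 n24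
  by_contra n34
  have hadj : ∀ d : G.Dart, d.fst = d4.fst → d.snd ∈ G.neighborSet d4.fst := by
    intro d h
    have := d.adj
    rw [h] at this
    exact this
  have hinj : ∀ d e : G.Dart, d.fst = d4.fst → e.fst = d4.fst → d ≠ e → d.snd ≠ e.snd := by
    intro d e hd he hne h
    apply hne
    apply SimpleGraph.Dart.ext
    exact Prod.ext (hd.trans he.symm) h
  have hsub : ({d1.snd, d2.snd, d3.snd, d4.snd} : Finset V).card ≤
      Nat.card (G.neighborSet d4.fst) := by
    rw [← Nat.card_eq_finsetCard]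
    apply Nat.card_le_card_of_injective (fun z : ({d1.snd, d2.snd, d3.snd, d4.snd} : Finset V) =>
      (⟨z.1, by
        have hz := z.2
        simp only [Finset.mem_insert, Finset.mem_singleton] at hz
        rcases hz with h | h | h | h
        · rw [h]; exact hadj d1 h1
        · rw [h]; exact hadj d2 h2
        · rw [h]; exact hadj d3 h3
        · rw [h]; exact hadj d4 rfl⟩ : G.neighborSet d4.fst))
    intro y z hyz
    apply Subtype.ext
    exact congrArg (fun t : G.neighborSet d4.fst => t.1) hyz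
  have hcard : ({d1.snd, d2.snd, d3.snd, d4.snd} : Finset V).card = 4 := by
    rw [Finset.card_insert_of_notMem, Finset.card_insert_of_notMem, Finset.card_insert_of_notMem,
      Finset.card_singleton]
    · simp only [Finset.mem_singleton]
      exact hinj d3 d4 h3 rfl n34
    · simp only [Finset.mem_insert, Finset.mem_singleton, not_or]
      exact ⟨hinj d2 d3 h2 h3 n23, hinj d2 d4 h2 rfl n24⟩
    · simp only [Finset.mem_insert, Finset.mem_singleton, not_or]
      exact ⟨hinj d1 d2 h1 h2 n12, hinj d1 d3 h1 h3 n13, hinj d1 d4 h1 rfl n14⟩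
  have := hd d4.fst
  omega

/-- **Main theorem.** -/
theorem main (hG : IsPlanar G) (hd : ∀ w : V, Nat.card (G.neighborSet w) ≤ 3)
    (h2 : 2 ≤ Fintype.card V) (v : V) : Fintype.card V ≤ 18 * sn G v + 4 := by
  obtain ⟨R, hR⟩ := hG
  have h3 := sub3_of_degree hd
  by_cases hv : ∃ w, G.Adj v w
  · obtain ⟨w, hw⟩ := hv
    set d0 : G.Dart := ⟨(v, w), hw⟩ with hd0
    obtain ⟨F, hF1, hF2⟩ := exists_forest G v
      (pref G v d0.snd (R.nxt d0).snd (R.nxt (R.nxt d0)).snd)
    let C : Ctx G := {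
      R := R
      F := F
      d0 := d0
      nc := fun c d hc hd hcd => F.noncross R hR hc hd hcd
      hlev := hF1 }
    exact C.bound h3 hF2
  · -- isolated vertex
    have hb := barrier (G := G) (v := v) (E := ({v} : Set V)) (τ := fun a => G.dist v a)
      (q := fun _ => none) rfl (by simp) (by
        intro a ha b hb hab
        exfalso
        rw [Set.mem_singleton_iff] at ha hb
        rw [ha, hb] at hab
        exact hab.ne rfl) (by intro t w h; simp at h) (by
        intro a ha b _ hab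
        exfalso
        rw [Set.mem_singleton_iff] at ha
        rw [ha] at hab
        exact hv ⟨b, hab⟩)
    have hb' : CanSave G v (((Finset.univ.erase v : Finset V)) : Set V) := by
      refine hb.mono ?_
      intro w hw
      simp only [Finset.coe_erase, Finset.coe_univ, Set.mem_sdiff, Set.mem_univ, true_and] at hw
      exact hw
    have := hb'.card_le
    rw [Finset.card_erase_of_mem (Finset.mem_univ v), Finset.card_univ] at this
    omega

end Pool.Agent.H41.Fire
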