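import Pool.Agent.H41.Fire.StratIV
import Pool.Agent.H41.Fire.Cut

/-! Regions of the contour as configurations. -/

namespace Pool.Agent.H41.Fire

open Classical Equiv.Perm

set_option linter.unusedSectionVars false

universe u

variable {V : Type u} [Fintype V] {G : SimpleGraph V}

namespace Ctx

variable (C : Ctx G)

theorem par_anc' {x : V} {m : ℕ} (h0 : m ≠ 0) (h : m ≤ C.F.lev x) :
    C.F.par (C.F.anc x m) = C.F.anc x (m - 1) := by
  obtain ⟨m', rfl⟩ : ∃ m', m = m' + 1 := ⟨m - 1, by omega⟩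
  rw [C.F.par_anc (by omega)]
  rfl

/-- a tree dart is the dart to the parent or its reverse -/
theorem tree_cases {d : G.Dart} (h : C.F.IsTree d) :
    (C.F.lev d.fst ≠ 0 ∧ d = C.up d.fst) ∨ (C.F.lev d.snd ≠ 0 ∧ d = (C.up d.snd).symm) := by
  rcases h with h | h
  · exact Or.inl ⟨h.1, C.eq_up h⟩
  · right
    have h1 : d.symm = C.up d.snd := C.eq_up h
    exact ⟨h.1, by rw [← h1, SimpleGraph.Dart.symm_symm]⟩

/-- General criterion for `h1` and `h2` of a configuration. -/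
theorem region (P : ℕ → Prop) {k : ℕ} {X Y : ℕ → V} {L M : ℕ}
    (hstep : ∀ n, n + 1 < C.N → ¬ (P n ↔ P (n + 1)) →
      (∃ m, k ≤ m ∧ m ≤ L ∧ (C.D (n + 1)).fst = X m) ∨
      (∃ m, k ≤ m ∧ m ≤ M ∧ (C.D (n + 1)).fst = Y m))
    (hwrap : ¬ (P (C.N - 1) ↔ P 0) →
      (∃ m, k ≤ m ∧ m ≤ L ∧ C.v = X m) ∨ (∃ m, k ≤ m ∧ m ≤ M ∧ C.v = Y m))
    (htree : ∀ t, C.In t → C.F.lev t ≠ 0 → ¬ (P (C.b t) ↔ P (C.e t)) →
      (∃ m, k ≤ m ∧ m < L ∧ t = X (m + 1) ∧ C.F.par t = X m) ∨
      (∃ m, k ≤ m ∧ m < M ∧ t = Y (m + 1) ∧ C.F.par t = Y m))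
    (hchord : ∀ d : G.Dart, C.In d.fst → ¬ C.F.IsTree d → ¬ PE k X Y L M d →
      (P (C.idx d) → P (C.idx d.symm))) :
    (∀ d : G.Dart, G.Reachable C.v d.fst → ¬ PE k X Y L M d → P (C.idx d) → P (C.idx d.symm)) ∧
    (∀ w, G.Reachable C.v w → (∀ m, k ≤ m → m ≤ L → w ≠ X m) → (∀ m, k ≤ m → m ≤ M → w ≠ Y m) →
      ∀ d d' : G.Dart, d.fst = w → d'.fst = w → P (C.idx d) → P (C.idx d')) := by
  have hT : ∀ t, C.In t → C.F.lev t ≠ 0 → ¬ PE k X Y L M (C.up t) → (P (C.b t) ↔ P (C.e t)) := by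
    intro t ht h0 hPE
    by_contra hcon
    apply hPE
    rcases htree t ht h0 hcon with ⟨m, h1, h2, h3, h4⟩ | ⟨m, h1, h2, h3, h4⟩
    · exact Or.inl ⟨m, h1, h2, Or.inr ⟨by rw [C.up_snd h0]; exact h4, by
        rw [C.up_fst h0]; exact h3⟩⟩
    · exact Or.inr ⟨m, h1, h2, Or.inr ⟨by rw [C.up_snd h0]; exact h4, by
        rw [C.up_fst h0]; exact h3⟩⟩
  have key : ∀ d : G.Dart, C.In d.fst → ¬ PE k X Y L M d → C.F.IsTree d →
      (P (C.idx d) ↔ P (C.idx d.symm)) := by
    intro d hd hPE hTree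
    rcases C.tree_cases hTree with ⟨h0, h1⟩ | ⟨h0, h1⟩
    · have h2 := hT d.fst hd h0 (by rw [← h1]; exact hPE)
      unfold b e at h2
      rw [← h1] at h2
      exact h2.symm
    · have h3 : C.up d.snd = d.symm := by
        have : d.symm = C.up d.snd := by
          conv_lhs => rw [h1]
          rw [SimpleGraph.Dart.symm_symm]
        exact this.symm
      have h2 := hT d.snd (C.in_adj hd d.adj) h0 (by
        rw [h3]
        exact fun h => hPE (PE_symm.1 h))
      unfold b e at h2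
      rw [h3, SimpleGraph.Dart.symm_symm] at h2
      exact h2
  refine ⟨?_, ?_⟩
  · intro d hd hPE hP
    by_cases hTree : C.F.IsTree d
    · exact (key d hd hPE hTree).1 hP
    · exact hchord d hd hTree hPE hP
  · intro w hw hX hY d d' hd hd' hP
    refine (C.unsplit P w hw ?_ ?_ ?_ d d' hd hd').1 hP
    · intro n hn hnw
      by_contra hcon
      rcases hstep n hn hcon with ⟨m, h1, h2, h3⟩ | ⟨m, h1, h2, h3⟩
      · exact hX m h1 h2 (hnw.symm.trans h3)
      · exact hY m h1 h2 (hnw.symm.trans h3)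
    · intro hvw
      by_contra hcon
      rcases hwrap hcon with ⟨m, h1, h2, h3⟩ | ⟨m, h1, h2, h3⟩
      · exact hX m h1 h2 (hvw.symm.trans h3)
      · exact hY m h1 h2 (hvw.symm.trans h3)
    · intro d1 hd1 hTree
      apply key d1 (by rw [hd1]; exact hw) _ hTree
      rintro (⟨m, h1, h2, (⟨h3, h4⟩ | ⟨h3, h4⟩)⟩ | ⟨m, h1, h2, (⟨h3, h4⟩ | ⟨h3, h4⟩)⟩)
      · exact hX m h1 (by omega) (hd1.symm.trans h3)
      · exact hX (m + 1) (by omega) (by omega) (hd1.symm.trans h4)
      · exact hY m h1 (by omega) (hd1.symm.trans h3)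
      · exact hY (m + 1) (by omega) (by omega) (hd1.symm.trans h4)

/-- ancestors of two vertices, equal at level `m`, are equal below -/
theorem anc_eq_of_le {x y : V} {m m' : ℕ} (h : m' ≤ m) (hx : m ≤ C.F.lev x) (hy : m ≤ C.F.lev y)
    (he : C.F.anc x m = C.F.anc y m) : C.F.anc x m' = C.F.anc y m' := by
  rw [← C.F.anc_anc h hx, ← C.F.anc_anc h hy, he]

theorem anc_zero {x : V} (hx : C.In x) : C.F.anc x 0 = C.v := by
  apply C.eq_v
  · exact SimpleGraph.Reachable.trans hx (C.F.reachable_anc x 0)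
  · exact C.F.lev_anc (Nat.zero_le _)

theorem in_anc {x : V} (hx : C.In x) (m : ℕ) : C.In (C.F.anc x m) :=
  SimpleGraph.Reachable.trans hx (C.F.reachable_anc x m)

theorem dist_anc {x : V} (hx : C.In x) {m : ℕ} (h : m ≤ C.F.lev x) :
    G.dist C.v (C.F.anc x m) = m := by
  have h1 := C.hlev (C.F.anc x m) (C.in_anc hx m)
  rw [C.F.lev_anc h] at h1
  exact h1.symm

theorem lev_eq {x : V} (hx : C.In x) : C.F.lev x = G.dist C.v x := C.hlev x hx

/-- last common level -/
theorem exists_lca (x y : V) (hx : C.In x) (hy : C.In y) :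
    ∃ k, k ≤ C.F.lev x ∧ k ≤ C.F.lev y ∧ C.F.anc x k = C.F.anc y k ∧
      ∀ m, k < m → m ≤ C.F.lev x → m ≤ C.F.lev y → C.F.anc x m ≠ C.F.anc y m := by
  set Q : ℕ → Prop := fun m => m ≤ C.F.lev x ∧ m ≤ C.F.lev y ∧ C.F.anc x m = C.F.anc y m with hQ
  have h0 : Q 0 := ⟨Nat.zero_le _, Nat.zero_le _, by rw [C.anc_zero hx, C.anc_zero hy]⟩
  set k := Nat.findGreatest Q (C.F.lev x) with hk
  have hk1 : Q k := Nat.findGreatest_spec (Nat.zero_le _) h0
  refine ⟨k, hk1.1, hk1.2.1, hk1.2.2, ?_⟩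
  intro m h1 h2 h3 h4
  have : m ≤ k := Nat.le_findGreatest h2 ⟨h2, h3, h4⟩
  omega

/-- A closed interval of the contour is a configuration. -/
theorem cfgI {i j : ℕ} (hij : i < j) (hjN : j < C.N) (hcl : C.Closed i j)
    (hxv : (C.D i).fst ≠ C.v) {k : ℕ}
    (hkx : k ≤ C.F.lev (C.D i).fst) (hky : k ≤ C.F.lev (C.D j).fst)
    (hk : C.F.anc (C.D i).fst k = C.F.anc (C.D j).fst k)
    (hk' : ∀ m, k < m → m ≤ C.F.lev (C.D i).fst → m ≤ C.F.lev (C.D j).fst →
      C.F.anc (C.D i).fst m ≠ C.F.anc (C.D j).fst m) :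
    Cfg G C.v k (C.F.anc (C.D i).fst) (C.F.anc (C.D j).fst) (C.F.lev (C.D i).fst)
      (C.F.lev (C.D j).fst) (fun d => i ≤ C.idx d ∧ C.idx d < j) := by
  set x := (C.D i).fst with hx
  set y := (C.D j).fst with hy
  have hxI : C.In x := C.in_D i
  have hyI : C.In y := C.in_D j
  have hreg := C.region (fun n => i ≤ n ∧ n < j) (k := k) (X := C.F.anc x) (Y := C.F.anc y)
    (L := C.F.lev x) (M := C.F.lev y) ?_ ?_ ?_ ?_
  · exact {
      XY := hk
      kL := hkx
      kM := hky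
      adjX := fun m _ h2 => C.F.adj_anc h2
      adjY := fun m _ h2 => C.F.adj_anc h2
      distX := fun m _ h2 => C.dist_anc hxI h2
      distY := fun m _ h2 => C.dist_anc hyI h2
      reachX := fun m _ _ => C.in_anc hxI m
      reachY := fun m _ _ => C.in_anc hyI m
      disj := hk'
      h1 := hreg.1
      h2 := hreg.2 }
  · intro n hn hP
    have h1 : n + 1 = i ∨ n + 1 = j := by
      by_contra hcon
      apply hP
      constructor <;> intro h <;> constructor <;> omega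
    rcases h1 with h1 | h1
    · left
      exact ⟨C.F.lev x, hkx, le_refl _, by rw [h1, C.F.anc_self]⟩
    · right
      exact ⟨C.F.lev y, hky, le_refl _, by rw [h1, C.F.anc_self]⟩
  · intro hP
    exfalso
    apply hP
    have hi0 : i ≠ 0 := by
      rintro rfl
      exact hxv rfl
    constructor <;> intro h <;> constructor <;> omega
  · intro t ht h0 hP
    have hbe := C.b_lt_e ht h0
    have hxt := C.block ht h0 (k := i) (by omega)
    have hyt := C.block ht h0 (k := j) hjN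
    rw [← hx] at hxt
    rw [← hy] at hyt
    have hcases : (C.F.Desc t x ∧ ¬ C.F.Desc t y) ∨ (C.F.Desc t y ∧ ¬ C.F.Desc t x) := by
      rw [hxt, hyt]
      by_contra hcon
      apply hP
      constructor <;> intro h <;> constructor <;> omega
    rcases hcases with ⟨⟨g1, g2⟩, g3⟩ | ⟨⟨g1, g2⟩, g3⟩
    · left
      have hkt : k < C.F.lev t := by
        by_contra hcon
        apply g3
        refine ⟨by omega, ?_⟩
        rw [← C.anc_eq_of_le (x := x) (y := y) (m := k) (by omega) hkx hky hk]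
        exact g2
      refine ⟨C.F.lev t - 1, by omega, by omega, ?_, ?_⟩
      · rw [Nat.sub_add_cancel (by omega)]
        exact g2.symm
      · rw [← C.par_anc' (by omega) g1, g2]
    · right
      have hkt : k < C.F.lev t := by
        by_contra hcon
        apply g3
        refine ⟨by omega, ?_⟩
        rw [C.anc_eq_of_le (x := x) (y := y) (m := k) (by omega) hkx hky hk]
        exact g2
      refine ⟨C.F.lev t - 1, by omega, by omega, ?_, ?_⟩
      · rw [Nat.sub_add_cancel (by omega)]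
        exact g2.symm
      · rw [← C.par_anc' (by omega) g1, g2]
  · intro d hd hT _ h
    exact hcl d hd hT h

end Ctx

end Pool.Agent.H41.Fire
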