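import Pool.Agent.H41.Fire.Count
import Pool.Agent.H41.Fire.Core

/-! The darts at the root, the choice of parents. -/

namespace Pool.Agent.H41.Fire

open Classical Equiv.Perm

set_option linter.unusedSectionVars false

universe u

variable {V : Type u} [Fintype V] {G : SimpleGraph V}

/-- there is a geodesic from `v` to `p` through `g` -/
def Sm (G : SimpleGraph V) (v g p : V) : Prop := G.dist g p + 1 = G.dist v p

/-- the preference for parents -/
noncomputable def pref (G : SimpleGraph V) (v a b c p : V) : ℕ :=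
  if Sm G v c p then 3 else if Sm G v a p ∧ Sm G v b p then 2 else if Sm G v b p then 1 else 0

theorem root_darts (R : Rotation G) (h3 : Sub3 G) {d0 d : G.Dart} (hd : d.fst = d0.fst) :
    d = d0 ∨ d = R.nxt d0 ∨ d = R.nxt (R.nxt d0) := by
  have hfin : Finite G.Dart := Finite.of_injective _ SimpleGraph.Dart.toProd_injective
  obtain ⟨k, hk⟩ := (R.sameCycle d0 d hd.symm).exists_nat_pow_eq
  by_contra hcon
  push Not at hcon
  obtain ⟨n1, n2, n3⟩ := hcon
  by_cases h1 : R.nxt d0 = d0
  · have : ∀ k : ℕ, (R.nxt ^ k) d0 = d0 := by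
      intro k
      induction k with
      | zero => rfl
      | succ k ih => rw [pow_succ', Equiv.Perm.mul_apply, ih, h1]
    exact n1 (by rw [← hk, this])
  · by_cases h2 : R.nxt (R.nxt d0) = d0
    · have : ∀ k : ℕ, (R.nxt ^ k) d0 = d0 ∨ (R.nxt ^ k) d0 = R.nxt d0 := by
        intro k
        induction k with
        | zero => exact Or.inl rfl
        | succ k ih =>
          rw [pow_succ', Equiv.Perm.mul_apply]
          rcases ih with ih | ih
          · rw [ih]; exact Or.inr rfl
          · rw [ih]; exact Or.inl h2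
      rcases this k with h | h
      · exact n1 (by rw [← hk, h])
      · exact n2 (by rw [← hk, h])
    · apply n3
      refine (h3 d0 (R.nxt d0) (R.nxt (R.nxt d0)) d hd.symm ?_ ?_ (Ne.symm h1) (Ne.symm h2)
        (Ne.symm n1) ?_ (Ne.symm n2)).symm
      · rw [R.fst_nxt, hd]
      · rw [R.fst_nxt, R.fst_nxt, hd]
      · intro h
        exact h1 (R.nxt.injective h).symm

namespace Ctx

variable (C : Ctx G)

theorem adj_of_fst {d : G.Dart} (h : d.fst = C.v) : G.Adj C.v d.snd := by
  have := d.adj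
  rwa [h] at this

theorem in_nbr {g : V} (hg : G.Adj C.v g) : C.In g := hg.reachable

theorem lev_nbr {g : V} (hg : G.Adj C.v g) : C.F.lev g = 1 := by
  rw [C.lev_eq (C.in_nbr hg)]
  exact SimpleGraph.dist_eq_one_iff_adj.2 hg

theorem par_nbr {g : V} (hg : G.Adj C.v g) : C.F.par g = C.v := by
  have h1 := C.lev_nbr hg
  apply C.eq_v (C.in_par (C.in_nbr hg) (by omega))
  have := C.F.lev_par g (by omega)
  omega

theorem anc_nbr {g : V} (hg : G.Adj C.v g) : C.F.anc g 1 = g := by
  have := C.F.anc_self g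
  rwa [C.lev_nbr hg] at this

theorem adj_anc_one {w : V} (hw : C.In w) (h : 1 ≤ C.F.lev w) : G.Adj C.v (C.F.anc w 1) := by
  have := C.F.adj_anc (x := w) (m := 0) (by omega)
  rwa [C.anc_zero hw] at this

theorem b_nbr {d : G.Dart} (h : d.fst = C.v) : C.b d.snd = C.idx d := by
  have hg := C.adj_of_fst h
  have h1 : (C.up d.snd).symm = d := by
    have h0 : C.F.lev d.snd ≠ 0 := by rw [C.lev_nbr hg]; omega
    apply SimpleGraph.Dart.ext
    apply Prod.ext
    · show (C.up d.snd).snd = d.fst
      rw [C.up_snd h0, C.par_nbr hg, h]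
    · show (C.up d.snd).fst = d.snd
      rw [C.up_fst h0]
  rw [b, h1]

theorem eq_of_snd {d e : G.Dart} (hd : d.fst = C.v) (he : e.fst = C.v) (h : d.snd = e.snd) :
    d = e := by
  apply SimpleGraph.Dart.ext
  exact Prod.ext (hd.trans he.symm) h

theorem sm_step {g p x : V} (hg : G.Adj C.v g) (hp : C.In p) (hpx : G.Adj p x)
    (hl : C.F.lev p + 1 = C.F.lev x) (h : Sm G C.v g p) : Sm G C.v g x := by
  unfold Sm at h ⊢
  rw [← C.lev_eq hp] at h
  rw [← C.lev_eq (C.in_adj hp hpx)]
  have h1 : G.dist g x ≤ G.dist g p + 1 :=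
    dist_le_succ (hg.symm.reachable.trans hp) hpx
  have h2 : G.dist C.v x ≤ G.dist C.v g + G.dist g x := hg.reachable.dist_triangle_left x
  rw [SimpleGraph.dist_eq_one_iff_adj.2 hg, ← C.lev_eq (C.in_adj hp hpx)] at h2
  omega

theorem sm_prev {g x : V} (hg : G.Adj C.v g) (hx : C.In x) (hl : 2 ≤ C.F.lev x)
    (h : Sm G C.v g x) : ∃ p, C.In p ∧ G.Adj x p ∧ C.F.lev p + 1 = C.F.lev x ∧ Sm G C.v g p := by
  unfold Sm at h ⊢
  rw [← C.lev_eq hx] at h
  obtain ⟨p, hp1, hp2, hp3⟩ := exists_prev (hg.symm.reachable.trans hx : G.Reachable g x)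
    (by omega)
  have hpI : C.In p := C.in_adj hx hp1
  refine ⟨p, hpI, hp1, ?_, ?_⟩
  · have h2 : G.dist C.v p ≤ G.dist C.v g + G.dist g p := hg.reachable.dist_triangle_left p
    rw [SimpleGraph.dist_eq_one_iff_adj.2 hg, ← C.lev_eq hpI] at h2
    have h4 : G.dist C.v x ≤ G.dist C.v p + 1 := dist_le_succ hpI hp1.symm
    rw [← C.lev_eq hpI, ← C.lev_eq hx] at h4
    omega
  · have h2 : G.dist C.v p ≤ G.dist C.v g + G.dist g p := hg.reachable.dist_triangle_left p
    rw [SimpleGraph.dist_eq_one_iff_adj.2 hg] at h2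
    have h4 : G.dist C.v x ≤ G.dist C.v p + 1 := dist_le_succ hpI hp1.symm
    rw [← C.lev_eq hx] at h4
    omega

theorem sm_one {g x : V} (hg : G.Adj C.v g) (hx : C.In x) (hl : C.F.lev x = 1)
    (h : Sm G C.v g x) : x = g := by
  unfold Sm at h
  rw [← C.lev_eq hx, hl] at h
  have h1 : G.dist g x = 0 := by omega
  exact (((hg.symm.reachable.trans hx : G.Reachable g x).dist_eq_zero_iff).1 h1).symm

theorem sm_anc {w : V} (hw : C.In w) (h : 1 ≤ C.F.lev w) : Sm G C.v (C.F.anc w 1) w := by
  have hg := C.adj_anc_one hw h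
  have key : ∀ m, 1 ≤ m → m ≤ C.F.lev w → Sm G C.v (C.F.anc w 1) (C.F.anc w m) := by
    intro m h1
    induction m, h1 using Nat.le_induction with
    | base =>
      intro _
      unfold Sm
      rw [SimpleGraph.dist_self, SimpleGraph.dist_eq_one_iff_adj.2 hg]
    | succ m h1 ih =>
      intro h2
      refine C.sm_step hg (C.in_anc hw m) (C.F.adj_anc (by omega)) ?_ (ih (by omega))
      rw [C.F.lev_anc (by omega), C.F.lev_anc h2]
  have := key (C.F.lev w) h (le_refl _)
  rwa [C.F.anc_self] at this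

/-- the parents are chosen by preference -/
def Pref (a b c : V) : Prop := ∀ x p, C.F.lev x ≠ 0 → G.Adj x p → C.F.lev p + 1 = C.F.lev x →
  pref G C.v a b c p ≤ pref G C.v a b c (C.F.par x)

theorem pref_c {a b c : V} (hP : C.Pref a b c) (hc : G.Adj C.v c) : ∀ (n : ℕ) (w : V), C.In w →
    C.F.lev w = n + 1 → Sm G C.v c w → C.F.anc w 1 = c := by
  intro n
  induction n with
  | zero =>
    intro w hw hl h
    have := C.sm_one hc hw hl h
    rw [this, C.anc_nbr hc]
  | succ n ih =>
    intro w hw hl h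
    obtain ⟨p, hpI, hp1, hp2, hp3⟩ := C.sm_prev hc hw (by omega) h
    have h1 := hP w p (by omega) hp1 hp2
    have h2 : pref G C.v a b c p = 3 := by rw [pref, if_pos hp3]
    rw [h2] at h1
    have h3 : Sm G C.v c (C.F.par w) := by
      by_contra hcon
      rw [pref, if_neg hcon] at h1
      split_ifs at h1 <;> omega
    have h4 := C.F.lev_par w (by omega)
    have h5 := ih (C.F.par w) (C.in_par hw (by omega)) (by omega) h3
    rw [C.F.anc_par (by omega)] at h5
    exact h5

theorem pref_b {a b c : V} (hP : C.Pref a b c) (hb : G.Adj C.v b) (hc : G.Adj C.v c) :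
    ∀ (n : ℕ) (w : V), C.In w → C.F.lev w = n + 1 → Sm G C.v b w → ¬ Sm G C.v c w →
      C.F.anc w 1 = b := by
  intro n
  induction n with
  | zero =>
    intro w hw hl h _
    have := C.sm_one hb hw hl h
    rw [this, C.anc_nbr hb]
  | succ n ih =>
    intro w hw hl h hnc
    obtain ⟨p, hpI, hp1, hp2, hp3⟩ := C.sm_prev hb hw (by omega) h
    have h1 := hP w p (by omega) hp1 hp2
    have hpc : ¬ Sm G C.v c p := fun hh => hnc (C.sm_step hc hpI hp1.symm hp2 hh)
    have h2 : 1 ≤ pref G C.v a b c p := by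
      rw [pref, if_neg hpc]
      split_ifs <;> omega
    have h4 := C.F.lev_par w (by omega)
    have hparI := C.in_par hw (by omega)
    have h5 : ¬ Sm G C.v c (C.F.par w) := fun hh =>
      hnc (C.sm_step hc hparI (C.F.adj_par w (by omega)).symm h4 hh)
    have h3 : Sm G C.v b (C.F.par w) := by
      by_contra hcon
      have h6 : pref G C.v a b c (C.F.par w) = 0 := by
        rw [pref, if_neg h5, if_neg (fun hh => hcon hh.2), if_neg hcon]
      omega
    have h7 := ih (C.F.par w) hparI (by omega) h3 h5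
    rw [C.F.anc_par (by omega)] at h7
    exact h7

end Ctx

end Pool.Agent.H41.Fire
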