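import Pool.Agent.H41.Fire.StratII

/-! Strategy (A): the two paths meet at a vertex `z` of level `k ≥ 1`. Strategy (iii). -/

namespace Pool.Agent.H41.Fire

open Classical

set_option linter.unusedSectionVars false

universe u

variable {V : Type u} {G : SimpleGraph V}

namespace Cfg

variable {v : V} {k : ℕ} {X Y : ℕ → V} {L M : ℕ} {R : G.Dart → Prop}

theorem caseA (H : Cfg G v k X Y L M R) (h3 : Sub3 G) (hk : 1 ≤ k)
    (hv : ∃ d : G.Dart, d.fst = v ∧ ¬ R d) :
    CanSave G v (Good G v k X Y L M R) := by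
  have hkL := H.kL
  have hkM := H.kM
  set S : Set V := {w | (∃ m, (m - k) % 2 = 0 ∧ k ≤ m ∧ m ≤ L ∧ w = X m) ∨
    (∃ m, (m - k) % 2 = 0 ∧ k < m ∧ m ≤ M ∧ w = Y m)} with hS
  set E : Set V := Ex G v k X Y L M R S ∅ with hE
  have hXS : ∀ m, (m - k) % 2 = 0 → k ≤ m → m ≤ L → X m ∈ S := fun m h1 h0 h2 =>
    Or.inl ⟨m, h1, h0, h2, rfl⟩
  have hYS : ∀ m, (m - k) % 2 = 0 → k ≤ m → m ≤ M → Y m ∈ S := by
    intro m h1 h2 h4
    by_cases h5 : m = k
    · subst h5
      rw [← H.XY]
      exact hXS _ h1 h2 H.kL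
    · exact Or.inr ⟨m, h1, by omega, h4, rfl⟩
  have hSE : ∀ w ∈ S, w ∉ E := fun w hw hwE => hwE.2.1 hw
  have hvX : ∀ m, k ≤ m → m ≤ L → X m ≠ v := by
    intro m h1 h2 h4
    have := H.distX m h1 h2
    rw [h4, SimpleGraph.dist_self] at this
    omega
  have hvY : ∀ m, k ≤ m → m ≤ M → Y m ≠ v := by
    intro m h1 h2 h4
    have := H.distY m h1 h2
    rw [h4, SimpleGraph.dist_self] at this
    omega
  have hvS : v ∉ S := by
    rintro (⟨m, h1, h0, h2, h4⟩ | ⟨m, h1, h2, h4, h5⟩)
    · exact hvX m h0 h2 h4.symm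
    · exact hvY m (by omega) h4 h5.symm
  refine H.gen S ∅ (fun t => if t = 1 then some (X k) else if t < k + 1 then none else
      if (t - k) % 2 = 0 then (if t ≤ L then some (X t) else
      if t = L + 1 then exn k X Y L M R E S (X L) else none) else
      (if t + 1 ≤ M then some (Y (t + 1)) else
      if t = M then exn k X Y L M R E S (Y M) else none)) (fun w => G.dist v w) hvS
      (Or.inr ?_) ?_ SimpleGraph.dist_self ?_ ?_ ?_ ?_ ?_
  · obtain ⟨d, hd, hR⟩ := hv
    refine ⟨d, hd, ?_, hR⟩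
    rintro (⟨m, h1, h2, (⟨h4, -⟩ | ⟨-, h4⟩)⟩ | ⟨m, h1, h2, (⟨h4, -⟩ | ⟨-, h4⟩)⟩)
    · exact hvX m h1 (by omega) (h4.symm.trans hd)
    · exact hvX (m + 1) (by omega) (by omega) (h4.symm.trans hd)
    · exact hvY m h1 (by omega) (h4.symm.trans hd)
    · exact hvY (m + 1) (by omega) (by omega) (h4.symm.trans hd)
  · intro w hw
    exact absurd hw (Set.notMem_empty w)
  · intro a ha b _ hab
    exact H.dist_le_of_adj ha hab
  · intro t w h
    split_ifs at h with c1 c2 c3 c4 c5 c6 c7
    · simp only [Option.some.injEq] at h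
      rw [← h]
      exact hSE _ (hXS k (by simp) (le_refl _) H.kL)
    · simp only [Option.some.injEq] at h
      rw [← h]
      exact hSE _ (hXS t c3 (by omega) c4)
    · exact exn_not h
    · simp only [Option.some.injEq] at h
      rw [← h]
      exact hSE _ (hYS (t + 1) (by omega) (by omega) c6)
    · exact exn_not h
  · rintro a ha b (⟨m, h1, h0, h2, rfl⟩ | ⟨m, h1, h2, h4, rfl⟩) hab
    · by_cases hmk : m = k
      · subst hmk
        exact ⟨1, le_refl _, by omega, by rw [if_pos rfl]⟩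
      · refine ⟨m, by omega, ?_, ?_⟩
        · rw [← H.distX m h0 h2]
          exact H.dist_le_of_adj ha hab
        · rw [if_neg (by omega), if_neg (by omega), if_pos h1, if_pos h2]
    · refine ⟨m - 1, by omega, ?_, ?_⟩
      · have := H.dist_le_of_adj ha hab
        rw [H.distY m (by omega) h4] at this
        omega
      · rw [if_neg (by omega), if_neg (by omega), if_neg (by omega), if_pos (by omega)]
        congr 2
        omega
  · rintro d (⟨m, h0, h2, (⟨h4, h5⟩ | ⟨h4, h5⟩)⟩ | ⟨m, h0, h2, (⟨h4, h5⟩ | ⟨h4, h5⟩)⟩) hd1 _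
    · by_cases hm : (m + 1 - k) % 2 = 0
      · rw [h5]; exact hXS _ hm (by omega) (by omega)
      · exact absurd hd1 (hSE _ (by rw [h4]; exact hXS m (by omega) (by omega) (by omega)))
    · by_cases hm : (m - k) % 2 = 0
      · rw [h4]; exact hXS _ hm (by omega) (by omega)
      · exact absurd hd1 (hSE _ (by rw [h5]; exact hXS (m + 1) (by omega) (by omega) (by omega)))
    · by_cases hm : (m + 1 - k) % 2 = 0
      · rw [h5]; exact hYS _ hm (by omega) (by omega)
      · exact absurd hd1 (hSE _ (by rw [h4]; exact hYS m (by omega) (by omega) (by omega)))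
    · by_cases hm : (m - k) % 2 = 0
      · rw [h4]; exact hYS _ hm (by omega) (by omega)
      · exact absurd hd1 (hSE _ (by rw [h5]; exact hYS (m + 1) (by omega) (by omega) (by omega)))
  · intro d hdE hP hR hn1 hn2 hpath
    obtain ⟨d', g1, g2, g3⟩ : ∃ d' : G.Dart, d'.fst = d.fst ∧ ¬ PE k X Y L M d' ∧ ¬ R d' := by
      rcases hdE.2.2 with h | h
      · exact absurd h (Set.notMem_empty _)
      · exact h
    rcases hpath with ⟨m, h0, h2, h4⟩ | ⟨m, h0, h2, h4⟩
    · by_cases hm : (m - k) % 2 = 0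
      · exact absurd hdE (hSE _ (by rw [h4]; exact hXS m hm h0 h2))
      · by_cases hmL : m = L
        · subst hmL
          refine ⟨m + 1, by omega, ?_, ?_⟩
          · rw [h4, H.distX m h0 (le_refl _)]
          · rw [if_neg (by omega), if_neg (by omega), if_pos (by omega), if_neg (by omega),
              if_pos rfl]
            exact H.exn_endX h3 (by omega) h4 hn1 hn2 hP hR (g1.trans h4) g2 g3
        · have := H.D1 h3 (by omega) (by omega) h4 (g1.trans h4) hP g2
          exact absurd (this ▸ hR) g3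
    · by_cases hm : (m - k) % 2 = 0
      · exact absurd hdE (hSE _ (by rw [h4]; exact hYS m hm h0 h2))
      · by_cases hmM : m = M
        · subst hmM
          refine ⟨m, by omega, ?_, ?_⟩
          · rw [h4, H.distY m h0 (le_refl _)]
            omega
          · rw [if_neg (by omega), if_neg (by omega), if_neg (by omega), if_neg (by omega),
              if_pos rfl]
            exact H.exn_endY h3 (by omega) h4 hn1 hn2 hP hR (g1.trans h4) g2 g3
        · have := H.D1Y h3 (by omega) (by omega) h4 (g1.trans h4) hP g2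
          exact absurd (this ▸ hR) g3

theorem iii (H : Cfg G v 0 X Y L M R) (h3 : Sub3 G) (hL : 1 ≤ L) (hM : 1 ≤ M)
    (dc : G.Dart) (hdc : dc.fst = v) (hdcP : ¬ PE 0 X Y L M dc)
    (hdcU : ∀ d : G.Dart, d.fst = v → ¬ PE 0 X Y L M d → d = dc)
    (hX1 : ∀ d : G.Dart, d.fst = X 1 → ¬ PE 0 X Y L M d → ¬ R d)
    (hY1 : ∀ d : G.Dart, d.fst = Y 1 → ¬ PE 0 X Y L M d → ¬ R d)
    (hX2 : 2 ≤ L → ∀ d d' : G.Dart, d.fst = X 2 → d'.fst = X 2 → ¬ PE 0 X Y L M d →
      ¬ PE 0 X Y L M d' → R d → R d' → (L = 2 ∧ d = d')) :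
    CanSave G v (Good G v 0 X Y L M R) := by
  set c := dc.snd with hc
  have hcadj : G.Adj v c := by have := dc.adj; rw [hdc] at this; exact this
  have hcd : G.dist v c = 1 := SimpleGraph.dist_eq_one_iff_adj.2 hcadj
  have hcX1 : c ≠ X 1 := fun h => hdcP (Or.inl ⟨0, le_refl _, hL, Or.inl ⟨by rw [hdc, H.X0], h⟩⟩)
  have hcY1 : c ≠ Y 1 := fun h => hdcP (Or.inr ⟨0, le_refl _, hM, Or.inl ⟨by rw [hdc, H.Y0], h⟩⟩)
  set S : Set V := {w | w = c ∨ (∃ m, m % 2 = 1 ∧ 3 ≤ m ∧ m ≤ L ∧ w = X m) ∨
    (∃ m, m % 2 = 0 ∧ 1 ≤ m ∧ m ≤ M ∧ w = Y m)} with hS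
  set F : Set V := {w | w = v ∨ w = X 1 ∨ w = Y 1 ∨ (2 ≤ L ∧ w = X 2)} with hF
  set E : Set V := Ex G v 0 X Y L M R S F with hE
  have hXS : ∀ m, m % 2 = 1 → 3 ≤ m → m ≤ L → X m ∈ S := fun m h1 h0 h2 =>
    Or.inr (Or.inl ⟨m, h1, h0, h2, rfl⟩)
  have hYS : ∀ m, m % 2 = 0 → 1 ≤ m → m ≤ M → Y m ∈ S := fun m h1 h2 h4 =>
    Or.inr (Or.inr ⟨m, h1, h2, h4, rfl⟩)
  have hSE : ∀ w ∈ S, w ∉ E := fun w hw hwE => hwE.2.1 hw
  have hvX : ∀ m, 1 ≤ m → m ≤ L → X m ≠ v := by
    intro m h1 h2 h4
    have := H.distX m (Nat.zero_le _) h2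
    rw [h4, SimpleGraph.dist_self] at this
    omega
  have hvY : ∀ m, 1 ≤ m → m ≤ M → Y m ≠ v := by
    intro m h1 h2 h4
    have := H.distY m (Nat.zero_le _) h2
    rw [h4, SimpleGraph.dist_self] at this
    omega
  have hvS : v ∉ S := by
    rintro (h | ⟨m, h1, h0, h2, h4⟩ | ⟨m, h1, h2, h4, h5⟩)
    · rw [← h, SimpleGraph.dist_self] at hcd
      omega
    · exact hvX m (by omega) h2 h4.symm
    · exact hvY m (by omega) h4 h5.symm
  have hX1S : X 1 ∉ S := by
    rintro (h | ⟨m, h1, h0, h2, h4⟩ | ⟨m, h1, h2, h4, h5⟩)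
    · exact hcX1 h.symm
    · have := H.injX (Nat.zero_le _) hL (Nat.zero_le _) h2 h4
      omega
    · have := H.injXY (Nat.zero_le _) hL (Nat.zero_le _) h4 h5
      omega
  have hY1S : Y 1 ∉ S := by
    rintro (h | ⟨m, h1, h0, h2, h4⟩ | ⟨m, h1, h2, h4, h5⟩)
    · exact hcY1 h.symm
    · have := H.injXY (Nat.zero_le _) h2 (Nat.zero_le _) hM h4.symm
      omega
    · have := H.swap.injX (Nat.zero_le _) h4 (Nat.zero_le _) hM h5.symm
      omega
  have hX2S : 2 ≤ L → X 2 ∉ S := by
    rintro hL2 (h | ⟨m, h1, h0, h2, h4⟩ | ⟨m, h1, h2, h4, h5⟩)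
    · have := H.distX 2 (Nat.zero_le _) hL2
      rw [h, hcd] at this
      omega
    · have := H.injX (Nat.zero_le _) hL2 (Nat.zero_le _) h2 h4
      omega
    · have := H.injXY (Nat.zero_le _) hL2 (Nat.zero_le _) h4 h5
      omega
  have hvE : v ∈ E := ⟨SimpleGraph.Reachable.refl _, hvS, Or.inl (Or.inl rfl)⟩
  have hX1E : X 1 ∈ E := ⟨H.reachX 1 (Nat.zero_le _) hL, hX1S, Or.inl (Or.inr (Or.inl rfl))⟩
  have hY1E : Y 1 ∈ E :=
    ⟨H.reachY 1 (Nat.zero_le _) hM, hY1S, Or.inl (Or.inr (Or.inr (Or.inl rfl)))⟩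
  have hX2E : 2 ≤ L → X 2 ∈ E := fun h =>
    ⟨H.reachX 2 (Nat.zero_le _) h, hX2S h, Or.inl (Or.inr (Or.inr (Or.inr ⟨h, rfl⟩)))⟩
  have hXF : ∀ m, 3 ≤ m → m ≤ L → X m ∉ F := by
    rintro m h1 h2 (h4 | h4 | h4 | ⟨h4, h5⟩)
    · exact hvX m (by omega) h2 h4
    · have := H.injX (Nat.zero_le _) h2 (Nat.zero_le _) hL h4
      omega
    · have := H.injXY (Nat.zero_le _) h2 (Nat.zero_le _) hM h4
      omega
    · have := H.injX (Nat.zero_le _) h2 (Nat.zero_le _) h4 h5
      omega
  have hYF : ∀ m, 2 ≤ m → m ≤ M → Y m ∉ F := by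
    rintro m h1 h2 (h4 | h4 | h4 | ⟨h4, h5⟩)
    · exact hvY m (by omega) h2 h4
    · have := H.injXY (Nat.zero_le _) hL (Nat.zero_le _) h2 h4.symm
      omega
    · have := H.swap.injX (Nat.zero_le _) h2 (Nat.zero_le _) hM h4
      omega
    · have := H.injXY (Nat.zero_le _) h4 (Nat.zero_le _) h2 h5.symm
      omega
  refine H.gen S F (fun t => if t = 1 then some c else
      if t % 2 = 1 then (if t ≤ L then some (X t) else
      if t = L + 1 then exn 0 X Y L M R E S (X L) else none) else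
      (if t = 0 then none else if t ≤ M then some (Y t) else
      if t = M + 1 then exn 0 X Y L M R E S (Y M) else none)) (fun w => G.dist v w) hvS
      (Or.inl (Or.inl rfl)) ?_ SimpleGraph.dist_self ?_ ?_ ?_ ?_ ?_
  · rintro w (rfl | rfl | rfl | ⟨h, rfl⟩)
    · exact Or.inl ⟨0, le_refl _, Nat.zero_le _, H.X0.symm⟩
    · exact Or.inl ⟨1, Nat.zero_le _, hL, rfl⟩
    · exact Or.inr ⟨1, Nat.zero_le _, hM, rfl⟩
    · exact Or.inl ⟨2, Nat.zero_le _, h, rfl⟩
  · intro a ha b _ hab
    exact H.dist_le_of_adj ha hab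
  · intro t w h
    split_ifs at h with c0 c1 c2 c3 c4 c5 c6
    · simp only [Option.some.injEq] at h
      rw [← h]
      exact hSE _ (Or.inl rfl)
    · simp only [Option.some.injEq] at h
      rw [← h]
      exact hSE _ (hXS t c1 (by omega) c2)
    · exact exn_not h
    · simp only [Option.some.injEq] at h
      rw [← h]
      exact hSE _ (hYS t (by omega) (by omega) c5)
    · exact exn_not h
  · rintro a ha b (rfl | ⟨m, h1, h0, h2, rfl⟩ | ⟨m, h1, h2, h4, rfl⟩) hab
    · exact ⟨1, le_refl _, by omega, by rw [if_pos rfl]⟩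
    · refine ⟨m, by omega, ?_, ?_⟩
      · rw [← H.distX m (Nat.zero_le _) h2]
        exact H.dist_le_of_adj ha hab
      · rw [if_neg (by omega), if_pos h1, if_pos h2]
    · refine ⟨m, by omega, ?_, ?_⟩
      · rw [← H.distY m (Nat.zero_le _) h4]
        exact H.dist_le_of_adj ha hab
      · rw [if_neg (by omega), if_neg (by omega), if_neg (by omega), if_pos h4]
  · rintro d (⟨m, -, h2, (⟨h4, h5⟩ | ⟨h4, h5⟩)⟩ | ⟨m, -, h2, (⟨h4, h5⟩ | ⟨h4, h5⟩)⟩) hd1 hd2
    · by_cases hm0 : m = 0
      · subst hm0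
        exact absurd hX1E (by rw [h5] at hd2; exact hd2)
      · by_cases hm1 : m = 1
        · subst hm1
          exact absurd (hX2E (by omega)) (by rw [h5] at hd2; exact hd2)
        · by_cases hm : (m + 1) % 2 = 1
          · rw [h5]; exact hXS _ hm (by omega) (by omega)
          · exact absurd hd1 (hSE _ (by rw [h4]; exact hXS m (by omega) (by omega) (by omega)))
    · by_cases hm0 : m = 0
      · subst hm0
        rw [h4, H.X0] at hd2
        exact absurd hvE hd2
      · by_cases hm1 : m = 1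
        · subst hm1
          exact absurd hX1E (by rw [h4] at hd2; exact hd2)
        · by_cases hm2 : m = 2
          · subst hm2
            exact absurd (hX2E (by omega)) (by rw [h4] at hd2; exact hd2)
          · by_cases hm : m % 2 = 1
            · rw [h4]; exact hXS _ hm (by omega) (by omega)
            · exact absurd hd1
                (hSE _ (by rw [h5]; exact hXS (m + 1) (by omega) (by omega) (by omega)))
    · by_cases hm : (m + 1) % 2 = 0
      · rw [h5]; exact hYS _ hm (by omega) (by omega)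
      · by_cases hm0 : m = 0
        · subst hm0
          exact absurd hY1E (by rw [h5] at hd2; exact hd2)
        · exact absurd hd1 (hSE _ (by rw [h4]; exact hYS m (by omega) (by omega) (by omega)))
    · by_cases hm : m % 2 = 0
      · by_cases hm0 : m = 0
        · subst hm0
          rw [h4, H.Y0] at hd2
          exact absurd hvE hd2
        · rw [h4]; exact hYS _ hm (by omega) (by omega)
      · exact absurd hd1 (hSE _ (by rw [h5]; exact hYS (m + 1) (by omega) (by omega) (by omega)))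
  · intro d hdE hP hR hn1 hn2 hpath
    have hnot : d.fst ∉ F → ∃ d' : G.Dart, d'.fst = d.fst ∧ ¬ PE 0 X Y L M d' ∧ ¬ R d' := by
      intro hF'
      rcases hdE.2.2 with h | h
      · exact absurd h hF'
      · exact h
    have hdv : d.fst ≠ v := by
      intro h
      apply hn2
      rw [hdcU d h hP]
      exact Or.inl rfl
    rcases hpath with ⟨m, -, h2, h4⟩ | ⟨m, -, h2, h4⟩
    · by_cases hm0 : m = 0
      · subst hm0
        exact absurd (h4.trans H.X0) hdv
      · by_cases hm1 : m = 1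
        · subst hm1
          exact absurd hR (hX1 d h4 hP)
        · by_cases hm2 : m = 2
          · subst hm2
            have hL2 : L = 2 := (hX2 h2 d d h4 h4 hP hP hR hR).1
            refine ⟨3, by omega, ?_, ?_⟩
            · rw [h4, H.distX 2 (Nat.zero_le _) h2]
            · rw [if_neg (by omega), if_pos (by omega), if_neg (by omega), if_pos (by omega)]
              apply exn_eq (h4.trans (by rw [hL2])) hn1 hn2 hP hR
              intro d' k1 _ _ k4 k5
              exact (hX2 h2 d' d (k1.trans (by rw [hL2])) h4 k4 hP k5 hR).2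
          · by_cases hm : m % 2 = 1
            · exact absurd hdE (hSE _ (by rw [h4]; exact hXS m hm (by omega) h2))
            · obtain ⟨d', g1, g2, g3⟩ := hnot (by rw [h4]; exact hXF m (by omega) h2)
              by_cases hmL : m = L
              · subst hmL
                refine ⟨m + 1, by omega, ?_, ?_⟩
                · rw [h4, H.distX m (Nat.zero_le _) (le_refl _)]
                · rw [if_neg (by omega), if_pos (by omega), if_neg (by omega), if_pos rfl]
                  exact H.exn_endX h3 (by omega) h4 hn1 hn2 hP hR (g1.trans h4) g2 g3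
              · have := H.D1 h3 (by omega) (by omega) h4 (g1.trans h4) hP g2
                exact absurd (this ▸ hR) g3
    · by_cases hm : m % 2 = 0
      · by_cases hm0 : m = 0
        · subst hm0
          exact absurd (h4.trans H.Y0) hdv
        · exact absurd hdE (hSE _ (by rw [h4]; exact hYS m hm (by omega) h2))
      · by_cases hm1 : m = 1
        · subst hm1
          exact absurd hR (hY1 d h4 hP)
        · obtain ⟨d', g1, g2, g3⟩ := hnot (by rw [h4]; exact hYF m (by omega) h2)
          by_cases hmM : m = M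
          · subst hmM
            refine ⟨m + 1, by omega, ?_, ?_⟩
            · rw [h4, H.distY m (Nat.zero_le _) (le_refl _)]
            · rw [if_neg (by omega), if_neg (by omega), if_neg (by omega), if_neg (by omega),
                if_pos rfl]
              exact H.exn_endY h3 (by omega) h4 hn1 hn2 hP hR (g1.trans h4) g2 g3
          · have := H.D1Y h3 (by omega) (by omega) h4 (g1.trans h4) hP g2
            exact absurd (this ▸ hR) g3

end Cfg

end Pool.Agent.H41.Fire
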