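import Pool.Agent.H41.Fire.Cfg

/-! Strategy (ii): protect the odd vertices of `X` and the even vertices of `Y`. -/

namespace Pool.Agent.H41.Fire

open Classical

set_option linter.unusedSectionVars false

universe u

variable {V : Type u} {G : SimpleGraph V}

namespace Cfg

variable {v : V} {k : ℕ} {X Y : ℕ → V} {L M : ℕ} {R : G.Dart → Prop}

theorem X0 (H : Cfg G v 0 X Y L M R) : X 0 = v := by
  have h1 := H.reachX 0 (le_refl _) H.kL
  have h2 := H.distX 0 (le_refl _) H.kL
  exact (h1.dist_eq_zero_iff.1 h2).symm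

theorem Y0 (H : Cfg G v 0 X Y L M R) : Y 0 = v := by rw [← H.XY, H.X0]

theorem exn_endX (H : Cfg G v k X Y L M R) (h3 : Sub3 G) (hkL : k < L) {E S : Set V}
    {d d' : G.Dart} (hd : d.fst = X L) (h1 : d.snd ∉ E) (h2 : d.snd ∉ S)
    (hp : ¬ PE k X Y L M d) (hR : R d) (hd' : d'.fst = X L) (hp' : ¬ PE k X Y L M d')
    (hR' : ¬ R d') : exn k X Y L M R E S (X L) = some d.snd := by
  apply exn_eq hd h1 h2 hp hR
  intro d'' g1 _ _ g4 g5
  apply H.D2 h3 hkL hd' g1 hd hp' g4 hp
  · rintro rfl; exact hR' g5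
  · rintro rfl; exact hR' hR

theorem exn_endY (H : Cfg G v k X Y L M R) (h3 : Sub3 G) (hkM : k < M) {E S : Set V}
    {d d' : G.Dart} (hd : d.fst = Y M) (h1 : d.snd ∉ E) (h2 : d.snd ∉ S)
    (hp : ¬ PE k X Y L M d) (hR : R d) (hd' : d'.fst = Y M) (hp' : ¬ PE k X Y L M d')
    (hR' : ¬ R d') : exn k X Y L M R E S (Y M) = some d.snd := by
  apply exn_eq hd h1 h2 hp hR
  intro d'' g1 _ _ g4 g5
  apply H.swap.D2 h3 hkM hd' g1 hd (fun h => hp' (PE_comm.1 h)) (fun h => g4 (PE_comm.1 h))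
    (fun h => hp (PE_comm.1 h))
  · rintro rfl; exact hR' g5
  · rintro rfl; exact hR' hR

theorem D1Y (H : Cfg G v k X Y L M R) (h3 : Sub3 G) {m : ℕ} (h1 : k < m) (h2 : m < M)
    {d d' : G.Dart} (hd : d.fst = Y m) (hd' : d'.fst = Y m) (hp : ¬ PE k X Y L M d)
    (hp' : ¬ PE k X Y L M d') : d = d' :=
  H.swap.D1 h3 h1 h2 hd hd' (fun h => hp (PE_comm.1 h)) (fun h => hp' (PE_comm.1 h))

theorem dist_le_of_adj (_H : Cfg G v k X Y L M R) {S F : Set V} {a b : V}
    (ha : a ∈ Ex G v k X Y L M R S F) (hab : G.Adj a b) : G.dist v b ≤ G.dist v a + 1 :=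
  dist_le_succ ha.1 hab

theorem ii (H : Cfg G v 0 X Y L M R) (h3 : Sub3 G) (hL : 1 ≤ L) (hM : 1 ≤ M)
    (hv : ∀ d : G.Dart, d.fst = v → ¬ PE 0 X Y L M d → ¬ R d)
    (hY : ∀ d d' : G.Dart, d.fst = Y 1 → d'.fst = Y 1 → ¬ PE 0 X Y L M d → ¬ PE 0 X Y L M d' →
      R d → R d' → (M = 1 ∧ d = d')) :
    CanSave G v (Good G v 0 X Y L M R) := by
  set S : Set V := {w | (∃ m, m % 2 = 1 ∧ m ≤ L ∧ w = X m) ∨
    (∃ m, m % 2 = 0 ∧ 1 ≤ m ∧ m ≤ M ∧ w = Y m)} with hS
  set F : Set V := {w | w = v ∨ w = Y 1} with hF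
  set E : Set V := Ex G v 0 X Y L M R S F with hE
  have hXS : ∀ m, m % 2 = 1 → m ≤ L → X m ∈ S := fun m h1 h2 => Or.inl ⟨m, h1, h2, rfl⟩
  have hYS : ∀ m, m % 2 = 0 → 1 ≤ m → m ≤ M → Y m ∈ S := fun m h1 h2 h4 =>
    Or.inr ⟨m, h1, h2, h4, rfl⟩
  have hSE : ∀ w ∈ S, w ∉ E := fun w hw hwE => hwE.2.1 hw
  have hvS : v ∉ S := by
    rintro (⟨m, h1, h2, h4⟩ | ⟨m, h1, h2, h4, h5⟩)
    · have := H.distX m (Nat.zero_le _) h2
      rw [← h4, SimpleGraph.dist_self] at this
      omega
    · have := H.distY m (Nat.zero_le _) h4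
      rw [← h5, SimpleGraph.dist_self] at this
      omega
  have hY1S : Y 1 ∉ S := by
    rintro (⟨m, h1, h2, h4⟩ | ⟨m, h1, h2, h4, h5⟩)
    · have := H.injXY (Nat.zero_le _) h2 (Nat.zero_le _) hM h4.symm
      omega
    · have := H.swap.injX (Nat.zero_le _) h4 (Nat.zero_le _) hM h5.symm
      omega
  have hvE : v ∈ E := ⟨SimpleGraph.Reachable.refl _, hvS, Or.inl (Or.inl rfl)⟩
  have hY1E : Y 1 ∈ E := ⟨H.reachY 1 (Nat.zero_le _) hM, hY1S, Or.inl (Or.inr rfl)⟩
  have hXF : ∀ m, 1 ≤ m → m ≤ L → X m ∉ F := by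
    rintro m h1 h2 (h4 | h4)
    · have := H.distX m (Nat.zero_le _) h2
      rw [h4, SimpleGraph.dist_self] at this
      omega
    · have := H.injXY (Nat.zero_le _) h2 (Nat.zero_le _) hM h4
      omega
  have hYF : ∀ m, 2 ≤ m → m ≤ M → Y m ∉ F := by
    rintro m h1 h2 (h4 | h4)
    · have := H.distY m (Nat.zero_le _) h2
      rw [h4, SimpleGraph.dist_self] at this
      omega
    · have := H.swap.injX (Nat.zero_le _) h2 (Nat.zero_le _) hM h4
      omega
  refine H.gen S F (fun t => if t % 2 = 1 then (if t ≤ L then some (X t) else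
      if t = L + 1 then exn 0 X Y L M R E S (X L) else none) else
      (if t = 0 then none else if t ≤ M then some (Y t) else
      if t = M + 1 then exn 0 X Y L M R E S (Y M) else none)) (fun w => G.dist v w) hvS
      (Or.inl (Or.inl rfl)) ?_ SimpleGraph.dist_self ?_ ?_ ?_ ?_ ?_
  · rintro w (rfl | rfl)
    · exact Or.inl ⟨0, le_refl _, Nat.zero_le _, H.X0.symm⟩
    · exact Or.inr ⟨1, Nat.zero_le _, hM, rfl⟩
  · intro a ha b _ hab
    exact H.dist_le_of_adj ha hab
  · intro t w h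
    split_ifs at h with c1 c2 c3 c4 c5 c6
    · simp only [Option.some.injEq] at h
      rw [← h]
      exact hSE _ (hXS t c1 c2)
    · exact exn_not h
    · simp only [Option.some.injEq] at h
      rw [← h]
      exact hSE _ (hYS t (by omega) (by omega) c5)
    · exact exn_not h
  · rintro a ha b (⟨m, h1, h2, rfl⟩ | ⟨m, h1, h2, h4, rfl⟩) hab
    · refine ⟨m, by omega, ?_, ?_⟩
      · rw [← H.distX m (Nat.zero_le _) h2]
        exact H.dist_le_of_adj ha hab
      · rw [if_pos h1, if_pos h2]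
    · refine ⟨m, by omega, ?_, ?_⟩
      · rw [← H.distY m (Nat.zero_le _) h4]
        exact H.dist_le_of_adj ha hab
      · rw [if_neg (by omega), if_neg (by omega), if_pos h4]
  · rintro d (⟨m, -, h2, (⟨h4, h5⟩ | ⟨h4, h5⟩)⟩ | ⟨m, -, h2, (⟨h4, h5⟩ | ⟨h4, h5⟩)⟩) hd1 hd2
    · by_cases hm : (m + 1) % 2 = 1
      · rw [h5]; exact hXS _ hm (by omega)
      · exact absurd hd1 (hSE _ (by rw [h4]; exact hXS m (by omega) (by omega)))
    · by_cases hm : m % 2 = 1
      · rw [h4]; exact hXS _ hm (by omega)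
      · exact absurd hd1 (hSE _ (by rw [h5]; exact hXS (m + 1) (by omega) (by omega)))
    · by_cases hm : (m + 1) % 2 = 0
      · rw [h5]; exact hYS _ hm (by omega) (by omega)
      · by_cases hm0 : m = 0
        · subst hm0
          exact absurd hY1E (by rw [h5] at hd2; exact hd2)
        · exact absurd hd1 (hSE _ (by rw [h4]; exact hYS m (by omega) (by omega) (by omega)))
    · by_cases hm : m % 2 = 0
      · by_cases hm0 : m = 0
        · subst hm0
          rw [h4, H.Y0] at hd2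
          exact absurd hvE hd2
        · rw [h4]; exact hYS _ hm (by omega) (by omega)
      · exact absurd hd1 (hSE _ (by rw [h5]; exact hYS (m + 1) (by omega) (by omega) (by omega)))
  · intro d hdE hP hR hn1 hn2 hpath
    have hnot : d.fst ∉ F → ∃ d' : G.Dart, d'.fst = d.fst ∧ ¬ PE 0 X Y L M d' ∧ ¬ R d' := by
      intro hF'
      rcases hdE.2.2 with h | h
      · exact absurd h hF'
      · exact h
    rcases hpath with ⟨m, -, h2, h4⟩ | ⟨m, -, h2, h4⟩
    · by_cases hm : m % 2 = 1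
      · exact absurd hdE (hSE _ (by rw [h4]; exact hXS m hm h2))
      · by_cases hm0 : m = 0
        · subst hm0
          exact absurd hR (hv d (by rw [h4, H.X0]) hP)
        · obtain ⟨d', g1, g2, g3⟩ := hnot (by rw [h4]; exact hXF m (by omega) h2)
          by_cases hmL : m = L
          · subst hmL
            refine ⟨m + 1, by omega, ?_, ?_⟩
            · rw [h4, H.distX m (Nat.zero_le _) (le_refl _)]
            · rw [if_pos (by omega), if_neg (by omega), if_pos rfl]
              exact H.exn_endX h3 (by omega) h4 hn1 hn2 hP hR (g1.trans h4) g2 g3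
          · have := H.D1 h3 (by omega) (by omega) h4 (g1.trans h4) hP g2
            exact absurd (this ▸ hR) g3
    · by_cases hm : m % 2 = 0
      · by_cases hm0 : m = 0
        · subst hm0
          exact absurd hR (hv d (by rw [h4, H.Y0]) hP)
        · exact absurd hdE (hSE _ (by rw [h4]; exact hYS m hm (by omega) h2))
      · by_cases hm1 : m = 1
        · subst hm1
          have hM1 : M = 1 := (hY d d h4 h4 hP hP hR hR).1
          refine ⟨2, by omega, ?_, ?_⟩
          · rw [h4, H.distY 1 (Nat.zero_le _) h2]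
          · rw [if_neg (by omega), if_neg (by omega), if_neg (by omega), if_pos (by omega)]
            apply exn_eq (h4.trans (by rw [hM1])) hn1 hn2 hP hR
            intro d' k1 _ _ k4 k5
            exact (hY d' d (k1.trans (by rw [hM1])) h4 k4 hP k5 hR).2
        · obtain ⟨d', g1, g2, g3⟩ := hnot (by rw [h4]; exact hYF m (by omega) h2)
          by_cases hmM : m = M
          · subst hmM
            refine ⟨m + 1, by omega, ?_, ?_⟩
            · rw [h4, H.distY m (Nat.zero_le _) (le_refl _)]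
            · rw [if_neg (by omega), if_neg (by omega), if_neg (by omega), if_pos rfl]
              exact H.exn_endY h3 (by omega) h4 hn1 hn2 hP hR (g1.trans h4) g2 g3
          · have := H.D1Y h3 (by omega) (by omega) h4 (g1.trans h4) hP g2
            exact absurd (this ▸ hR) g3

end Cfg

end Pool.Agent.H41.Fire
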