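import Pool.Agent.H41.Fire.StratA

/-! Strategy (iv): delay the fire behind `X 1`. -/

namespace Pool.Agent.H41.Fire

open Classical

set_option linter.unusedSectionVars false

universe u

variable {V : Type u} {G : SimpleGraph V}

/-- all geodesics from `v` to `w` pass through `x` -/
def Pur (G : SimpleGraph V) (v x w : V) : Prop :=
  w ≠ v ∧ ∀ g, G.Adj v g → g ≠ x → G.dist g w + 1 ≠ G.dist v w

theorem pur_step {v x a b : V} (ha : G.Reachable v a) (hab : G.Adj a b) (hb : b ≠ x)
    (hd : G.dist v b = G.dist v a + 1) (hP : Pur G v x b) : Pur G v x a := by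
  refine ⟨?_, ?_⟩
  · rintro rfl
    rw [SimpleGraph.dist_self] at hd
    exact hP.2 b hab hb (by rw [SimpleGraph.dist_self, hd])
  · intro g hg hgx h
    have hga : G.Reachable g a := hg.symm.reachable.trans ha
    have h1 := dist_le_succ hga hab
    have h2 : G.dist v b ≤ G.dist v g + G.dist g b := by
      have := hg.reachable.dist_triangle_left b
      exact this
    rw [SimpleGraph.dist_eq_one_iff_adj.2 hg] at h2
    exact hP.2 g hg hgx (by omega)

namespace Cfg

variable {v : V} {k : ℕ} {X Y : ℕ → V} {L M : ℕ} {R : G.Dart → Prop}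

theorem iv (H : Cfg G v 0 X Y L M R) (h3 : Sub3 G) (hL : 1 ≤ L) (hM : 2 ≤ M)
    (hv : ∀ d : G.Dart, d.fst = v → ¬ PE 0 X Y L M d → ¬ R d)
    (dy : G.Dart) (hdy : dy.fst = Y 1) (hdyP : ¬ PE 0 X Y L M dy) (hdyR : R dy)
    (hY2 : ∀ d : G.Dart, d.fst = Y 2 → ¬ PE 0 X Y L M d → ¬ R d)
    (hpur : ∀ g, G.Adj v g → g ≠ X 1 → G.dist g (X L) + 1 ≠ G.dist v (X L)) :
    CanSave G v (Good G v 0 X Y L M R) := by
  set b := dy.snd with hb
  have hadj : G.Adj (Y 1) b := by have := dy.adj; rw [hdy] at this; exact this
  have hvX : ∀ m, 1 ≤ m → m ≤ L → X m ≠ v := by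
    intro m h1 h2 h4
    have := H.distX m (Nat.zero_le _) h2
    rw [h4, SimpleGraph.dist_self] at this
    omega
  have hvY : ∀ m, 1 ≤ m → m ≤ M → Y m ≠ v := by
    intro m h1 h2 h4
    have := H.distY m (Nat.zero_le _) h2
    rw [h4, SimpleGraph.dist_self] at this
    omega
  -- purity along X
  have hpX : ∀ m, 1 ≤ m → m ≤ L → Pur G v (X 1) (X m) := by
    intro m h1 h2
    refine ⟨hvX m h1 h2, ?_⟩
    intro g hg hg1 h
    have hXm := H.distX m (Nat.zero_le _) h2
    -- walk from X m to X L
    have hwalk : ∀ j, m + j ≤ L → G.dist g (X (m + j)) ≤ G.dist g (X m) + j := by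
      intro j
      induction j with
      | zero => intro _; simp
      | succ j ih =>
        intro hj
        have h5 := ih (by omega)
        have h6 := dist_le_succ (r := g) (hg.symm.reachable.trans (H.reachX (m + j) (Nat.zero_le _)
          (by omega))) (H.adjX (m + j) (Nat.zero_le _) (by omega))
        have h7 : m + (j + 1) = m + j + 1 := by ring
        rw [h7]
        omega
    have h5 := hwalk (L - m) (by omega)
    rw [show m + (L - m) = L by omega] at h5
    have h6 := H.distX L (Nat.zero_le _) (le_refl _)
    have h7 : G.dist v (X L) ≤ G.dist v g + G.dist g (X L) := hg.reachable.dist_triangle_left _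
    rw [SimpleGraph.dist_eq_one_iff_adj.2 hg] at h7
    exact hpur g hg hg1 (by omega)
  have hbv : b ≠ v := fun h => hdyP (Or.inr ⟨0, le_refl _, by omega, Or.inr ⟨by
    rw [H.Y0, ← hb, h], hdy⟩⟩)
  have hbY2 : b ≠ Y 2 := fun h => hdyP (Or.inr ⟨1, by omega, by omega, Or.inl ⟨hdy, h⟩⟩)
  have hbY1 : b ≠ Y 1 := fun h => hadj.ne h.symm
  set S : Set V := {w | (∃ m, m % 2 = 1 ∧ m ≤ L ∧ w = X m) ∨ w = b ∨
    (∃ m, m % 2 = 1 ∧ 3 ≤ m ∧ m ≤ M ∧ w = Y m)} with hS
  set F : Set V := {w | w = v ∨ w = Y 1 ∨ w = Y 2} with hF
  set E : Set V := Ex G v 0 X Y L M R S F with hE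
  have hXS : ∀ m, m % 2 = 1 → m ≤ L → X m ∈ S := fun m h1 h2 => Or.inl ⟨m, h1, h2, rfl⟩
  have hYS : ∀ m, m % 2 = 1 → 3 ≤ m → m ≤ M → Y m ∈ S := fun m h1 h2 h4 =>
    Or.inr (Or.inr ⟨m, h1, h2, h4, rfl⟩)
  have hbS : b ∈ S := Or.inr (Or.inl rfl)
  have hSE : ∀ w ∈ S, w ∉ E := fun w hw hwE => hwE.2.1 hw
  have hvS : v ∉ S := by
    rintro (⟨m, h1, h2, h4⟩ | h | ⟨m, h1, h2, h4, h5⟩)
    · exact hvX m (by omega) h2 h4.symm
    · exact hbv h.symm
    · exact hvY m (by omega) h4 h5.symm
  have hY1S : Y 1 ∉ S := by
    rintro (⟨m, h1, h2, h4⟩ | h | ⟨m, h1, h2, h4, h5⟩)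
    · have := H.injXY (Nat.zero_le _) h2 (Nat.zero_le _) (by omega) h4.symm
      omega
    · exact hbY1 h.symm
    · have := H.swap.injX (Nat.zero_le _) h4 (Nat.zero_le _) (by omega) h5.symm
      omega
  have hY2S : Y 2 ∉ S := by
    rintro (⟨m, h1, h2, h4⟩ | h | ⟨m, h1, h2, h4, h5⟩)
    · have := H.injXY (Nat.zero_le _) h2 (Nat.zero_le _) hM h4.symm
      omega
    · exact hbY2 h.symm
    · have := H.swap.injX (Nat.zero_le _) h4 (Nat.zero_le _) hM h5.symm
      omega
  have hvE : v ∈ E := ⟨SimpleGraph.Reachable.refl _, hvS, Or.inl (Or.inl rfl)⟩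
  have hY1E : Y 1 ∈ E := ⟨H.reachY 1 (Nat.zero_le _) (by omega), hY1S, Or.inl (Or.inr (Or.inl rfl))⟩
  have hY2E : Y 2 ∈ E := ⟨H.reachY 2 (Nat.zero_le _) hM, hY2S, Or.inl (Or.inr (Or.inr rfl))⟩
  have hXF : ∀ m, 1 ≤ m → m ≤ L → X m ∉ F := by
    rintro m h1 h2 (h4 | h4 | h4)
    · exact hvX m h1 h2 h4
    · have := H.injXY (Nat.zero_le _) h2 (Nat.zero_le _) (by omega) h4
      omega
    · have := H.injXY (Nat.zero_le _) h2 (Nat.zero_le _) hM h4
      omega
  have hYF : ∀ m, 3 ≤ m → m ≤ M → Y m ∉ F := by
    rintro m h1 h2 (h4 | h4 | h4)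
    · exact hvY m (by omega) h2 h4
    · have := H.swap.injX (Nat.zero_le _) h2 (Nat.zero_le _) (by omega) h4
      omega
    · have := H.swap.injX (Nat.zero_le _) h2 (Nat.zero_le _) hM h4
      omega
  have hτ : ∀ w, G.dist v w ≤ (G.dist v w + if Pur G v (X 1) w then 1 else 0) := fun w =>
    Nat.le_add_right _ _
  have hτ' : ∀ w, Pur G v (X 1) w → (G.dist v w + if Pur G v (X 1) w then 1 else 0) =
      G.dist v w + 1 := fun w hw => by rw [if_pos hw]
  refine H.gen S F (fun t => if t = 1 then some (X 1) else if t = 2 then some b else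
      if t % 2 = 1 then (if t ≤ M then some (Y t) else
      if t = M + 1 then exn 0 X Y L M R E S (Y M) else none) else
      (if t = 0 then none else if t ≤ L + 1 then some (X (t - 1)) else
      if t = L + 2 then exn 0 X Y L M R E S (X L) else none))
      (fun w => G.dist v w + if Pur G v (X 1) w then 1 else 0) hvS
      (Or.inl (Or.inl rfl)) ?_ ?_ ?_ ?_ ?_ ?_ ?_
  · rintro w (rfl | rfl | rfl)
    · exact Or.inl ⟨0, le_refl _, Nat.zero_le _, H.X0.symm⟩
    · exact Or.inr ⟨1, Nat.zero_le _, by omega, rfl⟩
    · exact Or.inr ⟨2, Nat.zero_le _, hM, rfl⟩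
  · show G.dist v v + (if Pur G v (X 1) v then 1 else 0) = 0
    rw [SimpleGraph.dist_self, if_neg (fun h => h.1 rfl)]
  · intro a ha c hc hac
    show G.dist v c + (if Pur G v (X 1) c then 1 else 0) ≤
      G.dist v a + (if Pur G v (X 1) a then 1 else 0) + 1
    have h1 := H.dist_le_of_adj ha hac
    by_cases hPc : Pur G v (X 1) c
    · by_cases hPa : Pur G v (X 1) a
      · rw [if_pos hPc, if_pos hPa]; omega
      · rw [if_pos hPc, if_neg hPa]
        by_contra hcon
        apply hPa
        refine pur_step ha.1 hac ?_ (by omega) hPc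
        intro h
        exact hc.2.1 (h ▸ hXS 1 (by omega) hL)
    · rw [if_neg hPc]; omega
  · intro t w h
    split_ifs at h with c0 c00 c1 c2 c3 c4 c5 c6
    · simp only [Option.some.injEq] at h
      rw [← h]
      exact hSE _ (hXS 1 (by omega) hL)
    · simp only [Option.some.injEq] at h
      rw [← h]
      exact hSE _ hbS
    · simp only [Option.some.injEq] at h
      rw [← h]
      exact hSE _ (hYS t c1 (by omega) c2)
    · exact exn_not h
    · simp only [Option.some.injEq] at h
      rw [← h]
      exact hSE _ (hXS (t - 1) (by omega) (by omega))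
    · exact exn_not h
  · rintro a ha c hcS hac
    rcases hcS with ⟨m, h1, h2, rfl⟩ | rfl | ⟨m, h1, h2, h4, rfl⟩
    · by_cases hm1 : m = 1
      · subst hm1
        exact ⟨1, le_refl _, by omega, by rw [if_pos rfl]⟩
      · refine ⟨m + 1, by omega, ?_, ?_⟩
        · have h5 := H.dist_le_of_adj ha hac
          rw [H.distX m (Nat.zero_le _) h2] at h5
          by_cases h6 : m ≤ G.dist v a
          · have := hτ a
            omega
          · have h7 : Pur G v (X 1) a := by
              refine pur_step ha.1 hac ?_ ?_ (hpX m (by omega) h2)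
              · intro h
                have := H.injX (Nat.zero_le _) h2 (Nat.zero_le _) hL h
                omega
              · rw [H.distX m (Nat.zero_le _) h2]
                omega
            have := hτ' a h7
            omega
        · rw [if_neg (by omega), if_neg (by omega), if_neg (by omega), if_neg (by omega),
            if_pos (by omega)]
          rfl
    · by_cases hav : a = v
      · -- then `b` is `X 1`
        subst hav
        refine ⟨1, le_refl _, by omega, ?_⟩
        rw [if_pos rfl]
        congr 1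
        by_contra hne
        have hne' : b ≠ X 1 := fun h => hne h.symm
        set d : G.Dart := ⟨(a, b), hac⟩ with hd
        have hdb : G.dist a b = 1 := SimpleGraph.dist_eq_one_iff_adj.2 hac
        have hdP : ¬ PE 0 X Y L M d := by
          rintro (⟨m, -, h5, (⟨h6, h7⟩ | ⟨h6, h7⟩)⟩ | ⟨m, -, h5, (⟨h6, h7⟩ | ⟨h6, h7⟩)⟩)
          · have h8 : a = X m := h6
            have : m = 0 := by
              by_contra h0
              exact hvX m (by omega) (by omega) h8.symm
            subst this
            exact hne' h7
          · have h8 : a = X (m + 1) := h7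
            exact hvX (m + 1) (by omega) (by omega) h8.symm
          · have h8 : a = Y m := h6
            have : m = 0 := by
              by_contra h0
              exact hvY m (by omega) (by omega) h8.symm
            subst this
            exact hbY1 h7
          · have h8 : a = Y (m + 1) := h7
            exact hvY (m + 1) (by omega) (by omega) h8.symm
        have hnR : ¬ R d := hv d rfl hdP
        have hnR' : ¬ R d.symm := by
          intro h
          have := H.h1 d.symm hac.reachable (fun h => hdP (PE_symm.1 h)) h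
          rw [SimpleGraph.Dart.symm_symm] at this
          exact hnR this
        have hyR : R dy.symm := H.h1 dy (by rw [hdy]; exact H.reachY 1 (Nat.zero_le _) (by omega))
          hdyP hdyR
        apply hnR'
        refine H.h2 b hac.reachable ?_ ?_ dy.symm d.symm rfl rfl hyR
        · intro m _ h6 h7
          have := H.distX m (Nat.zero_le _) h6
          rw [← h7, hdb] at this
          subst this
          exact hne' h7
        · intro m _ h6 h7
          have := H.distY m (Nat.zero_le _) h6
          rw [← h7, hdb] at this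
          subst this
          exact hbY1 h7
      · refine ⟨2, by omega, ?_, ?_⟩
        · have h5 : G.dist v a ≠ 0 := by
            intro h0
            exact hav (ha.1.dist_eq_zero_iff.1 h0).symm
          have := hτ a
          omega
        · rw [if_neg (by omega), if_pos rfl]
    · refine ⟨m, by omega, ?_, ?_⟩
      · have h5 := H.dist_le_of_adj ha hac
        rw [H.distY m (Nat.zero_le _) h4] at h5
        have := hτ a
        omega
      · rw [if_neg (by omega), if_neg (by omega), if_pos h1, if_pos h4]
  · rintro d (⟨m, -, h2, (⟨h4, h5⟩ | ⟨h4, h5⟩)⟩ | ⟨m, -, h2, (⟨h4, h5⟩ | ⟨h4, h5⟩)⟩) hd1 hd2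
    · by_cases hm : (m + 1) % 2 = 1
      · rw [h5]; exact hXS _ hm (by omega)
      · exact absurd hd1 (hSE _ (by rw [h4]; exact hXS m (by omega) (by omega)))
    · by_cases hm : m % 2 = 1
      · rw [h4]; exact hXS _ hm (by omega)
      · exact absurd hd1 (hSE _ (by rw [h5]; exact hXS (m + 1) (by omega) (by omega)))
    · by_cases hm0 : m = 0
      · subst hm0
        exact absurd hY1E (by rw [h5] at hd2; exact hd2)
      · by_cases hm1 : m = 1
        · subst hm1
          exact absurd hY2E (by rw [h5] at hd2; exact hd2)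
        · by_cases hm : (m + 1) % 2 = 1
          · rw [h5]; exact hYS _ hm (by omega) (by omega)
          · exact absurd hd1 (hSE _ (by rw [h4]; exact hYS m (by omega) (by omega) (by omega)))
    · by_cases hm0 : m = 0
      · subst hm0
        rw [h4, H.Y0] at hd2
        exact absurd hvE hd2
      · by_cases hm1 : m = 1
        · subst hm1
          exact absurd hY1E (by rw [h4] at hd2; exact hd2)
        · by_cases hm2 : m = 2
          · subst hm2
            exact absurd hY2E (by rw [h4] at hd2; exact hd2)
          · by_cases hm : m % 2 = 1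
            · rw [h4]; exact hYS _ hm (by omega) (by omega)
            · exact absurd hd1
                (hSE _ (by rw [h5]; exact hYS (m + 1) (by omega) (by omega) (by omega)))
  · intro d hdE hP hR hn1 hn2 hpath
    have hnot : d.fst ∉ F → ∃ d' : G.Dart, d'.fst = d.fst ∧ ¬ PE 0 X Y L M d' ∧ ¬ R d' := by
      intro hF'
      rcases hdE.2.2 with h | h
      · exact absurd h hF'
      · exact h
    rcases hpath with ⟨m, -, h2, h4⟩ | ⟨m, -, h2, h4⟩
    · by_cases hm : m % 2 = 1
      · exact absurd hdE (hSE _ (by rw [h4]; exact hXS m hm h2))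
      · by_cases hm0 : m = 0
        · subst hm0
          exact absurd hR (hv d (by rw [h4, H.X0]) hP)
        · obtain ⟨d', g1, g2, g3⟩ := hnot (by rw [h4]; exact hXF m (by omega) h2)
          by_cases hmL : m = L
          · subst hmL
            refine ⟨m + 2, by omega, ?_, ?_⟩
            · rw [h4]
              have := hτ' (X m) (hpX m (by omega) (le_refl _))
              rw [H.distX m (Nat.zero_le _) (le_refl _)] at this ⊢
              omega
            · rw [if_neg (by omega), if_neg (by omega), if_neg (by omega), if_neg (by omega),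
                if_neg (by omega), if_pos rfl]
              exact H.exn_endX h3 (by omega) h4 hn1 hn2 hP hR (g1.trans h4) g2 g3
          · have := H.D1 h3 (by omega) (by omega) h4 (g1.trans h4) hP g2
            exact absurd (this ▸ hR) g3
    · by_cases hm0 : m = 0
      · subst hm0
        exact absurd hR (hv d (by rw [h4, H.Y0]) hP)
      · by_cases hm1 : m = 1
        · subst hm1
          have := H.D1Y h3 (by omega) (by omega) h4 hdy hP hdyP
          exact absurd hbS (by rw [hb, ← this]; exact hn2)
        · by_cases hm2 : m = 2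
          · subst hm2
            exact absurd hR (hY2 d h4 hP)
          · by_cases hm : m % 2 = 1
            · exact absurd hdE (hSE _ (by rw [h4]; exact hYS m hm (by omega) h2))
            · obtain ⟨d', g1, g2, g3⟩ := hnot (by rw [h4]; exact hYF m (by omega) h2)
              by_cases hmM : m = M
              · subst hmM
                refine ⟨m + 1, by omega, ?_, ?_⟩
                · have := hτ (Y m)
                  rw [h4]
                  rw [H.distY m (Nat.zero_le _) (le_refl _)] at this ⊢
                  omega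
                · rw [if_neg (by omega), if_neg (by omega), if_pos (by omega), if_neg (by omega),
                    if_pos rfl]
                  exact H.exn_endY h3 (by omega) h4 hn1 hn2 hP hR (g1.trans h4) g2 g3
              · have := H.D1Y h3 (by omega) (by omega) h4 (g1.trans h4) hP g2
                exact absurd (this ▸ hR) g3

end Cfg

end Pool.Agent.H41.Fire
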